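import Pool.Agent.H92.PK.VZfc

/-!
# VCARD: cardinals in `V = ZFSet`
-/

set_option autoImplicit false

universe u v

open Cardinal Order

namespace PK

open BV

theorem vcard_isTrans (x : ZFSet.{u}) : IsTrans VE x ↔ x.IsTransitive := Iff.rfl

theorem isOrd_V (x : ZFSet.{u}) : IsOrd VE x ↔ ∃ α : Ordinal.{u}, x = α.toZFSet := by
  have h1 : IsOrd VE x ↔ x.IsOrdinal := ZFSet.isOrdinal_iff_forall_mem_isTransitive.symm
  rw [h1, ZFSet.isOrdinal_iff_mem_range_toZFSet]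
  constructor
  · rintro ⟨α, rfl⟩
    exact ⟨α, rfl⟩
  · rintro ⟨α, rfl⟩
    exact ⟨α, rfl⟩

theorem vcard_le_iff (x y : ZFSet.{u}) :
    x.card ≤ y.card ↔ Nonempty ({z // z ∈ x} ↪ {z // z ∈ y}) := by
  have h1 : #{z // z ∈ x} = lift.{u + 1, u} x.card := ZFSet.cardinalMk_coe_sort
  have h2 : #{z // z ∈ y} = lift.{u + 1, u} y.card := ZFSet.cardinalMk_coe_sort
  rw [← Cardinal.lift_le.{u + 1}, ← h1, ← h2]
  exact Cardinal.le_def _ _

theorem vcard_eq_iff (x y : ZFSet.{u}) :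
    x.card = y.card ↔ Nonempty ({z // z ∈ x} ≃ {z // z ∈ y}) := by
  have h1 : #{z // z ∈ x} = lift.{u + 1, u} x.card := ZFSet.cardinalMk_coe_sort
  have h2 : #{z // z ∈ y} = lift.{u + 1, u} y.card := ZFSet.cardinalMk_coe_sort
  rw [← Cardinal.lift_inj.{u, u + 1}, ← h1, ← h2]
  exact Cardinal.eq

/-- the graph of a function, as a set -/
theorem vcard_graph (x y : ZFSet.{u}) (g : {z // z ∈ x} → {z // z ∈ y}) :
    ∃ f : ZFSet.{u}, ∀ a b, App VE f a b ↔ ∃ h : a ∈ x, b = (g ⟨a, h⟩).1 := by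
  refine ⟨(ZFSet.prod x y).sep (fun p => ∃ a b, p = ZFSet.pair a b ∧
    ∃ h : a ∈ x, b = (g ⟨a, h⟩).1), fun a b => ?_⟩
  rw [app_V, ZFSet.mem_sep, ZFSet.pair_mem_prod]
  constructor
  · rintro ⟨_, a', b', hp, h⟩
    obtain ⟨rfl, rfl⟩ := ZFSet.pair_inj.1 hp
    exact h
  · rintro ⟨h, rfl⟩
    exact ⟨⟨h, (g ⟨a, h⟩).2⟩, a, _, rfl, h, rfl⟩

theorem vcard_inj (x y : ZFSet.{u}) (g : {z // z ∈ x} → {z // z ∈ y}) (f : ZFSet.{u})
    (hf : ∀ a b, App VE f a b ↔ ∃ h : a ∈ x, b = (g ⟨a, h⟩).1) (hg : Function.Injective g) :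
    InjOn VE f (fun z => VE z x) (fun z => VE z y) := by
  refine ⟨?_, ?_, ?_⟩
  · intro a ha
    exact ⟨(g ⟨a, ha⟩).1, (g ⟨a, ha⟩).2, (hf _ _).2 ⟨ha, rfl⟩⟩
  · intro a b b' _ h1 h2
    obtain ⟨_, rfl⟩ := (hf _ _).1 h1
    obtain ⟨_, rfl⟩ := (hf _ _).1 h2
    rfl
  · intro a a' b _ _ h1 h2
    obtain ⟨h3, h4⟩ := (hf _ _).1 h1
    obtain ⟨h5, h6⟩ := (hf _ _).1 h2
    have h7 : g ⟨a, h3⟩ = g ⟨a', h5⟩ := Subtype.ext (h4.symm.trans h6)
    exact congrArg Subtype.val (hg h7)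

/-- the function given by a set -/
theorem vcard_fun {x y f : ZFSet.{u}}
    (hf : InjOn VE f (fun z => VE z x) (fun z => VE z y)) :
    ∃ g : {z // z ∈ x} → {z // z ∈ y}, Function.Injective g ∧
      ∀ a, App VE f a.1 (g a).1 := by
  obtain ⟨h1, _, h3⟩ := hf
  have h4 : ∀ a : {z // z ∈ x}, ∃ b : {z // z ∈ y}, App VE f a.1 b.1 := by
    intro a
    obtain ⟨b, hb, hab⟩ := h1 a.1 a.2
    exact ⟨⟨b, hb⟩, hab⟩
  choose g hg using h4
  refine ⟨g, ?_, hg⟩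
  intro a a' haa
  have h5 := hg a'
  rw [← haa] at h5
  exact Subtype.ext (h3 a.1 a'.1 (g a).1 a.2 a'.2 (hg a) h5)

/-- injections in `V` are injections -/
theorem injOn_V (x y : ZFSet.{u}) :
    (∃ f, InjOn VE f (fun z => VE z x) (fun z => VE z y)) ↔ x.card ≤ y.card := by
  rw [vcard_le_iff]
  constructor
  · rintro ⟨f, hf⟩
    obtain ⟨g, hg, _⟩ := vcard_fun hf
    exact ⟨⟨g, hg⟩⟩
  · rintro ⟨g⟩
    obtain ⟨f, hf⟩ := vcard_graph x y g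
    exact ⟨f, vcard_inj x y g f hf g.injective⟩

/-- bijections in `V` are bijections -/
theorem hasCard_V (x y : ZFSet.{u}) : HasCard VE x y ↔ x.card = y.card := by
  rw [vcard_eq_iff]
  constructor
  · rintro ⟨f, hf, hsurj⟩
    obtain ⟨g, hg, hgf⟩ := vcard_fun hf
    refine ⟨Equiv.ofBijective g ⟨hg, ?_⟩⟩
    intro b
    obtain ⟨a, ha, hab⟩ := hsurj b.1 b.2
    exact ⟨⟨a, ha⟩, Subtype.ext (hf.2.1 a _ _ ha (hgf ⟨a, ha⟩) hab)⟩
  · rintro ⟨g⟩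
    obtain ⟨f, hf⟩ := vcard_graph x y g
    refine ⟨f, vcard_inj x y g f hf g.injective, ?_⟩
    intro b hb
    obtain ⟨a, ha⟩ := g.surjective ⟨b, hb⟩
    refine ⟨a.1, a.2, (hf _ _).2 ⟨a.2, ?_⟩⟩
    have h1 : (⟨a.1, a.2⟩ : {z // z ∈ x}) = a := rfl
    rw [h1, ha]

theorem infCard_V (x : ZFSet.{u}) :
    InfCard VE x ↔ ∃ c : Cardinal.{u}, ℵ₀ ≤ c ∧ x = c.ord.toZFSet := by
  constructor
  · rintro ⟨h1, ⟨β, hβ⟩, h3, h4⟩
    obtain ⟨α, rfl⟩ := (isOrd_V x).1 h1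
    have hord : α.card.ord = α := by
      by_contra hne
      have hlt : α.card.ord < α := lt_of_le_of_ne (ord_card_le α) hne
      have h5 : VE (α.card.ord).toZFSet α.toZFSet := Ordinal.toZFSet_mem_toZFSet_iff.2 hlt
      obtain ⟨f, hf⟩ := (injOn_V α.toZFSet (α.card.ord).toZFSet).2 (by
        rw [Ordinal.card_toZFSet, Ordinal.card_toZFSet, card_ord])
      exact h4 _ h5 f hf
    refine ⟨α.card, ?_, by rw [hord]⟩
    rw [Ordinal.aleph0_le_card]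
    by_contra hlt
    push Not at hlt
    obtain ⟨n, rfl⟩ := Ordinal.lt_omega0.1 hlt
    have hn : n ≠ 0 := by
      rintro rfl
      obtain ⟨a, ha, _⟩ := Ordinal.mem_toZFSet_iff.1 hβ
      exact absurd ha (by simp)
    obtain ⟨m, rfl⟩ := Nat.exists_eq_succ_of_ne_zero hn
    have hm : VE (Ordinal.toZFSet (m : Ordinal.{u}))
        (Ordinal.toZFSet ((m.succ : ℕ) : Ordinal.{u})) := by
      refine Ordinal.toZFSet_mem_toZFSet_iff.2 ?_
      exact_mod_cast Nat.lt_succ_self m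
    obtain ⟨γ, hγ, hmγ⟩ := h3 _ hm
    obtain ⟨a, ha, rfl⟩ := Ordinal.mem_toZFSet_iff.1 hγ
    have hma : (m : Ordinal.{u}) < a := Ordinal.toZFSet_mem_toZFSet_iff.1 hmγ
    have h6 : ((m.succ : ℕ) : Ordinal.{u}) = succ (m : Ordinal.{u}) := by
      rw [Nat.cast_succ, Order.succ_eq_add_one]
    rw [h6, Order.lt_succ_iff] at ha
    exact absurd hma (not_lt.2 ha)
  · rintro ⟨c, hc, rfl⟩
    have hlim : IsSuccLimit c.ord := isSuccLimit_ord hc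
    refine ⟨(isOrd_V _).2 ⟨_, rfl⟩, ?_, ?_, ?_⟩
    · refine ⟨(0 : Ordinal.{u}).toZFSet, Ordinal.toZFSet_mem_toZFSet_iff.2 ?_⟩
      exact hlim.bot_lt
    · intro β hβ
      obtain ⟨a, ha, rfl⟩ := Ordinal.mem_toZFSet_iff.1 hβ
      refine ⟨(succ a).toZFSet, Ordinal.toZFSet_mem_toZFSet_iff.2 (hlim.succ_lt ha),
        Ordinal.toZFSet_mem_toZFSet_iff.2 (lt_succ a)⟩
    · intro β hβ f hf
      obtain ⟨a, ha, rfl⟩ := Ordinal.mem_toZFSet_iff.1 hβ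
      have h5 := (injOn_V c.ord.toZFSet a.toZFSet).1 ⟨f, hf⟩
      rw [Ordinal.card_toZFSet, Ordinal.card_toZFSet, card_ord] at h5
      exact absurd (Cardinal.lt_ord.1 ha) (not_lt.2 h5)

theorem isSuccCard_V {c : Cardinal.{u}} (hc : ℵ₀ ≤ c) (y : ZFSet.{u}) :
    IsSuccCard VE c.ord.toZFSet y ↔ y = (succ c).ord.toZFSet := by
  constructor
  · rintro ⟨h1, h2, h3⟩
    obtain ⟨d, hd, rfl⟩ := (infCard_V y).1 h1
    have hcd : c < d := ord_lt_ord.1 (Ordinal.toZFSet_mem_toZFSet_iff.1 h2)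
    rcases (succ_le_of_lt hcd).lt_or_eq with hlt | heq
    · exfalso
      have h4 : InfCard VE (succ c).ord.toZFSet :=
        (infCard_V _).2 ⟨succ c, hc.trans (le_succ c), rfl⟩
      rcases h3 _ (Ordinal.toZFSet_mem_toZFSet_iff.2 (ord_lt_ord.2 hlt)) h4 with h5 | h5
      · have h6 := ord_lt_ord.1 (Ordinal.toZFSet_mem_toZFSet_iff.1 h5)
        exact absurd h6 (not_lt.2 (le_succ c))
      · have h6 := Cardinal.ord_injective (Ordinal.toZFSet_injective h5)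
        exact absurd h6 (lt_succ c).ne'
    · rw [heq]
  · rintro rfl
    refine ⟨(infCard_V _).2 ⟨succ c, hc.trans (le_succ c), rfl⟩,
      Ordinal.toZFSet_mem_toZFSet_iff.2 (ord_lt_ord.2 (lt_succ c)), ?_⟩
    intro μ hμ hμ'
    obtain ⟨e, _, rfl⟩ := (infCard_V μ).1 hμ'
    have h1 : e < succ c := ord_lt_ord.1 (Ordinal.toZFSet_mem_toZFSet_iff.1 hμ)
    rcases (lt_succ_iff.1 h1).lt_or_eq with h2 | h2
    · exact Or.inl (Ordinal.toZFSet_mem_toZFSet_iff.2 (ord_lt_ord.2 h2))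
    · exact Or.inr (by rw [h2])

theorem isOmega_V (x : ZFSet.{u}) : IsOmega VE x ↔ x = (Ordinal.omega0).toZFSet := by
  have hω : (Ordinal.omega0 : Ordinal.{u}) = (ℵ₀ : Cardinal.{u}).ord := ord_aleph0.symm
  rw [hω]
  constructor
  · rintro ⟨h1, h2⟩
    obtain ⟨c, hc, rfl⟩ := (infCard_V x).1 h1
    rcases hc.lt_or_eq with hlt | heq
    · exact absurd ((infCard_V _).2 ⟨ℵ₀, le_rfl, rfl⟩)
        (h2 _ (Ordinal.toZFSet_mem_toZFSet_iff.2 (ord_lt_ord.2 hlt)))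
    · rw [heq]
  · rintro rfl
    refine ⟨(infCard_V _).2 ⟨ℵ₀, le_rfl, rfl⟩, ?_⟩
    intro y hy hy'
    obtain ⟨c, hc, rfl⟩ := (infCard_V y).1 hy'
    have h1 : c < ℵ₀ := ord_lt_ord.1 (Ordinal.toZFSet_mem_toZFSet_iff.1 hy)
    exact absurd hc (not_le.2 h1)

theorem isGCH_V (h : ∀ c : Cardinal.{u}, ℵ₀ ≤ c → 2 ^ c = succ c) : IsGCH VE.{u} := by
  intro κ κ' p hκ hκ' hp
  obtain ⟨c, hc, rfl⟩ := (infCard_V κ).1 hκ
  have h1 := (isSuccCard_V hc κ').1 hκ'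
  subst h1
  have h2 : p = ZFSet.powerset c.ord.toZFSet := by
    ext z
    rw [ZFSet.mem_powerset, ZFSet.subset_def]
    exact hp z
  rw [hasCard_V, h2, ZFSet.card_powerset, Ordinal.card_toZFSet, Ordinal.card_toZFSet, card_ord,
    card_ord]
  exact (h c hc).symm

end PK
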