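import Pool.Agent.H92.PK.Calc

/-!
# NOTN: the notions of set theory used here are definable

Pattern: unfold the notion and apply the rules of `FDef`; for `∀ z, R z (w i)` write
`FDef.all (P := fun M E w => R (w 0) (w (i + 1))) ...` (`scons z w 0 = z`, `scons z w (i+1) = w i`
hold by definition). Each theorem is stated for arbitrary variables so that it can be used inside
quantifiers.
-/

set_option autoImplicit false

universe u v

open Cardinal Order

namespace PK

open BV

theorem def_isPair (i j k : ℕ) :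
    FDef fun (M : Type v) E w => IsPair E (w i) (w j) (w k) :=
  FDef.all (P := fun _ E w => E (w 0) (w (i + 1)) ↔ w 0 = w (j + 1) ∨ w 0 = w (k + 1))
    ((FDef.mem 0 (i + 1)).iff ((FDef.eq 0 (j + 1)).or (FDef.eq 0 (k + 1))))

theorem def_isOPair (i j k : ℕ) :
    FDef fun (M : Type v) E w => IsOPair E (w i) (w j) (w k) :=
  FDef.ex (P := fun _ E w => ∃ b, IsPair E (w 0) (w (j + 1)) (w (j + 1)) ∧
      IsPair E b (w (j + 1)) (w (k + 1)) ∧ IsPair E (w (i + 1)) (w 0) b)
    (FDef.ex (P := fun _ E w => IsPair E (w 1) (w (j + 2)) (w (j + 2)) ∧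
        IsPair E (w 0) (w (j + 2)) (w (k + 2)) ∧ IsPair E (w (i + 2)) (w 1) (w 0))
      ((def_isPair 1 (j + 2) (j + 2)).and
        ((def_isPair 0 (j + 2) (k + 2)).and (def_isPair (i + 2) 1 0))))

theorem def_app (i j k : ℕ) : FDef fun (M : Type v) E w => App E (w i) (w j) (w k) :=
  FDef.ex (P := fun _ E w => IsOPair E (w 0) (w (j + 1)) (w (k + 1)) ∧ E (w 0) (w (i + 1)))
    ((def_isOPair 0 (j + 1) (k + 1)).and (FDef.mem 0 (i + 1)))

theorem def_isTrans (i : ℕ) : FDef fun (M : Type v) E w => IsTrans E (w i) :=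
  FDef.all (P := fun _ E w => E (w 0) (w (i + 1)) → ∀ z, E z (w 0) → E z (w (i + 1)))
    ((FDef.mem 0 (i + 1)).imp
      (FDef.all (P := fun _ E w => E (w 0) (w 1) → E (w 0) (w (i + 2)))
        ((FDef.mem 0 1).imp (FDef.mem 0 (i + 2)))))

theorem def_isOrd (i : ℕ) : FDef fun (M : Type v) E w => IsOrd E (w i) :=
  (def_isTrans i).and
    (FDef.all (P := fun _ E w => E (w 0) (w (i + 1)) → IsTrans E (w 0))
      ((FDef.mem 0 (i + 1)).imp (def_isTrans 0)))

/-- the relation `w i` is total from `w j` to `w k` -/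
theorem notn_tot (i j k : ℕ) : FDef fun (M : Type v) E w =>
    ∀ x, E x (w j) → ∃ y, E y (w k) ∧ App E (w i) x y :=
  FDef.all (P := fun _ E w => E (w 0) (w (j + 1)) → ∃ y, E y (w (k + 1)) ∧ App E (w (i + 1)) (w 0) y)
    ((FDef.mem 0 (j + 1)).imp
      (FDef.ex (P := fun _ E w => E (w 0) (w (k + 2)) ∧ App E (w (i + 2)) (w 1) (w 0))
        ((FDef.mem 0 (k + 2)).and (def_app (i + 2) 1 0))))

/-- the relation `w i` is functional on `w j` -/
theorem notn_fun (i j : ℕ) : FDef fun (M : Type v) E w =>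
    ∀ x y y', E x (w j) → App E (w i) x y → App E (w i) x y' → y = y' :=
  FDef.all (P := fun _ E w => ∀ y y', E (w 0) (w (j + 1)) → App E (w (i + 1)) (w 0) y →
      App E (w (i + 1)) (w 0) y' → y = y')
    (FDef.all (P := fun _ E w => ∀ y', E (w 1) (w (j + 2)) → App E (w (i + 2)) (w 1) (w 0) →
        App E (w (i + 2)) (w 1) y' → w 0 = y')
      (FDef.all (P := fun _ E w => E (w 2) (w (j + 3)) → App E (w (i + 3)) (w 2) (w 1) →
          App E (w (i + 3)) (w 2) (w 0) → w 1 = w 0)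
        ((FDef.mem 2 (j + 3)).imp ((def_app (i + 3) 2 1).imp ((def_app (i + 3) 2 0).imp
          (FDef.eq 1 0))))))

theorem notn_inj (i j : ℕ) : FDef fun (M : Type v) E w =>
    ∀ x x' y, E x (w j) → E x' (w j) → App E (w i) x y → App E (w i) x' y → x = x' :=
  FDef.all (P := fun _ E w => ∀ x' y, E (w 0) (w (j + 1)) → E x' (w (j + 1)) →
      App E (w (i + 1)) (w 0) y → App E (w (i + 1)) x' y → w 0 = x')
    (FDef.all (P := fun _ E w => ∀ y, E (w 1) (w (j + 2)) → E (w 0) (w (j + 2)) →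
        App E (w (i + 2)) (w 1) y → App E (w (i + 2)) (w 0) y → w 1 = w 0)
      (FDef.all (P := fun _ E w => E (w 2) (w (j + 3)) → E (w 1) (w (j + 3)) →
          App E (w (i + 3)) (w 2) (w 0) → App E (w (i + 3)) (w 1) (w 0) → w 2 = w 1)
        ((FDef.mem 2 (j + 3)).imp ((FDef.mem 1 (j + 3)).imp ((def_app (i + 3) 2 0).imp
          ((def_app (i + 3) 1 0).imp (FDef.eq 2 1)))))))

theorem def_injOn (i j k : ℕ) : FDef fun (M : Type v) E w =>
    InjOn E (w i) (fun x => E x (w j)) (fun y => E y (w k)) :=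
  (notn_tot i j k).and ((notn_fun i j).and (notn_inj i j))

theorem def_infCard (i : ℕ) : FDef fun (M : Type v) E w => InfCard E (w i) :=
  (def_isOrd i).and
    ((FDef.ex (P := fun _ E w => E (w 0) (w (i + 1))) (FDef.mem 0 (i + 1))).and
      ((FDef.all (P := fun _ E w => E (w 0) (w (i + 1)) → ∃ γ, E γ (w (i + 1)) ∧ E (w 0) γ)
        ((FDef.mem 0 (i + 1)).imp
          (FDef.ex (P := fun _ E w => E (w 0) (w (i + 2)) ∧ E (w 1) (w 0))
            ((FDef.mem 0 (i + 2)).and (FDef.mem 1 0))))).and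
        (FDef.all (P := fun _ E w => E (w 0) (w (i + 1)) →
            ∀ f, ¬ InjOn E f (fun x => E x (w (i + 1))) (fun x => E x (w 0)))
          ((FDef.mem 0 (i + 1)).imp
            (FDef.all (P := fun _ E w =>
                ¬ InjOn E (w 0) (fun x => E x (w (i + 2))) (fun x => E x (w 1)))
              (def_injOn 0 (i + 2) 1).not)))))

theorem def_isSuccCard (i j : ℕ) :
    FDef fun (M : Type v) E w => IsSuccCard E (w i) (w j) :=
  (def_infCard j).and ((FDef.mem i j).and
    (FDef.all (P := fun _ E w => E (w 0) (w (j + 1)) → InfCard E (w 0) →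
        E (w 0) (w (i + 1)) ∨ w 0 = w (i + 1))
      ((FDef.mem 0 (j + 1)).imp ((def_infCard 0).imp
        ((FDef.mem 0 (i + 1)).or (FDef.eq 0 (i + 1)))))))

theorem def_isPow (i j : ℕ) : FDef fun (M : Type v) E w => IsPow E (w i) (w j) :=
  FDef.all (P := fun _ E w => E (w 0) (w (i + 1)) ↔ ∀ t, E t (w 0) → E t (w (j + 1)))
    ((FDef.mem 0 (i + 1)).iff
      (FDef.all (P := fun _ E w => E (w 0) (w 1) → E (w 0) (w (j + 2)))
        ((FDef.mem 0 1).imp (FDef.mem 0 (j + 2)))))

theorem def_hasCard (i j : ℕ) : FDef fun (M : Type v) E w => HasCard E (w i) (w j) :=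
  FDef.ex (P := fun _ E w =>
      InjOn E (w 0) (fun x => E x (w (i + 1))) (fun y => E y (w (j + 1))) ∧
        ∀ y, E y (w (j + 1)) → ∃ x, E x (w (i + 1)) ∧ App E (w 0) x y)
    ((def_injOn 0 (i + 1) (j + 1)).and
      (FDef.all (P := fun _ E w => E (w 0) (w (j + 2)) → ∃ x, E x (w (i + 2)) ∧
          App E (w 1) x (w 0))
        ((FDef.mem 0 (j + 2)).imp
          (FDef.ex (P := fun _ E w => E (w 0) (w (i + 3)) ∧ App E (w 2) (w 0) (w 1))
            ((FDef.mem 0 (i + 3)).and (def_app 2 0 1))))))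

theorem def_isGCH : FDef fun (M : Type v) E _ => IsGCH E :=
  FDef.all (P := fun _ E w => ∀ κ' p, InfCard E (w 0) → IsSuccCard E (w 0) κ' →
      IsPow E p (w 0) → HasCard E κ' p)
    (FDef.all (P := fun _ E w => ∀ p, InfCard E (w 1) → IsSuccCard E (w 1) (w 0) →
        IsPow E p (w 1) → HasCard E (w 0) p)
      (FDef.all (P := fun _ E w => InfCard E (w 2) → IsSuccCard E (w 2) (w 1) →
          IsPow E (w 0) (w 2) → HasCard E (w 1) (w 0))
        ((def_infCard 2).imp ((def_isSuccCard 2 1).imp ((def_isPow 0 2).imp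
          (def_hasCard 1 0))))))

theorem def_cofMap (i j k : ℕ) : FDef fun (M : Type v) E w => CofMap E (w i) (w j) (w k) :=
  (notn_tot i j k).and ((notn_fun i j).and
    (FDef.all (P := fun _ E w => E (w 0) (w (k + 1)) →
        ∃ x y, E x (w (j + 1)) ∧ App E (w (i + 1)) x y ∧ (E (w 0) y ∨ w 0 = y))
      ((FDef.mem 0 (k + 1)).imp
        (FDef.ex (P := fun _ E w => ∃ y, E (w 0) (w (j + 2)) ∧ App E (w (i + 2)) (w 0) y ∧
            (E (w 1) y ∨ w 1 = y))
          (FDef.ex (P := fun _ E w => E (w 1) (w (j + 3)) ∧ App E (w (i + 3)) (w 1) (w 0) ∧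
              (E (w 2) (w 0) ∨ w 2 = w 0))
            ((FDef.mem 1 (j + 3)).and ((def_app (i + 3) 1 0).and
              ((FDef.mem 2 0).or (FDef.eq 2 0)))))))))

theorem def_isOmega (i : ℕ) : FDef fun (M : Type v) E w => IsOmega E (w i) :=
  (def_infCard i).and
    (FDef.all (P := fun _ E w => E (w 0) (w (i + 1)) → ¬ InfCard E (w 0))
      ((FDef.mem 0 (i + 1)).imp (def_infCard 0).not))

theorem def_isSingUnc (i : ℕ) : FDef fun (M : Type v) E w => IsSingUnc E (w i) :=
  (def_infCard i).and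
    ((FDef.ex (P := fun _ E w => ∃ f, E (w 0) (w (i + 1)) ∧ CofMap E f (w 0) (w (i + 1)))
      (FDef.ex (P := fun _ E w => E (w 1) (w (i + 2)) ∧ CofMap E (w 0) (w 1) (w (i + 2)))
        ((FDef.mem 1 (i + 2)).and (def_cofMap 0 1 (i + 2))))).and
      (FDef.all (P := fun _ E w => ∀ f, IsOmega E (w 0) → ¬ CofMap E f (w 0) (w (i + 1)))
        (FDef.all (P := fun _ E w => IsOmega E (w 1) → ¬ CofMap E (w 0) (w 1) (w (i + 2)))
          ((def_isOmega 1).imp (def_cofMap 0 1 (i + 2)).not))))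

theorem def_inH (i j : ℕ) : FDef fun (M : Type v) E w => InH E (w i) (w j) :=
  FDef.ex (P := fun _ E w => IsTrans E (w 0) ∧ (∀ y, E y (w (j + 1)) → E y (w 0)) ∧
      ∃ g, InjOn E g (fun y => E y (w 0)) (fun y => E y (w (i + 1))))
    ((def_isTrans 0).and
      ((FDef.all (P := fun _ E w => E (w 0) (w (j + 2)) → E (w 0) (w 1))
        ((FDef.mem 0 (j + 2)).imp (FDef.mem 0 1))).and
        (FDef.ex (P := fun _ E w => InjOn E (w 0) (fun y => E y (w 1)) (fun y => E y (w (i + 2))))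
          (def_injOn 0 1 (i + 2)))))

end PK
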