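import Pool.Agent.H92.PK.VCard

/-!
# VCOF: cofinality in `V = ZFSet`, elements of `H(λ⁺)`
-/

set_option autoImplicit false

universe u v

open Cardinal Order

namespace PK

open BV

/-- a cofinal function in `V` bounds the cofinality -/
theorem vcof_le {δ β : Ordinal.{u}} {f : ZFSet.{u}}
    (h : CofMap VE f β.toZFSet δ.toZFSet) : δ.cof ≤ β.card := by
  obtain ⟨h1, h2, h3⟩ := h
  have hex : ∀ a : Set.Iio β, ∃ b : Set.Iio δ, App VE f a.1.toZFSet b.1.toZFSet := by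
    rintro ⟨a, ha⟩
    obtain ⟨y, hy, hy'⟩ := h1 a.toZFSet (Ordinal.toZFSet_mem_toZFSet_iff.2 ha)
    obtain ⟨b, hb, rfl⟩ := Ordinal.mem_toZFSet_iff.1 hy
    exact ⟨⟨b, hb⟩, hy'⟩
  choose F hF using hex
  have hcof : IsCofinal (Set.range F) := by
    rintro ⟨c, hc⟩
    obtain ⟨x, y, hx, hxy, hz⟩ := h3 c.toZFSet (Ordinal.toZFSet_mem_toZFSet_iff.2 hc)
    obtain ⟨a, ha, rfl⟩ := Ordinal.mem_toZFSet_iff.1 hx
    have hy : y = (F ⟨a, ha⟩).1.toZFSet := h2 _ _ _ hx hxy (hF ⟨a, ha⟩)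
    subst hy
    refine ⟨F ⟨a, ha⟩, ⟨_, rfl⟩, ?_⟩
    show c ≤ (F ⟨a, ha⟩).1
    rcases hz with hz | hz
    · exact le_of_lt (Ordinal.toZFSet_mem_toZFSet_iff.1 hz)
    · exact le_of_eq (Ordinal.toZFSet_injective hz)
  have h4 := Order.cof_le hcof
  have h5 : #(Set.range F) ≤ #(Set.Iio β) := Cardinal.mk_range_le
  have h6 := h4.trans h5
  rw [Ordinal.cof_Iio, ← Ordinal.lift_cof, Cardinal.mk_Iio_ordinal] at h6
  exact Cardinal.lift_le.1 h6

/-- cofinal functions in `V` -/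
theorem cofMap_V {δ : Ordinal.{u}} (hδ : IsSuccLimit δ) (β : Ordinal.{u}) :
    (∃ f, CofMap VE f β.toZFSet δ.toZFSet) ↔ δ.cof ≤ β.card := by
  constructor
  · rintro ⟨f, hf⟩
    exact vcof_le hf
  · intro h
    obtain ⟨s, hs, hs'⟩ := Order.exists_cof_eq (α := Set.Iio δ)
    have h1 : #s ≤ #(Set.Iio β) := by
      rw [hs', Ordinal.cof_Iio, ← Ordinal.lift_cof, Cardinal.mk_Iio_ordinal]
      exact Cardinal.lift_le.2 h
    have hpos : (0 : Ordinal.{u}) < δ := by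
      rcases eq_or_ne δ 0 with h0 | h0
      · subst h0
        exact absurd hδ.1 (by simp)
      · exact pos_iff_ne_zero.2 h0
    have hne : Nonempty s := by
      obtain ⟨b, hb, -⟩ := hs ⟨0, hpos⟩
      exact ⟨⟨b, hb⟩⟩
    obtain ⟨⟨g, hg⟩⟩ := h1
    obtain ⟨G, hG⟩ : ∃ G : Set.Iio β → s, Function.Surjective G :=
      ⟨Function.invFun g, Function.invFun_surjective hg⟩
    set f : ZFSet.{u} := ZFSet.range
      (fun a : Set.Iio β => ZFSet.pair a.1.toZFSet (G a).1.1.toZFSet) with hf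
    have hmem : ∀ x y, App VE f x y ↔
        ∃ a : Set.Iio β, a.1.toZFSet = x ∧ (G a).1.1.toZFSet = y := by
      intro x y
      rw [app_V, hf, ZFSet.mem_range]
      constructor
      · rintro ⟨a, ha⟩
        exact ⟨a, ZFSet.pair_inj.1 ha⟩
      · rintro ⟨a, ha⟩
        exact ⟨a, ZFSet.pair_inj.2 ha⟩
    refine ⟨f, ?_, ?_, ?_⟩
    · intro x hx
      obtain ⟨a, ha, rfl⟩ := Ordinal.mem_toZFSet_iff.1 hx
      exact ⟨(G ⟨a, ha⟩).1.1.toZFSet, Ordinal.toZFSet_mem_toZFSet_iff.2 (G ⟨a, ha⟩).1.2,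
        (hmem _ _).2 ⟨⟨a, ha⟩, rfl, rfl⟩⟩
    · intro x y y' _ h1 h2
      obtain ⟨a, rfl, rfl⟩ := (hmem _ _).1 h1
      obtain ⟨a', ha', rfl⟩ := (hmem _ _).1 h2
      have : a' = a := Subtype.ext (Ordinal.toZFSet_injective ha')
      rw [this]
    · intro z hz
      obtain ⟨c, hc, rfl⟩ := Ordinal.mem_toZFSet_iff.1 hz
      obtain ⟨b, hb, hcb⟩ := hs ⟨c, hc⟩
      obtain ⟨a, ha⟩ := hG ⟨b, hb⟩
      refine ⟨a.1.toZFSet, b.1.toZFSet, Ordinal.toZFSet_mem_toZFSet_iff.2 a.2,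
        (hmem _ _).2 ⟨a, rfl, by rw [ha]⟩, ?_⟩
      have hcb' : c ≤ b.1 := hcb
      rcases hcb'.lt_or_eq with h | h
      · exact Or.inl (Ordinal.toZFSet_mem_toZFSet_iff.2 h)
      · exact Or.inr (by rw [h])

theorem isSingUnc_V {lam : Cardinal.{u}} (h1 : ℵ₀ < lam.ord.cof) (h2 : lam.ord.cof < lam) :
    IsSingUnc VE lam.ord.toZFSet := by
  have hinf : ℵ₀ ≤ lam := (h1.trans h2).le
  refine ⟨(infCard_V _).2 ⟨lam, hinf, rfl⟩, ?_, ?_⟩
  · obtain ⟨f, hf⟩ := (cofMap_V (isSuccLimit_ord hinf) lam.ord.cof.ord).2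
      (by rw [Cardinal.card_ord])
    exact ⟨_, f, Ordinal.toZFSet_mem_toZFSet_iff.2 (Cardinal.ord_lt_ord.2 h2), hf⟩
  · intro w f hw hf
    rw [isOmega_V] at hw
    subst hw
    have := vcof_le hf
    rw [Ordinal.card_omega0] at this
    exact absurd h1 (not_lt.2 this)

/-- elements of `H(λ⁺)` -/
theorem inH_V {lam : Cardinal.{u}} {x t : ZFSet.{u}} (ht : t.IsTransitive) (hx : x ⊆ t)
    (hc : t.card ≤ lam) : InH VE lam.ord.toZFSet x := by
  refine ⟨t, fun y hy z hz => ht y hy hz, fun y hy => hx hy, ?_⟩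
  exact (injOn_V t lam.ord.toZFSet).2 (by rw [Ordinal.card_toZFSet, Cardinal.card_ord]; exact hc)

end PK
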