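import Pool.Agent.H92.PK.Elem
import Pool.Agent.H92.PK.Notn
import Pool.Agent.H92.PK.VCof

/-!
# PRES: preservation of cardinals from bounds for the values of functions
-/

set_option autoImplicit false

universe u v

open Cardinal Order

namespace PK

open BV

/-- In `V^B` no (partial) function from an ordinal `β` with `|β| < χ` to `χ` has unbounded range:
`R ξ α` is the Boolean value of `f(ξ) = α`. -/
def Cov (B : Type u) [CompleteBooleanAlgebra B] (χ : Cardinal.{u}) : Prop :=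
  ∀ β : Ordinal.{u}, β.card < χ → ∀ R : Ordinal.{u} → Ordinal.{u} → B,
    (∀ ξ α α', α ≠ α' → R ξ α ⊓ R ξ α' = ⊥) → ∀ b : B, b ≠ ⊥ →
    ∃ b' ≤ b, b' ≠ ⊥ ∧ ∃ γ < χ.ord, ∀ ξ < β, ∀ α, γ ≤ α → α < χ.ord → b' ⊓ R ξ α = ⊥

variable {B : Type u} [CompleteBooleanAlgebra B]

theorem pres_restrict (U : UF B) {α β : Ordinal.{u}} (h : α ≤ β) {f : MU U} {Y : MU U → Prop}
    (hf : InjOn (MU.E U) f (fun x => MU.E U x (ck U β)) Y) :
    InjOn (MU.E U) f (fun x => MU.E U x (ck U α)) Y := by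
  have hs : ∀ x, MU.E U x (ck U α) → MU.E U x (ck U β) := by
    intro x hx
    refine ball_ck (f := fun z => bmem z (chk B β)) (P := fun U z => MU.E U z (ck U β))
      (fun U x => Iff.rfl) α ?_ U x hx
    intro W γ hγ
    exact (E_ck W β γ).2 (hγ.trans_le h)
  exact ⟨fun x hx => hf.1 x (hs x hx), fun x y y' hx => hf.2.1 x y y' (hs x hx),
    fun x x' y hx hx' => hf.2.2 x x' y (hs x hx) (hs x' hx')⟩

/-- the elements of a finite check ordinal -/
theorem pres_fin (U : UF B) (n : ℕ) (x : MU U) (hx : MU.E U x (ck U (n : Ordinal.{u}))) :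
    ∃ k < n, x = ck U (k : Ordinal.{u}) := by
  obtain ⟨x, rfl⟩ := MU.mk_surj U x
  have h1 : bmem x (chk B (n : Ordinal.{u})) ∈ U := hx
  rw [bmem_chk] at h1
  have h2 : (⨆ β : Set.Iio (n : Ordinal.{u}), beq x (chk B β)) ≤
      ⨆ k ∈ Finset.range n, beq x (chk B (k : Ordinal.{u})) := by
    refine iSup_le fun β => ?_
    obtain ⟨β, hβ⟩ := β
    have h3 : β < Ordinal.omega0 := lt_of_lt_of_le hβ (Ordinal.natCast_lt_omega0 n).le
    obtain ⟨k, rfl⟩ := Ordinal.lt_omega0.1 h3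
    have hβ' : (k : Ordinal.{u}) < (n : Ordinal.{u}) := hβ
    have hk : k < n := by exact_mod_cast hβ'
    exact le_iSup₂ (f := fun (k : ℕ) (_ : k ∈ Finset.range n) => beq x (chk B (k : Ordinal.{u})))
      k (Finset.mem_range.2 hk)
  obtain ⟨k, hk, hk2⟩ := U.exists_of_biSup_mem (Finset.range n) (U.mem_of_le h1 h2)
  exact ⟨k, Finset.mem_range.1 hk, (MU.mk_eq_iff U _ _).2 hk2⟩

/-- no injection from an infinite cardinal into a finite ordinal (ultrafilters contain one of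
finitely many elements with supremum in the ultrafilter) -/
theorem no_inj_finite (U : UF B) (c : Cardinal.{u}) (hc : ℵ₀ ≤ c) (n : ℕ) (f : MU U) :
    ¬ InjOn (MU.E U) f (fun x => MU.E U x (ck U c.ord))
      (fun x => MU.E U x (ck U (n : Ordinal.{u}))) := by
  intro hf
  have hω : Ordinal.omega0.{u} ≤ c.ord := by
    rw [← Cardinal.ord_aleph0]
    exact Cardinal.ord_le_ord.2 hc
  have hX : ∀ i : Fin (n + 1), MU.E U (ck U ((i : ℕ) : Ordinal.{u})) (ck U c.ord) := fun i =>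
    (E_ck U _ _).2 ((Ordinal.natCast_lt_omega0 _).trans_le hω)
  have h1 : ∀ i : Fin (n + 1), ∃ k : Fin n,
      App (MU.E U) f (ck U ((i : ℕ) : Ordinal.{u})) (ck U ((k : ℕ) : Ordinal.{u})) := by
    intro i
    obtain ⟨y, hy, hy2⟩ := hf.1 _ (hX i)
    obtain ⟨k, hk, rfl⟩ := pres_fin U n y hy
    exact ⟨⟨k, hk⟩, hy2⟩
  choose g hg using h1
  obtain ⟨i, j, hij, hgij⟩ := Fintype.exists_ne_map_eq_of_card_lt g (by simp)
  have h2 := hf.2.2 _ _ _ (hX i) (hX j) (hg i) (by rw [hgij]; exact hg j)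
  have h3 : ((i : ℕ) : Ordinal.{u}) = ((j : ℕ) : Ordinal.{u}) := ck_inj U h2
  exact hij (Fin.ext (by exact_mod_cast h3))

open Classical in
/-- no injection from `c⁺` into `β` if `|β| ≤ c`: take `b` the value of `f` being an injection,
`R ξ α = ⟦f(α) = ξ⟧ ⊓ b` -/
theorem no_inj_succ (hcov : ∀ c : Cardinal.{u}, ℵ₀ ≤ c → Cov B (succ c)) (U : UF B)
    {c : Cardinal.{u}} (hc : ℵ₀ ≤ c) {β : Ordinal.{u}} (hβ : β.card ≤ c) (f : MU U) :
    ¬ InjOn (MU.E U) f (fun x => MU.E U x (ck U (succ c).ord)) (fun x => MU.E U x (ck U β)) := by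
  intro hf
  obtain ⟨F, rfl⟩ := MU.mk_surj U f
  set X : BSet B → B := fun x => bmem x (chk B (succ c).ord) with hXdef
  set Y : BSet B → B := fun x => bmem x (chk B β) with hYdef
  have hlos : ∀ V : UF B, bInjOn F X Y ∈ V ↔
      InjOn (MU.E V) (MU.mk V F) (fun x => MU.E V x (ck V (succ c).ord))
        (fun x => MU.E V x (ck V β)) := fun V =>
    los_injOn (X := X) (Y := Y) (X' := fun V x => MU.E V x (ck V (succ c).ord))
      (Y' := fun V x => MU.E V x (ck V β)) (fun U x => Iff.rfl) (fun U x => Iff.rfl) V F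
  set b : B := bInjOn F X Y with hb
  have hbU : b ∈ U := (hlos U).2 hf
  have hb0 : b ≠ ⊥ := UF.ne_bot_of_mem U hbU
  set R : Ordinal.{u} → Ordinal.{u} → B := fun ξ α =>
    if α < (succ c).ord then bmem (opr (chk B α) (chk B ξ)) F ⊓ b else ⊥ with hR
  have hdis : ∀ ξ α α', α ≠ α' → R ξ α ⊓ R ξ α' = ⊥ := by
    intro ξ α α' hne
    simp only [hR]
    by_cases h1 : α < (succ c).ord
    · by_cases h2 : α' < (succ c).ord
      · rw [if_pos h1, if_pos h2]
        refine UF.eq_bot_of_forall fun V hV => ?_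
        rw [UF.inf_mem_iff, UF.inf_mem_iff, UF.inf_mem_iff, los_app, los_app, hlos V] at hV
        have h3 := hV.1.2.2.2 _ _ _ ((E_ck V _ _).2 h1) ((E_ck V _ _).2 h2) hV.1.1 hV.2.1
        exact hne (ck_inj V h3)
      · rw [if_neg h2, inf_bot_eq]
    · rw [if_neg h1, bot_inf_eq]
  obtain ⟨b', hb', hb'0, γ, hγ, hγ2⟩ := hcov c hc β (lt_of_le_of_lt hβ (lt_succ c)) R hdis b hb0
  apply hb'0
  have h1 : b' ≤ ⨆ ξ : Set.Iio β, bmem (opr (chk B γ) (chk B ξ)) F := by
    rw [← chk_bex β (card_ext_app F (chk B γ))]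
    refine UF.le_of_forall fun V hV => ?_
    have hV2 := (hlos V).1 (V.mem_of_le hV hb')
    obtain ⟨y, hy, hy2⟩ := hV2.1 (ck V γ) ((E_ck V _ _).2 hγ)
    refine (card_iSup (P := fun V y => MU.E V y (ck V β) ∧ App (MU.E V) (MU.mk V F) (ck V γ) y)
      (fun V y => ?_) V).2 ⟨y, hy, hy2⟩
    rw [UF.inf_mem_iff, los_app]
    exact Iff.rfl
  have h2 : b' = b' ⊓ ⨆ ξ : Set.Iio β, bmem (opr (chk B γ) (chk B ξ)) F :=
    (inf_eq_left.2 h1).symm
  rw [h2, inf_iSup_eq]
  refine iSup_eq_bot.2 fun ξ => ?_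
  have h3 := hγ2 ξ.1 ξ.2 γ le_rfl hγ
  simp only [hR, if_pos hγ] at h3
  rw [← h3]
  apply le_antisymm
  · exact le_inf inf_le_left (le_inf inf_le_right (inf_le_left.trans hb'))
  · exact le_inf inf_le_left (inf_le_right.trans inf_le_left)

theorem infCard_ck (hcov : ∀ c : Cardinal.{u}, ℵ₀ ≤ c → Cov B (succ c)) (U : UF B)
    {c : Cardinal.{u}} (hc : ℵ₀ ≤ c) : InfCard (MU.E U) (ck U c.ord) := by
  have hω : Ordinal.omega0.{u} ≤ c.ord := by
    rw [← Cardinal.ord_aleph0]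
    exact Cardinal.ord_le_ord.2 hc
  have hlim : IsSuccLimit c.ord := Cardinal.isSuccLimit_ord hc
  refine ⟨isOrd_ck U c.ord, ⟨ck U 0, (E_ck U _ _).2 (Ordinal.omega0_pos.trans_le hω)⟩, ?_, ?_⟩
  · intro β hβ
    refine ball_ck (f := fun x => ⨆ γ, bmem γ (chk B c.ord) ⊓ bmem x γ)
      (P := fun U β => ∃ γ, MU.E U γ (ck U c.ord) ∧ MU.E U β γ) (fun V x => ?_) c.ord ?_ U β hβ
    · refine card_iSup (P := fun V γ => MU.E V γ (ck V c.ord) ∧ MU.E V (MU.mk V x) γ)
        (fun V γ => ?_) V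
      rw [UF.inf_mem_iff]
      exact Iff.rfl
    · intro V α hα
      exact ⟨ck V (succ α), (E_ck V _ _).2 (hlim.succ_lt hα), (E_ck V _ _).2 (lt_succ α)⟩
  · intro β hβ
    refine ball_ck (f := fun x => ⨅ f, (bInjOn f (fun z => bmem z (chk B c.ord))
      (fun z => bmem z x))ᶜ)
      (P := fun U β => ∀ f, ¬ InjOn (MU.E U) f (fun z => MU.E U z (ck U c.ord))
        (fun z => MU.E U z β)) (fun V x => ?_) c.ord ?_ U β hβ
    · refine card_iInf (P := fun V f => ¬ InjOn (MU.E V) f (fun z => MU.E V z (ck V c.ord))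
        (fun z => MU.E V z (MU.mk V x))) (fun V f => ?_) V
      rw [UF.compl_mem_iff]
      refine not_congr ?_
      exact los_injOn (X' := fun V z => MU.E V z (ck V c.ord))
        (Y' := fun V z => MU.E V z (MU.mk V x)) (fun U x => Iff.rfl) (fun U x => Iff.rfl) V f
    · intro V α hα f hf
      rcases lt_or_ge α Ordinal.omega0 with h1 | h1
      · obtain ⟨n, rfl⟩ := Ordinal.lt_omega0.1 h1
        exact no_inj_finite V c hc n f hf
      · have h2 : ℵ₀ ≤ α.card := by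
          rw [← Ordinal.card_omega0]
          exact Ordinal.card_le_card h1
        have h3 : succ α.card ≤ c := succ_le_of_lt (Cardinal.lt_ord.1 hα)
        exact no_inj_succ hcov V h2 (β := α) le_rfl f
          (pres_restrict V (Cardinal.ord_le_ord.2 h3) hf)

/-- cardinals of the ground model are cardinals: by `ball_WV` for the property
`∀ h : W x, InfCard (Res E W) ⟨x, h⟩ → InfCard E x` (`FDef2.rel1`, `def_infCard`), `elem` and
`infCard_V` -/
theorem card_pres (hcov : ∀ c : Cardinal.{u}, ℵ₀ ≤ c → Cov B (succ c)) (U : UF B)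
    (m : MU U) (hm : WV U m) (h : InfCard (Res (MU.E U) (WV U)) ⟨m, hm⟩) :
    InfCard (MU.E U) m := by
  have hdef : FDef2 fun (M : Type (u + 1)) E W w =>
      (∃ h : W (w 0), InfCard (Res E W) ⟨w 0, h⟩) → InfCard E (w 0) :=
    FDef2.imp (FDef2.rel1 (def_infCard 0)) (FDef2.ofDef (def_infCard 0))
  have h1 := ball_WV hdef (fun _ => chk B 0) ?_ U m hm
  · exact h1 ⟨hm, h⟩
  · rintro V y ⟨h2, h3⟩
    have h4 : InfCard (Res (MU.E V) (WV V)) (jV V y) := h3
    have h5 : InfCard VE y := (elem V (def_infCard 0) (fun _ => y)).1 h4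
    obtain ⟨c, hc, rfl⟩ := (infCard_V y).1 h5
    show InfCard (MU.E V) (jV V c.ord.toZFSet).1
    rw [jV_ck]
    exact infCard_ck hcov V hc

theorem pres_not_infCard_fin (U : UF B) (n : ℕ) :
    ¬ InfCard (MU.E U) (ck U (n : Ordinal.{u})) := by
  intro h
  cases n with
  | zero =>
    obtain ⟨β, hβ⟩ := h.2.1
    obtain ⟨k, hk, _⟩ := pres_fin U 0 β hβ
    exact absurd hk (Nat.not_lt_zero k)
  | succ n =>
    obtain ⟨γ, hγ, hγ2⟩ := h.2.2.1 (ck U (n : Ordinal.{u}))
      ((E_ck U _ _).2 (by exact_mod_cast Nat.lt_succ_self n))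
    obtain ⟨k, hk, rfl⟩ := pres_fin U (n + 1) γ hγ
    have h2 : (n : Ordinal.{u}) < (k : Ordinal.{u}) := (E_ck U _ _).1 hγ2
    have h3 : n < k := by exact_mod_cast h2
    omega

/-- `ω` is absolute -/
theorem isOmega_ck (hcov : ∀ c : Cardinal.{u}, ℵ₀ ≤ c → Cov B (succ c)) (U : UF B) :
    ∀ m, IsOmega (MU.E U) m ↔ m = ck U Ordinal.omega0 := by
  have hω : InfCard (MU.E U) (ck U Ordinal.omega0) := by
    have h := infCard_ck hcov U (c := ℵ₀) le_rfl
    rw [Cardinal.ord_aleph0] at h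
    exact h
  have hlow : ∀ x, MU.E U x (ck U Ordinal.omega0) → ¬ InfCard (MU.E U) x := by
    intro x hx
    refine ball_ck (f := fun x => (bInfCard x)ᶜ) (P := fun U x => ¬ InfCard (MU.E U) x)
      (fun V x => ?_) Ordinal.omega0 ?_ U x hx
    · rw [UF.compl_mem_iff, los_infCard]
    · intro V α hα
      obtain ⟨n, rfl⟩ := Ordinal.lt_omega0.1 hα
      exact pres_not_infCard_fin V n
  intro m
  constructor
  · rintro ⟨h1, h2⟩
    rcases MU.trichotomy U m (ck U Ordinal.omega0) h1.1 (isOrd_ck U _) with h | h | h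
    · exact absurd h1 (hlow m h)
    · exact h
    · exact absurd hω (h2 _ h)
  · rintro rfl
    exact ⟨hω, hlow⟩

end PK
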