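import Pool.Agent.H92.PK.Chs

/-!
# VZFC: `V = ZFSet` is a model of ZFC
-/

set_option autoImplicit false

universe u v

open Cardinal Order

namespace PK

open BV

/-- every small family of sets is the set of elements of a set -/
theorem exists_zf {I : Type u} (f : I → ZFSet.{u}) :
    ∃ x : ZFSet.{u}, ∀ y, y ∈ x ↔ ∃ i, y = f i := by
  refine ⟨ZFSet.range f, fun y => ?_⟩
  rw [ZFSet.mem_range]
  exact ⟨fun ⟨i, hi⟩ => ⟨i, hi.symm⟩, fun ⟨i, hi⟩ => ⟨i, hi.symm⟩⟩

/-- images of sets under arbitrary functions exist -/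
theorem vzfc_image (x : ZFSet.{u}) (f : ZFSet.{u} → ZFSet.{u}) :
    ∃ b : ZFSet.{u}, ∀ y, y ∈ b ↔ ∃ z, z ∈ x ∧ y = f z := by
  refine ⟨ZFSet.range (fun z : {z : ZFSet.{u} // z ∈ x} => f z.1), fun y => ?_⟩
  rw [ZFSet.mem_range]
  constructor
  · rintro ⟨z, hz⟩
    exact ⟨z.1, z.2, hz.symm⟩
  · rintro ⟨z, hz, hy⟩
    exact ⟨⟨z, hz⟩, hy.symm⟩

/-- replacement: the elements of `x` are `y.1`, `y : Shrink x`; use `exists_zf` -/
theorem isZFC_V : IsZFC VE.{u} where
  ext x y h := ZFSet.ext h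
  foundation x hx := by
    obtain ⟨y0, hy0⟩ := hx
    have hne : x ≠ ∅ := by
      rintro rfl
      exact ZFSet.notMem_empty _ hy0
    obtain ⟨y, hy, hxy⟩ := ZFSet.regularity x hne
    refine ⟨y, hy, fun z hz hzx => ?_⟩
    have : z ∈ x ∩ y := ZFSet.mem_inter.2 ⟨hzx, hz⟩
    rw [hxy] at this
    exact ZFSet.notMem_empty _ this
  pairing x y := ⟨{x, y}, fun z => ZFSet.mem_pair⟩
  union x := by
    refine ⟨ZFSet.sUnion x, fun z => ?_⟩
    exact ZFSet.mem_sUnion
  power x := ⟨ZFSet.powerset x, fun z => ZFSet.mem_powerset⟩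
  infinity := by
    refine ⟨ZFSet.omega, ⟨∅, ZFSet.omega_zero, fun z => ZFSet.notMem_empty z⟩, fun x hx => ?_⟩
    refine ⟨insert x x, ZFSet.omega_succ hx, fun z => ?_⟩
    show z ∈ insert x x ↔ _
    rw [ZFSet.mem_insert_iff]
    exact or_comm
  separation φ w a :=
    ⟨ZFSet.sep (fun x => Sat VE φ (Function.update w 0 x)) a, fun x => ZFSet.mem_sep⟩
  replacement φ w a h := by
    classical
    -- choose the value of the function where it exists, otherwise a fixed value
    by_cases hne : ∃ x0, x0 ∈ a ∧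
        ∃ y0, Sat VE φ (Function.update (Function.update w 0 x0) 1 y0)
    · obtain ⟨x0, hx0, y0, hy0⟩ := hne
      set F : ZFSet.{u} → ZFSet.{u} := fun x =>
        if hx : ∃ y, Sat VE φ (Function.update (Function.update w 0 x) 1 y) then hx.choose
        else y0 with hF
      obtain ⟨b, hb⟩ := vzfc_image a F
      refine ⟨b, fun y => (hb y).trans ?_⟩
      constructor
      · rintro ⟨z, hz, rfl⟩
        by_cases hex : ∃ y, Sat VE φ (Function.update (Function.update w 0 z) 1 y)
        · refine ⟨z, hz, ?_⟩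
          have : F z = hex.choose := by simp only [hF]; rw [dif_pos hex]
          rw [this]
          exact hex.choose_spec
        · refine ⟨x0, hx0, ?_⟩
          have : F z = y0 := by simp only [hF]; rw [dif_neg hex]
          rw [this]
          exact hy0
      · rintro ⟨x, hx, hy⟩
        refine ⟨x, hx, ?_⟩
        have hex : ∃ y, Sat VE φ (Function.update (Function.update w 0 x) 1 y) := ⟨y, hy⟩
        have : F x = hex.choose := by simp only [hF]; rw [dif_pos hex]
        rw [this]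
        exact h x hx _ _ hy hex.choose_spec
    · refine ⟨∅, fun y => ?_⟩
      constructor
      · intro hy
        exact absurd hy (ZFSet.notMem_empty _)
      · rintro ⟨x, hx, hy⟩
        exact absurd ⟨x, hx, y, hy⟩ hne
  choice x h1 h2 := by
    classical
    set F : ZFSet.{u} → ZFSet.{u} := fun y =>
      if hy : ∃ z, z ∈ y then hy.choose else ∅ with hF
    have hFy : ∀ y, y ∈ x → F y ∈ y := by
      intro y hy
      have hex : ∃ z, z ∈ y := h1 y hy
      have : F y = hex.choose := by simp only [hF]; rw [dif_pos hex]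
      rw [this]
      exact hex.choose_spec
    obtain ⟨c, hc⟩ := vzfc_image x F
    refine ⟨c, fun y hy => ⟨F y, ⟨(hc _).2 ⟨y, hy, rfl⟩, hFy y hy⟩, ?_⟩⟩
    rintro z' ⟨hz', hz'y⟩
    obtain ⟨y', hy', rfl⟩ := (hc _).1 hz'
    have : y = y' := h2 y y' hy hy' ⟨F y', hz'y, hFy y' hy'⟩
    rw [this]

/-- unordered pairs -/
theorem vzfc_isPair (p x y : ZFSet.{u}) : IsPair VE p x y ↔ p = {x, y} := by
  constructor
  · intro h
    exact ZFSet.ext fun z => (h z).trans ZFSet.mem_pair.symm
  · rintro rfl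
    exact fun z => ZFSet.mem_pair

/-- Kuratowski pairs are the pairs of `ZFSet` -/
theorem isOPair_V (p x y : ZFSet.{u}) : IsOPair VE p x y ↔ p = ZFSet.pair x y := by
  have hp : ZFSet.pair x y = {{x}, {x, y}} := rfl
  rw [hp]
  constructor
  · rintro ⟨a, b, ha, hb, hp⟩
    rw [vzfc_isPair] at ha hb hp
    rw [ZFSet.pair_eq_singleton] at ha
    rw [hp, ha, hb]
  · rintro rfl
    refine ⟨{x}, {x, y}, ?_, ?_, ?_⟩
    · rw [vzfc_isPair, ZFSet.pair_eq_singleton]
    · rw [vzfc_isPair]
    · rw [vzfc_isPair]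

theorem app_V (f x y : ZFSet.{u}) : App VE f x y ↔ ZFSet.pair x y ∈ f := by
  constructor
  · rintro ⟨p, hp, hpf⟩
    rw [isOPair_V] at hp
    rw [← hp]
    exact hpf
  · intro h
    exact ⟨_, (isOPair_V _ _ _).2 rfl, h⟩

end PK
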