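import Pool.Agent.H92.PK.Pres

/-!
# FRC: the abstract properties of the forcing which are used for the theorem
-/

set_option autoImplicit false

universe u v

open Cardinal Order

namespace PK

open BV

variable {B : Type u} [CompleteBooleanAlgebra B]

/-- the name of the subset of `λ` with Boolean values `a` -/
noncomputable def nameA {lam : Cardinal.{u}} (a : lam.ord.ToType → B) : BSet B :=
  BSet.mk lam.ord.ToType (fun i => chk B (i.toOrd : Ordinal)) a

/-- the name of a real with Boolean values `r` -/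
noncomputable def nameR (r : ℕ → B) : BSet B :=
  BSet.mk (ULift.{u} ℕ) (fun k => chk B (k.down : Ordinal.{u})) (fun k => r k.down)

/-- the Boolean value of `∃ z ∈ D, z ⊆ A` -/
noncomputable def bD {L : Type u} (a : L → B) (D : Set (Set L)) : B := ⨆ z ∈ D, ⨅ η ∈ z, a η

/-- the name of the set of all reals `{k : ∃ z ∈ D i k, z ⊆ A}`, `i ∈ I` -/
noncomputable def nameRs {L I : Type u} (a : L → B) (D : I → ℕ → Set (Set L)) : BSet B :=
  BSet.mk I (fun i => nameR fun k => bD a (D i k)) (fun _ => ⊤)

/-- A complete Boolean algebra which adds a set `A ⊆ λ` such that `V[A]` is the whole extension,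
cardinals are preserved, and the set of the reals `r_i = {k : ∃ z ∈ D i k, z ⊆ A}`, `i ∈ I`, has
more than `λ` elements. -/
structure Frc (lam : Cardinal.{u}) (B : Type u) [CompleteBooleanAlgebra B] where
  /-- the Boolean value of `η ∈ A` -/
  a : lam.ord.ToType → B
  /-- index set of the reals -/
  I : Type u
  /-- the real `r_i` is `{k : ∃ z ∈ D i k, z ⊆ A}` -/
  D : I → ℕ → Set (Set lam.ord.ToType)
  cardD : ∀ i k, #(D i k) ≤ lam
  cov : ∀ c : Cardinal.{u}, ℵ₀ ≤ c → Cov B (succ c)
  gen : ∀ b : B, ∃ S : Set (Set (Set (Set lam.ord.ToType))),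
    b = ⨆ w ∈ S, ⨅ v ∈ w, ⨆ z ∈ v, ⨅ η ∈ z, a η
  more : ∀ (U : UF B) (f : MU U), ¬ InjOn (MU.E U) f
    (fun x => MU.E U x (MU.mk U (nameRs a D))) (fun y => MU.E U y (ck U lam.ord))

end PK
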