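import Mathlib

/-!
# EVD: eventually different functions, a singular cardinal of given cofinality
-/

set_option autoImplicit false

universe u v

open Cardinal Order

namespace PK

private theorem evd_mk_Iio {c : Cardinal.{u}} (i : c.ord.ToType) : #(Set.Iio i) < c := by
  have h := mk_Iio_lt i (by rw [mk_ord_toType, Ordinal.type_toType])
  rwa [mk_ord_toType] at h

/-- the avoidance step of the recursion in `exists_evd` -/
private theorem evd_avoid {lam : Cardinal.{u}} {I : Type u} (g : I → lam.ord.ToType)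
    (hg : Function.Injective g) (t : lam.ord.ToType) (v : I → lam.ord.ToType) :
    ∃ a, ∀ j, g j < t → a ≠ v j := by
  by_contra hcon
  push Not at hcon
  have hsub : (Set.univ : Set lam.ord.ToType) ⊆ v '' (g ⁻¹' Set.Iio t) := by
    intro a _
    obtain ⟨j, hj, hav⟩ := hcon a
    exact ⟨j, hj, hav.symm⟩
  have h1 : Cardinal.mk lam.ord.ToType ≤ #(g ⁻¹' Set.Iio t : Set I) := by
    rw [← mk_univ]
    exact (mk_le_mk_of_subset hsub).trans mk_image_le
  have h2 : #(g ⁻¹' Set.Iio t : Set I) ≤ #(Set.Iio t) :=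
    mk_preimage_of_injective g _ hg
  have h3 : #(Set.Iio t) < lam := evd_mk_Iio t
  rw [mk_ord_toType] at h1
  exact absurd (h1.trans h2) (not_le.2 h3)

/-- Let `cof λ = κ`. There are `λ⁺` functions from `κ` to `λ` which are pairwise eventually
different: let `λ = sup {l ξ : ξ < κ}`; by recursion on `i < λ⁺`, if `j ↦ e j` maps `λ` onto the
predecessors of `i` (or `i` has none), choose `H i ξ` different from all `H (e j) ξ`, `j < l ξ`. -/
theorem exists_evd {lam κ : Cardinal.{u}} (h0 : ℵ₀ ≤ κ) (h : lam.ord.cof = κ) (h1 : κ < lam) :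
    ∃ H : (succ lam).ord.ToType → κ.ord.ToType → lam.ord.ToType,
      ∀ i j, i ≠ j → ∃ β, ∀ ξ, β ≤ ξ → H i ξ ≠ H j ξ := by
  classical
  have hlam : ℵ₀ ≤ lam := h0.trans h1.le
  -- the cofinal sequence
  obtain ⟨s, hs, hs'⟩ := Ordinal.exists_ord_cof_eq lam.ord.ToType
  rw [Ordinal.cof_toType, h] at hs'
  have hiso : Nonempty (κ.ord.ToType ≃o s) := by
    rw [← Ordinal.type_toType κ.ord] at hs'
    obtain ⟨e⟩ := Ordinal.type_eq.1 hs'.symm
    exact ⟨OrderIso.ofRelIsoLT e⟩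
  obtain ⟨e⟩ := hiso
  set l : κ.ord.ToType → lam.ord.ToType := fun ξ => (e ξ : lam.ord.ToType) with hl
  have hmono : ∀ ξ η, ξ ≤ η → l ξ ≤ l η := fun ξ η hξ => e.monotone hξ
  have hnomax : NoMaxOrder lam.ord.ToType := Cardinal.noMaxOrder hlam
  have hcof : ∀ a : lam.ord.ToType, ∃ ξ, a < l ξ := by
    intro a
    obtain ⟨b, hab⟩ := exists_gt a
    obtain ⟨c, hcs, hbc⟩ := hs b
    refine ⟨e.symm ⟨c, hcs⟩, ?_⟩
    simp only [hl, OrderIso.apply_symm_apply]
    exact lt_of_lt_of_le hab hbc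
  -- the injections of the initial segments
  have hinj : ∀ i : (succ lam).ord.ToType, ∃ g : Set.Iio i → lam.ord.ToType,
      Function.Injective g := by
    intro i
    have h2 : #(Set.Iio i) < succ lam := evd_mk_Iio i
    have h3 : #(Set.Iio i) ≤ Cardinal.mk lam.ord.ToType := by
      rw [mk_ord_toType]
      exact lt_succ_iff.1 h2
    obtain ⟨g⟩ := h3
    exact ⟨g, g.injective⟩
  choose g hg using hinj
  -- the recursion
  let step : (i : (succ lam).ord.ToType) →
      ((j : (succ lam).ord.ToType) → j < i → (κ.ord.ToType → lam.ord.ToType)) →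
      (κ.ord.ToType → lam.ord.ToType) := fun i Hs ξ =>
    Classical.choose (evd_avoid (g i) (hg i) (l ξ) (fun j => Hs j.1 j.2 ξ))
  let H : (succ lam).ord.ToType → κ.ord.ToType → lam.ord.ToType := wellFounded_lt.fix step
  have hH : ∀ i ξ (j : Set.Iio i), g i j < l ξ → H i ξ ≠ H j ξ := by
    intro i ξ j hj
    have h2 : H i = step i (fun j _ => H j) := wellFounded_lt.fix_eq step i
    rw [h2]
    exact Classical.choose_spec (evd_avoid (g i) (hg i) (l ξ) (fun j => H j.1 ξ)) j hj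
  have key : ∀ i j, j < i → ∃ β, ∀ ξ, β ≤ ξ → H i ξ ≠ H j ξ := by
    intro i j hji
    obtain ⟨β, hβ⟩ := hcof (g i ⟨j, hji⟩)
    exact ⟨β, fun ξ hξ => hH i ξ ⟨j, hji⟩ (lt_of_lt_of_le hβ (hmono β ξ hξ))⟩
  refine ⟨H, fun i j hij => ?_⟩
  rcases lt_or_gt_of_ne hij with hlt | hgt
  · obtain ⟨β, hβ⟩ := key j i hlt
    exact ⟨β, fun ξ hξ => (hβ ξ hξ).symm⟩
  · exact key i j hgt

/-- `λ = ℵ_(κ + κ)` -/
theorem exists_cof_eq {κ : Cardinal.{u}} (h : κ.IsRegular) :
    ∃ lam : Cardinal.{u}, κ < lam ∧ lam.ord.cof = κ := by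
  have hlim : IsSuccLimit κ.ord := isSuccLimit_ord h.aleph0_le
  have hpos : (0 : Ordinal.{u}) < κ.ord := hlim.bot_lt
  have hlim2 : IsSuccLimit (κ.ord + κ.ord) :=
    (Ordinal.isNormal_add_right κ.ord).map_isSuccLimit hlim
  refine ⟨ℵ_ (κ.ord + κ.ord), ?_, ?_⟩
  · rw [← ord_lt_ord, ord_aleph]
    calc κ.ord < κ.ord + κ.ord := lt_add_of_pos_right _ hpos
      _ ≤ _ := Ordinal.le_omega_self _
  · rw [ord_aleph, Ordinal.cof_map_of_isNormal Ordinal.isNormal_omega hlim2,
      Ordinal.cof_add _ hpos.ne', h.cof_ord]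

end PK
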