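import Mathlib

/-!
# HOM: measures, homogeneous trees
-/

set_option autoImplicit false

universe u v

open Cardinal Order

namespace PK

/-- `V` is a nonprincipal `κ`-complete ultrafilter on `K` -/
structure IsMeas {K : Type u} (κ : Cardinal.{u}) (V : Ultrafilter K) : Prop where
  complete : ∀ (ι : Type u) (A : ι → Set K), #ι < κ → (∀ i, A i ∈ V) → (⋂ i, A i) ∈ V
  nonprincipal : ∀ x, {x} ∉ V

/-- `κ` is a measurable cardinal: it is uncountable and there is a nonprincipal `κ`-complete
ultrafilter on a set of cardinality `κ` -/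
def IsMeasurable (κ : Cardinal.{u}) : Prop :=
  ℵ₀ < κ ∧ ∃ V : Ultrafilter κ.ord.ToType, IsMeas κ V

variable {K : Type u} {κ : Cardinal.{u}} {V : Ultrafilter K}

/-- functions with few values are constant on a large set -/
theorem IsMeas.const (hV : IsMeas κ V) {Y : Type u} (hY : #Y < κ) (F : K → Y) :
    ∃ y, {x | F x = y} ∈ V := by
  by_contra h
  push Not at h
  have h1 := hV.complete Y (fun y => {x | F x = y}ᶜ) hY
    fun y => Ultrafilter.compl_mem_iff_notMem.2 (h y)
  have h2 : (⋂ y, {x | F x = y}ᶜ) = (∅ : Set K) := by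
    apply Set.eq_empty_of_forall_notMem
    intro x hx
    exact Set.mem_iInter.1 hx (F x) rfl
  rw [h2] at h1
  exact V.empty_notMem h1

theorem IsMeas.small (hV : IsMeas κ V) (S : Set K) (hS : #S < κ) : Sᶜ ∈ V := by
  have h1 := hV.complete S (fun x => {(x : K)}ᶜ) hS
    fun x => Ultrafilter.compl_mem_iff_notMem.2 (hV.nonprincipal x)
  refine V.mem_of_superset h1 ?_
  intro x hx hxS
  exact Set.mem_iInter.1 hx ⟨x, hxS⟩ rfl

/-- if `κ ≤ 2 ^ c` take an injection from `K` to `c → Bool` and apply `const` for every coordinate -/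
theorem IsMeas.two_power_lt (hV : IsMeas κ V) (hK : #K = κ) {c : Cardinal.{u}} (hc : c < κ) :
    2 ^ c < κ := by
  by_contra h
  push Not at h
  have h1 : #K ≤ #(c.out → ULift.{u} Bool) := by
    rw [hK, ← power_def, mk_out]
    simpa using h
  obtain ⟨g⟩ := h1
  have h2 : ∀ i : c.out, ∃ b : ULift.{u} Bool, {x | g x i = b} ∈ V := by
    intro i
    by_cases h3 : {x | g x i = ⟨true⟩} ∈ V
    · exact ⟨_, h3⟩
    · refine ⟨⟨false⟩, V.mem_of_superset (Ultrafilter.compl_mem_iff_notMem.2 h3) ?_⟩
      intro x hx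
      have hx' : ¬ (g x i = ⟨true⟩) := hx
      show g x i = ⟨false⟩
      rcases hg : g x i with ⟨b⟩
      cases b
      · rfl
      · exact absurd hg hx'
  choose b hb using h2
  have h3 := hV.complete c.out (fun i => {x | g x i = b i}) (by rwa [mk_out]) hb
  have h4 : (⋂ i, {x | g x i = b i}) = {x | g x = b} := by
    ext x
    simp only [Set.mem_iInter, Set.mem_ofPred_eq]
    constructor
    · intro h
      exact funext h
    · intro h i
      rw [h]
  rw [h4] at h3
  obtain ⟨x0, hx0⟩ := V.nonempty_of_mem h3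
  apply hV.nonprincipal x0
  refine V.mem_of_superset h3 ?_
  intro x hx
  exact g.injective (hx.trans hx0.symm)

theorem IsMeas.isRegular (hV : IsMeas κ V) (hK : #K = κ) (h0 : ℵ₀ ≤ κ) : κ.IsRegular := by
  refine ⟨h0, ?_⟩
  by_contra h
  push Not at h
  have h1 : #K = #κ.ord.ToType := by rw [hK, mk_toType, card_ord]
  obtain ⟨e⟩ := Cardinal.eq.1 h1
  obtain ⟨S, hS, hSc⟩ := Order.exists_cof_eq (α := κ.ord.ToType)
  have h2 : #S < κ := by
    rw [hSc]
    rwa [Ordinal.cof_toType] at *
  have hsucc : Order.IsSuccLimit κ.ord := Cardinal.isSuccLimit_ord h0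
  have h3 := hV.complete S (fun s => {x | e x ≤ s}ᶜ) h2 (by
    intro s
    apply hV.small
    have h4 : #({x | e x ≤ (s : κ.ord.ToType)} : Set K) = #(Set.Iic (s : κ.ord.ToType)) := by
      apply Cardinal.mk_congr
      exact ⟨fun x => ⟨e x, x.2⟩, fun y => ⟨e.symm y, by
        show e (e.symm y) ≤ s
        rw [Equiv.apply_symm_apply]
        exact y.2⟩, fun x => by simp, fun y => by simp⟩
    rw [h4]
    have h5 : (Set.Iic (s : κ.ord.ToType)) = insert (s : κ.ord.ToType) (Set.Iio (s : κ.ord.ToType)) := by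
      rw [Set.Iio_insert]
    rw [h5]
    exact lt_of_le_of_lt mk_insert_le
      (add_lt_of_lt h0 (mk_Iio_toType_ord_lt _) (lt_of_lt_of_le one_lt_aleph0 h0)))
  obtain ⟨x, hx⟩ := V.nonempty_of_mem h3
  obtain ⟨s, hs, hxs⟩ := hS (e x)
  exact Set.mem_iInter.1 hx ⟨s, hs⟩ hxs

/-- `l` is a sequence of successive choices from the tree `T` above `s` -/
def Allowed (T : List K → Set K) : List K → List K → Prop
  | _, [] => True
  | s, x :: l => x ∈ T s ∧ Allowed T (s ++ [x]) l

theorem allowed_append {T : List K → Set K} {s l l' : List K} :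
    Allowed T s (l ++ l') ↔ Allowed T s l ∧ Allowed T (s ++ l) l' := by
  induction l generalizing s with
  | nil => simp [Allowed]
  | cons x l ih =>
    rw [List.cons_append]
    simp only [Allowed]
    rw [ih, and_assoc, List.append_assoc, List.singleton_append]

theorem Allowed.mono {T T' : List K → Set K} (h : ∀ r, T r ⊆ T' r) {s l : List K}
    (hl : Allowed T s l) : Allowed T' s l := by
  induction l generalizing s with
  | nil => trivial
  | cons x l ih => exact ⟨h _ hl.1, ih hl.2⟩

/-- allowed sequences of every length exist -/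
theorem exists_allowed {T : List K → Set K} (hT : ∀ r, T r ∈ V) (s : List K) (n : ℕ) :
    ∃ l, l.length = n ∧ Allowed T s l := by
  induction n generalizing s with
  | zero => exact ⟨[], rfl, trivial⟩
  | succ n ih =>
    obtain ⟨x, hx⟩ := V.nonempty_of_mem (hT s)
    obtain ⟨l, hl, hl'⟩ := ih (s ++ [x])
    exact ⟨x :: l, by rw [List.length_cons, hl], hx, hl'⟩

/-- iterated constant values -/
noncomputable def homG {Y : Type u} (hV : IsMeas κ V) (hY : #Y < κ) (F : List K → Y) :
    ℕ → List K → Y
  | 0 => F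
  | n + 1 => fun r => (hV.const hY fun x => homG hV hY F n (r ++ [x])).choose

theorem homG_spec {Y : Type u} (hV : IsMeas κ V) (hY : #Y < κ) (F : List K → Y) (n : ℕ)
    (r : List K) : {x | homG hV hY F n (r ++ [x]) = homG hV hY F (n + 1) r} ∈ V :=
  (hV.const hY fun x => homG hV hY F n (r ++ [x])).choose_spec

/-- Homogeneous trees. Let `G 0 = F` and let `G (n + 1) r` be the constant value of
`x ↦ G n (r ++ [x])` on a large set. Take
`T' r = {x ∈ T r | ∀ n, G n (r ++ [x]) = G (n + 1) r}`; then `F (s ++ l) = G l.length s`. -/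
theorem exists_hom (hV : IsMeas κ V) (h0 : ℵ₀ < κ) {Y : Type u} (hY : #Y < κ) (F : List K → Y)
    (T : List K → Set K) (hT : ∀ r, T r ∈ V) (s : List K) :
    ∃ T' : List K → Set K, (∀ r, T' r ∈ V) ∧ (∀ r, T' r ⊆ T r) ∧
      ∀ l l', Allowed T' s l → Allowed T' s l' → l.length = l'.length →
        F (s ++ l) = F (s ++ l') := by
  refine ⟨fun r => T r ∩ ⋂ n : ULift.{u} ℕ,
    {x | homG hV hY F n.down (r ++ [x]) = homG hV hY F (n.down + 1) r}, ?_, ?_, ?_⟩
  · intro r
    refine V.inter_mem (hT r) (hV.complete _ _ ?_ fun n => homG_spec hV hY F n.down r)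
    rw [mk_uLift, mk_nat, lift_aleph0]
    exact h0
  · intro r
    exact Set.inter_subset_left
  · have key : ∀ (l s : List K), Allowed (fun r => T r ∩ ⋂ n : ULift.{u} ℕ,
        {x | homG hV hY F n.down (r ++ [x]) = homG hV hY F (n.down + 1) r}) s l →
        F (s ++ l) = homG hV hY F l.length s := by
      intro l
      induction l with
      | nil =>
        intro s _
        rw [List.append_nil]
        rfl
      | cons x l ih =>
        intro s h
        have h1 := ih (s ++ [x]) h.2
        rw [List.append_assoc, List.singleton_append] at h1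
        rw [h1]
        exact Set.mem_iInter.1 h.1.2 ⟨l.length⟩
    intro l l' hl hl' hll
    rw [key l s hl, key l' s hl', hll]

end PK
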