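import Pool.Agent.H92.PK.VCof

/-!
# DST: the sets `D_i` belong to `H(λ⁺)`
-/

set_option autoImplicit false

universe u v

open Cardinal Order

namespace PK

open BV

/-- the set in `V` of a set of elements of `lam.ord.ToType` -/
noncomputable def zs {lam : Cardinal.{u}} (z : Set lam.ord.ToType) : ZFSet.{u} :=
  ZFSet.range fun η : z => ((η : lam.ord.ToType).toOrd : Ordinal.{u}).toZFSet

theorem mem_zs {lam : Cardinal.{u}} (z : Set lam.ord.ToType) (x : ZFSet.{u}) :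
    x ∈ zs z ↔ ∃ η ∈ z, x = ((η.toOrd : Ordinal.{u})).toZFSet := by
  rw [zs, ZFSet.mem_range]
  constructor
  · rintro ⟨η, hη⟩
    exact ⟨η.1, η.2, hη.symm⟩
  · rintro ⟨η, hη, hx⟩
    exact ⟨⟨η, hη⟩, hx.symm⟩

theorem dst_toOrd_inj {o : Ordinal.{u}} {a b : o.ToType}
    (h : ((a.toOrd : Ordinal.{u})).toZFSet = ((b.toOrd : Ordinal.{u})).toZFSet) : a = b := by
  have h1 : (a.toOrd : Ordinal.{u}) = (b.toOrd : Ordinal.{u}) := Ordinal.toZFSet_injective h
  exact Ordinal.ToType.mk.symm.injective (Subtype.ext h1)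

theorem dst_zs_sub {lam : Cardinal.{u}} {z z' : Set lam.ord.ToType} (h : zs z = zs z') :
    z ⊆ z' := by
  intro η hη
  have h1 : ((η.toOrd : Ordinal.{u})).toZFSet ∈ zs z' := by
    rw [← h, mem_zs]
    exact ⟨η, hη, rfl⟩
  obtain ⟨η', hη', h2⟩ := (mem_zs _ _).1 h1
  rw [dst_toOrd_inj h2]
  exact hη'

theorem zs_inj {lam : Cardinal.{u}} {z z' : Set lam.ord.ToType} (h : zs z = zs z') : z = z' :=
  Set.Subset.antisymm (dst_zs_sub h) (dst_zs_sub h.symm)

/-- the set of pairs `⟨k, z⟩`, `z ∈ D k` -/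
noncomputable def dz {lam : Cardinal.{u}} (D : ℕ → Set (Set lam.ord.ToType)) : ZFSet.{u} :=
  ZFSet.range fun p : ULift.{u} (Σ k : ℕ, {z : Set lam.ord.ToType // z ∈ D k}) =>
    ZFSet.pair ((p.down.1 : Ordinal.{u})).toZFSet (zs p.down.2.1)

theorem pair_mem_dz {lam : Cardinal.{u}} (D : ℕ → Set (Set lam.ord.ToType)) (k : ℕ)
    (w : ZFSet.{u}) :
    ZFSet.pair (k : Ordinal.{u}).toZFSet w ∈ dz D ↔ ∃ z ∈ D k, w = zs z := by
  rw [dz, ZFSet.mem_range]
  constructor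
  · rintro ⟨⟨⟨k', z, hz⟩⟩, h⟩
    obtain ⟨h1, h2⟩ := ZFSet.pair_inj.1 h
    have h3 : (k' : Ordinal.{u}) = (k : Ordinal.{u}) := Ordinal.toZFSet_injective h1
    have h4 : k' = k := Nat.cast_injective h3
    subst h4
    exact ⟨z, hz, h2.symm⟩
  · rintro ⟨z, hz, rfl⟩
    exact ⟨⟨⟨k, z, hz⟩⟩, rfl⟩

theorem dst_card_range {I : Type u} (f : I → ZFSet.{u}) {c : Cardinal.{u}} (h : #I ≤ c) :
    (ZFSet.range f).card ≤ c := by
  have h1 := ZFSet.lift_card_range_le (f := f)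
  rw [Cardinal.lift_le] at h1
  exact h1.trans h

theorem dst_card_union {x y : ZFSet.{u}} {c : Cardinal.{u}} (hc : ℵ₀ ≤ c) (hx : x.card ≤ c)
    (hy : y.card ≤ c) : (x ∪ y).card ≤ c :=
  ZFSet.card_union_le.trans (Cardinal.add_le_of_le hc hx hy)

/-- transitive set: the union of `λ`, of the sets `z`, of `{k}`, `{k, z}` and of the pairs; use
`inH_V` -/
theorem inH_dz {lam : Cardinal.{u}} (hlam : ℵ₀ ≤ lam) (D : ℕ → Set (Set lam.ord.ToType))
    (hD : ∀ k, #(D k) ≤ lam) : InH VE lam.ord.toZFSet (dz D) := by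
  let I : Type u := ULift.{u} (Σ k : ℕ, {z : Set lam.ord.ToType // z ∈ D k})
  have hI : #I ≤ lam := by
    have h1 : #I = Cardinal.sum (fun k : ℕ => #(D k)) := by
      show #(ULift.{u} (Σ k : ℕ, {z : Set lam.ord.ToType // z ∈ D k})) = _
      rw [Cardinal.mk_uLift, Cardinal.mk_sigma, Cardinal.lift_id]
    rw [h1]
    refine (Cardinal.sum_le_sum (fun k : ℕ => #(D k)) (fun _ => lam) hD).trans ?_
    rw [Cardinal.sum_const]
    simp only [Cardinal.mk_nat, Cardinal.lift_aleph0]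
    rw [Cardinal.lift_id'.{0, u}]
    exact (mul_le_mul' hlam le_rfl).trans (Cardinal.mul_eq_self hlam).le
  let k' : I → ZFSet.{u} := fun p => ((p.down.1 : Ordinal.{u})).toZFSet
  let z' : I → ZFSet.{u} := fun p => zs p.down.2.1
  let L : ZFSet.{u} := lam.ord.toZFSet
  let R1 : ZFSet.{u} := ZFSet.range z'
  let R2 : ZFSet.{u} := ZFSet.range (fun p => ({k' p} : ZFSet.{u}))
  let R3 : ZFSet.{u} := ZFSet.range (fun p => ({k' p, z' p} : ZFSet.{u}))
  let R4 : ZFSet.{u} := ZFSet.range (fun p => ZFSet.pair (k' p) (z' p))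
  have hk : ∀ p, k' p ∈ L := by
    intro p
    refine Ordinal.toZFSet_mem_toZFSet_iff.2 ?_
    refine lt_of_lt_of_le (Ordinal.natCast_lt_omega0 _) ?_
    rw [← Cardinal.ord_aleph0]
    exact Cardinal.ord_le_ord.2 hlam
  have hmem : ∀ x, x ∈ L ∪ R1 ∪ R2 ∪ R3 ∪ R4 ↔
      x ∈ L ∨ x ∈ R1 ∨ x ∈ R2 ∨ x ∈ R3 ∨ x ∈ R4 := by
    intro x
    simp only [ZFSet.mem_union]
    tauto
  have hzL : ∀ p, ∀ x, x ∈ z' p → x ∈ L := by
    intro p x hx
    obtain ⟨η, -, rfl⟩ := (mem_zs _ _).1 hx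
    exact Ordinal.toZFSet_mem_toZFSet_iff.2 η.toOrd.2
  refine inH_V (t := L ∪ R1 ∪ R2 ∪ R3 ∪ R4) ?_ ?_ ?_
  · intro y hy x hx
    rw [hmem] at hy ⊢
    rcases hy with hy | hy | hy | hy | hy
    · left
      exact (ZFSet.isOrdinal_toZFSet lam.ord).mem_trans hx hy
    · obtain ⟨p, rfl⟩ := ZFSet.mem_range.1 hy
      left
      exact hzL p x hx
    · obtain ⟨p, rfl⟩ := ZFSet.mem_range.1 hy
      left
      rw [ZFSet.mem_singleton.1 hx]
      exact hk p
    · obtain ⟨p, rfl⟩ := ZFSet.mem_range.1 hy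
      rcases ZFSet.mem_pair.1 hx with h | h
      · left
        rw [h]
        exact hk p
      · right; left
        rw [h]
        exact ZFSet.mem_range.2 ⟨p, rfl⟩
    · obtain ⟨p, rfl⟩ := ZFSet.mem_range.1 hy
      have hx' : x ∈ ({{k' p}, {k' p, z' p}} : ZFSet.{u}) := hx
      rcases ZFSet.mem_pair.1 hx' with h | h
      · right; right; left
        rw [h]
        exact ZFSet.mem_range.2 ⟨p, rfl⟩
      · right; right; right; left
        rw [h]
        exact ZFSet.mem_range.2 ⟨p, rfl⟩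
  · intro x hx
    rw [hmem]
    right; right; right; right
    exact hx
  · refine dst_card_union hlam (dst_card_union hlam (dst_card_union hlam (dst_card_union hlam
      ?_ ?_) ?_) ?_) ?_
    · rw [Ordinal.card_toZFSet, Cardinal.card_ord]
    · exact dst_card_range _ hI
    · exact dst_card_range _ hI
    · exact dst_card_range _ hI
    · exact dst_card_range _ hI

theorem inH_omega {lam : Cardinal.{u}} (hlam : ℵ₀ ≤ lam) :
    InH VE lam.ord.toZFSet (Ordinal.omega0.{u}).toZFSet := by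
  refine inH_V (t := (Ordinal.omega0.{u}).toZFSet) ?_ ?_ ?_
  · exact (ZFSet.isOrdinal_toZFSet _).isTransitive
  · exact fun x hx => hx
  · rw [Ordinal.card_toZFSet, Ordinal.card_omega0]
    exact hlam

end PK
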