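import Pool.Agent.H92.PK.Frc
import Pool.Agent.H92.PK.Dst

/-!
# BEQS: Boolean values of membership in the names
-/

set_option autoImplicit false

universe u v

open Cardinal Order

namespace PK

open BV

variable {B : Type u} [CompleteBooleanAlgebra B] {lam : Cardinal.{u}}

theorem beqs_iSup {ι : Sort*} {f : ι → B} (i : ι) (h : ∀ j, j ≠ i → f j = ⊥) :
    (⨆ j, f j) = f i := by
  apply le_antisymm
  · refine iSup_le fun j => ?_
    by_cases hj : j = i
    · rw [hj]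
    · rw [h j hj]
      exact bot_le
  · exact le_iSup f i

theorem beqs_congr {y y' : BSet B} (h : beq y y' = ⊤) (x : BSet B) : beq x y = beq x y' := by
  refine UF.eq_of_forall fun U => ?_
  have h1 : MU.mk U y = MU.mk U y' := (MU.mk_eq_iff U y y').2 (by rw [h]; exact U.top_mem)
  rw [← MU.mk_eq_iff, ← MU.mk_eq_iff, h1]

theorem beqs_chk (x : BSet B) (α : Ordinal.{u}) : beq x (ch B α.toZFSet) = beq x (chk B α) :=
  beqs_congr (beq_ch_chk α) x

theorem bmem_nameA (a : lam.ord.ToType → B) (η : lam.ord.ToType) :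
    bmem (chk B (η.toOrd : Ordinal)) (nameA a) = a η := by
  unfold nameA
  rw [bmem_mk, beqs_iSup η, beq_refl, inf_top_eq]
  intro j hj
  rw [beq_chk_of_ne, inf_bot_eq]
  intro h
  have h2 : η.toOrd = j.toOrd := Subtype.ext h
  exact hj ((Ordinal.ToType.mk (o := lam.ord)).symm.injective h2).symm

/-- `⟦η ∈ ž⟧` -/
theorem bmem_zs (z : Set lam.ord.ToType) (x : BSet B) :
    bmem x (ch B (zs z)) = ⨆ η ∈ z, beq x (chk B (η.toOrd : Ordinal)) := by
  rw [bmem_ch]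
  apply le_antisymm
  · refine iSup_le fun y => ?_
    obtain ⟨η, hη, hy⟩ := (mem_zs z y.1).1 y.2
    rw [hy, beqs_chk]
    exact le_iSup₂ (f := fun (η : lam.ord.ToType) (_ : η ∈ z) =>
      beq x (chk B (η.toOrd : Ordinal))) η hη
  · refine iSup₂_le fun η hη => ?_
    rw [← beqs_chk]
    exact le_iSup (fun y : {y : ZFSet.{u} // y ∈ zs z} => beq x (ch B y.1))
      ⟨((η.toOrd : Ordinal.{u})).toZFSet, (mem_zs z _).2 ⟨η, hη, rfl⟩⟩

theorem beqs_bmem_chk (α : Ordinal.{u}) (y : BSet B) :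
    bmem (ch B α.toZFSet) y = bmem (chk B α) y := by
  refine UF.eq_of_forall fun U => ?_
  have h1 : MU.mk U (ch B α.toZFSet) = MU.mk U (chk B α) :=
    (MU.mk_eq_iff U _ _).2 (by rw [beq_ch_chk]; exact U.top_mem)
  rw [← MU.E_mk, ← MU.E_mk, h1]

/-- `⟦ž ⊆ A⟧` -/
theorem sub_nameA (a : lam.ord.ToType → B) (z : Set lam.ord.ToType) :
    (⨅ x, bmem x (ch B (zs z)) ⇨ bmem x (nameA a)) = ⨅ η ∈ z, a η := by
  rw [ch_ball _ (ext_mem_left (nameA a))]
  apply le_antisymm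
  · refine le_iInf₂ fun η hη => ?_
    refine (iInf_le _ (⟨((η.toOrd : Ordinal.{u})).toZFSet, (mem_zs z _).2 ⟨η, hη, rfl⟩⟩ :
      {y : ZFSet.{u} // y ∈ zs z})).trans ?_
    rw [beqs_bmem_chk, bmem_nameA]
  · refine le_iInf fun y => ?_
    obtain ⟨η, hη, hy⟩ := (mem_zs z y.1).1 y.2
    rw [hy, beqs_bmem_chk, bmem_nameA]
    exact iInf₂_le (f := fun (η : lam.ord.ToType) (_ : η ∈ z) => a η) η hη

theorem bmem_nameR (r : ℕ → B) (k : ℕ) : bmem (chk B (k : Ordinal.{u})) (nameR r) = r k := by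
  unfold nameR
  rw [bmem_mk, beqs_iSup (ULift.up k), beq_refl, inf_top_eq]
  intro j hj
  rw [beq_chk_of_ne, inf_bot_eq]
  intro h
  have h2 : k = j.down := by exact_mod_cast h
  exact hj (ULift.ext _ _ h2.symm)

theorem nameR_sub (r : ℕ → B) (U : UF B) (m : MU U) (hm : MU.E U m (MU.mk U (nameR r))) :
    MU.E U m (ck U Ordinal.omega0) := by
  obtain ⟨x, rfl⟩ := MU.mk_surj U m
  unfold ck
  rw [MU.E_mk] at hm ⊢
  refine U.mem_of_le hm ?_
  unfold nameR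
  rw [bmem_mk, bmem_chk]
  refine iSup_le fun k => inf_le_right.trans ?_
  exact le_iSup (fun β : Set.Iio Ordinal.omega0.{u} => beq x (chk B β))
    ⟨(k.down : Ordinal.{u}), Ordinal.natCast_lt_omega0 _⟩

theorem beqs_mem_dz (D : ℕ → Set (Set lam.ord.ToType)) (y : ZFSet.{u}) :
    y ∈ dz D ↔ ∃ k : ℕ, ∃ z ∈ D k, y = ZFSet.pair ((k : Ordinal.{u})).toZFSet (zs z) := by
  unfold dz
  rw [ZFSet.mem_range]
  constructor
  · rintro ⟨p, rfl⟩
    exact ⟨p.down.1, p.down.2.1, p.down.2.2, rfl⟩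
  · rintro ⟨k, z, hz, rfl⟩
    exact ⟨ULift.up ⟨k, z, hz⟩, rfl⟩

/-- `⟦⟨ǩ, w⟩ ∈ Ď⟧` -/
theorem bmem_dz (D : ℕ → Set (Set lam.ord.ToType)) (k : ℕ) (w : BSet B) :
    bmem (opr (chk B (k : Ordinal.{u})) w) (ch B (dz D)) = ⨆ z ∈ D k, beq w (ch B (zs z)) := by
  rw [bmem_ch]
  apply le_antisymm
  · refine iSup_le fun y => ?_
    obtain ⟨k', z, hz, hy⟩ := (beqs_mem_dz D y.1).1 y.2
    rw [hy, beqs_congr (beq_ch_pair _ _), beq_opr, beqs_chk]
    by_cases hk : k = k'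
    · subst hk
      refine inf_le_right.trans ?_
      exact le_iSup₂ (f := fun (z : Set lam.ord.ToType) (_ : z ∈ D k) => beq w (ch B (zs z))) z hz
    · rw [beq_chk_of_ne, bot_inf_eq]
      · exact bot_le
      · intro h
        exact hk (by exact_mod_cast h)
  · refine iSup₂_le fun z hz => ?_
    refine le_trans ?_ (le_iSup (fun y : {y : ZFSet.{u} // y ∈ dz D} =>
      beq (opr (chk B (k : Ordinal.{u})) w) (ch B y.1))
      ⟨ZFSet.pair ((k : Ordinal.{u})).toZFSet (zs z), (beqs_mem_dz D _).2 ⟨k, z, hz, rfl⟩⟩)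
    rw [beqs_congr (beq_ch_pair _ _), beq_opr, beqs_chk, beq_refl, top_inf_eq]

/-- `⟦∃ w, ⟨ǩ, w⟩ ∈ Ď ∧ w ⊆ A⟧ = ⨆ z ∈ D k, ⨅ η ∈ z, a η` -/
theorem bex_dz (a : lam.ord.ToType → B) (D : ℕ → Set (Set lam.ord.ToType)) (k : ℕ) :
    (⨆ w, bmem (opr (chk B (k : Ordinal.{u})) w) (ch B (dz D)) ⊓
      ⨅ x, bmem x w ⇨ bmem x (nameA a)) = bD a (D k) := by
  have hext : Ext (fun w : BSet B => ⨅ x, bmem x w ⇨ bmem x (nameA a)) :=
    ext_iInf fun x => ext_himp (ext_mem_right x) (ext_const _)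
  unfold bD
  apply le_antisymm
  · refine iSup_le fun w => ?_
    rw [bmem_dz, iSup_inf_eq]
    refine iSup_mono fun z => ?_
    rw [iSup_inf_eq]
    refine iSup_mono fun hz => ?_
    rw [← sub_nameA a z]
    exact hext w (ch B (zs z))
  · refine iSup₂_le fun z hz => ?_
    refine le_trans ?_ (le_iSup _ (ch B (zs z)))
    rw [bmem_dz, sub_nameA]
    refine le_inf ?_ le_rfl
    refine le_trans ?_ (le_iSup₂ (f := fun (z' : Set lam.ord.ToType) (_ : z' ∈ D k) =>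
      beq (ch B (zs z)) (ch B (zs z'))) z hz)
    rw [beq_refl]
    exact le_top

/-- the real `r = {k : ∃ w, ⟨k, w⟩ ∈ D ∧ w ⊆ A}` in the quotient (first for check names `k` by
`bex_dz`, then by `ball_chk` for the definable property of `k`) -/
theorem real_iff (a : lam.ord.ToType → B) (D : ℕ → Set (Set lam.ord.ToType)) (U : UF B)
    (k : MU U) (hk : MU.E U k (ck U Ordinal.omega0)) :
    MU.E U k (MU.mk U (nameR fun k => bD a (D k))) ↔
      ∃ w, App (MU.E U) (jV U (dz D)).1 k w ∧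
        ∀ η, MU.E U η w → MU.E U η (MU.mk U (nameA a)) := by
  -- the right side as a Boolean value
  have hlos : ∀ (V : UF B) (x : BSet B),
      (⨆ w, bmem (opr x w) (ch B (dz D)) ⊓ ⨅ y, bmem y w ⇨ bmem y (nameA a)) ∈ V ↔
      ∃ w, App (MU.E V) (jV V (dz D)).1 (MU.mk V x) w ∧
        ∀ η, MU.E V η w → MU.E V η (MU.mk V (nameA a)) := by
    intro V x
    refine card_iSup (P := fun V w => App (MU.E V) (jV V (dz D)).1 (MU.mk V x) w ∧
        ∀ η, MU.E V η w → MU.E V η (MU.mk V (nameA a))) (fun V w => ?_) V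
    rw [UF.inf_mem_iff, los_app]
    refine and_congr Iff.rfl ?_
    refine card_iInf (P := fun V η => MU.E V η (MU.mk V w) → MU.E V η (MU.mk V (nameA a)))
      (fun V y => ?_) V
    rw [UF.himp_mem_iff]
    exact Iff.rfl
  refine ball_ck (f := fun x =>
    (bmem x (nameR fun k => bD a (D k)) ⇨
      ⨆ w, bmem (opr x w) (ch B (dz D)) ⊓ ⨅ y, bmem y w ⇨ bmem y (nameA a)) ⊓
    ((⨆ w, bmem (opr x w) (ch B (dz D)) ⊓ ⨅ y, bmem y w ⇨ bmem y (nameA a)) ⇨
      bmem x (nameR fun k => bD a (D k))))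
    (P := fun V k => MU.E V k (MU.mk V (nameR fun k => bD a (D k))) ↔
      ∃ w, App (MU.E V) (jV V (dz D)).1 k w ∧
        ∀ η, MU.E V η w → MU.E V η (MU.mk V (nameA a))) ?_ Ordinal.omega0 ?_ U k hk
  · intro V x
    rw [UF.inf_mem_iff, UF.himp_mem_iff, UF.himp_mem_iff, hlos V x]
    exact ⟨fun h => ⟨h.1, h.2⟩, fun h => ⟨h.1, h.2⟩⟩
  · intro V β hβ
    obtain ⟨n, rfl⟩ := Ordinal.lt_omega0.1 hβ
    have h1 := hlos V (chk B (n : Ordinal.{u}))
    rw [bex_dz] at h1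
    unfold ck
    rw [← h1, MU.E_mk, bmem_nameR]

end PK
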