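import Pool.Agent.H92.PK.Defs

/-!
# BND: a bounded separation
-/

set_option autoImplicit false

universe u v

open Cardinal Order

namespace PK

open BV

/-! ### bounded formulas -/

def bndNot (φ : Fml) : Fml := .imp φ .bot

def bndAnd (φ ψ : Fml) : Fml := bndNot (.imp φ (bndNot ψ))

def bndOr (φ ψ : Fml) : Fml := .imp (bndNot φ) ψ

def bndAll (i j : ℕ) (φ : Fml) : Fml := .all i (.imp (.mem i j) φ)

def bndEx (i j : ℕ) (φ : Fml) : Fml := bndNot (bndAll i j (bndNot φ))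

/-- `x_a = {x_x, x_y}` with the bound variable `z` -/
def bndPair (a x y z : ℕ) : Fml :=
  bndAnd (.mem x a) (bndAnd (.mem y a) (bndAll z a (bndOr (.eq z x) (.eq z y))))

theorem bdd_not {φ : Fml} (h : Bdd φ) : Bdd (bndNot φ) := .imp h .bot

theorem bdd_and {φ ψ : Fml} (h : Bdd φ) (h' : Bdd ψ) : Bdd (bndAnd φ ψ) :=
  bdd_not (.imp h (bdd_not h'))

theorem bdd_or {φ ψ : Fml} (h : Bdd φ) (h' : Bdd ψ) : Bdd (bndOr φ ψ) := .imp (bdd_not h) h'

theorem bdd_all {φ : Fml} {i j : ℕ} (hij : i ≠ j) (h : Bdd φ) : Bdd (bndAll i j φ) :=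
  .all i j hij h

theorem bdd_ex {φ : Fml} {i j : ℕ} (hij : i ≠ j) (h : Bdd φ) : Bdd (bndEx i j φ) :=
  bdd_not (bdd_all hij (bdd_not h))

theorem bdd_pair {a x y z : ℕ} (h : z ≠ a) : Bdd (bndPair a x y z) :=
  bdd_and (.mem _ _) (bdd_and (.mem _ _) (bdd_all h (bdd_or (.eq _ _) (.eq _ _))))

section

variable {M : Type v} {E : M → M → Prop}

theorem bnd_sat_not (φ : Fml) (w : ℕ → M) : Sat E (bndNot φ) w ↔ ¬ Sat E φ w := Iff.rfl

theorem bnd_sat_and (φ ψ : Fml) (w : ℕ → M) :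
    Sat E (bndAnd φ ψ) w ↔ Sat E φ w ∧ Sat E ψ w := by
  show ((Sat E φ w → (Sat E ψ w → False)) → False) ↔ _
  tauto

theorem bnd_sat_or (φ ψ : Fml) (w : ℕ → M) :
    Sat E (bndOr φ ψ) w ↔ Sat E φ w ∨ Sat E ψ w := by
  show ((Sat E φ w → False) → Sat E ψ w) ↔ _
  tauto

theorem bnd_sat_all {i j : ℕ} (h : i ≠ j) (φ : Fml) (w : ℕ → M) :
    Sat E (bndAll i j φ) w ↔ ∀ x, E x (w j) → Sat E φ (Function.update w i x) := by
  show (∀ x, E (Function.update w i x i) (Function.update w i x j) → _) ↔ _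
  refine forall_congr' fun x => ?_
  rw [Function.update_self, Function.update_of_ne h.symm]

theorem bnd_sat_ex {i j : ℕ} (h : i ≠ j) (φ : Fml) (w : ℕ → M) :
    Sat E (bndEx i j φ) w ↔ ∃ x, E x (w j) ∧ Sat E φ (Function.update w i x) := by
  unfold bndEx
  rw [bnd_sat_not, bnd_sat_all h]
  simp only [bnd_sat_not]
  push Not
  rfl

theorem bnd_sat_pair {a x y z : ℕ} (ha : z ≠ a) (hx : z ≠ x) (hy : z ≠ y) (w : ℕ → M) :
    Sat E (bndPair a x y z) w ↔ IsPair E (w a) (w x) (w y) := by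
  unfold bndPair
  rw [bnd_sat_and, bnd_sat_and, bnd_sat_all ha]
  simp only [bnd_sat_or]
  show (E (w x) (w a) ∧ E (w y) (w a) ∧ ∀ t, E t (w a) →
    (Function.update w z t z = Function.update w z t x ∨
      Function.update w z t z = Function.update w z t y)) ↔ _
  simp only [Function.update_self, Function.update_of_ne hx.symm, Function.update_of_ne hy.symm]
  constructor
  · rintro ⟨h1, h2, h3⟩ t
    constructor
    · exact h3 t
    · rintro (rfl | rfl)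
      · exact h1
      · exact h2
  · intro h
    exact ⟨(h _).2 (Or.inl rfl), (h _).2 (Or.inr rfl), fun t ht => (h t).1 ht⟩

end

/-- the formula -/
def bndF : Fml :=
  bndEx 3 1 (bndEx 4 3 (bndEx 5 3 (bndEx 6 5
    (bndAnd (bndPair 4 0 0 7) (bndAnd (bndPair 5 0 6 7) (bndAnd (bndPair 3 4 5 7)
      (bndAll 7 6 (.mem 7 2))))))))

theorem bdd_bndF : Bdd bndF :=
  bdd_ex (by decide) (bdd_ex (by decide) (bdd_ex (by decide) (bdd_ex (by decide)
    (bdd_and (bdd_pair (by decide)) (bdd_and (bdd_pair (by decide)) (bdd_and (bdd_pair (by decide))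
      (bdd_all (by decide) (.mem _ _))))))))

theorem bnd_sat_bndF {M : Type v} {E : M → M → Prop} (w : ℕ → M) :
    Sat E bndF w ↔ ∃ s, App E (w 1) (w 0) s ∧ ∀ η, E η s → E η (w 2) := by
  unfold bndF
  rw [bnd_sat_ex (by decide)]
  simp only [bnd_sat_ex (show (4 : ℕ) ≠ 3 by decide), bnd_sat_ex (show (5 : ℕ) ≠ 3 by decide),
    bnd_sat_ex (show (6 : ℕ) ≠ 5 by decide), bnd_sat_and,
    bnd_sat_pair (show (7 : ℕ) ≠ 4 by decide) (show (7 : ℕ) ≠ 0 by decide)
      (show (7 : ℕ) ≠ 0 by decide),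
    bnd_sat_pair (show (7 : ℕ) ≠ 5 by decide) (show (7 : ℕ) ≠ 0 by decide)
      (show (7 : ℕ) ≠ 6 by decide),
    bnd_sat_pair (show (7 : ℕ) ≠ 3 by decide) (show (7 : ℕ) ≠ 4 by decide)
      (show (7 : ℕ) ≠ 5 by decide),
    bnd_sat_all (show (7 : ℕ) ≠ 6 by decide), Sat]
  simp only [Function.update_self, ne_eq, Nat.reduceEqDiff, not_false_eq_true,
    Function.update_of_ne, OfNat.zero_ne_ofNat]
  constructor
  · rintro ⟨p, hp, a, ha, b, hb, s, hs, h1, h2, h3, h4⟩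
    exact ⟨s, ⟨p, ⟨a, b, h1, h2, h3⟩, hp⟩, h4⟩
  · rintro ⟨s, ⟨p, ⟨a, b, h1, h2, h3⟩, hp⟩, h4⟩
    exact ⟨p, hp, a, (h3 a).2 (Or.inl rfl), b, (h3 b).2 (Or.inr rfl), s, (h2 s).2 (Or.inr rfl),
      h1, h2, h3, h4⟩

/-- The set `m = {k ∈ o : ∃ w, ⟨k, w⟩ ∈ D ∧ w ⊆ A}` belongs to every set model which contains
`o`, `D`, `A`. The bounded formula (variable `0` is `k`, `1` is `D`, `2` is `A`):
`∃ p ∈ D, ∃ a ∈ p, ∃ b ∈ p, ∃ w ∈ b, a = {k}, b = {k, w}, p = {a, b}, ∀ η ∈ w, η ∈ A`, where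
`a = {x, y}` is `x ∈ a ∧ y ∈ a ∧ ∀ z ∈ a, z = x ∨ z = y`. -/
theorem adj_sep {M : Type v} {E : M → M → Prop} {K : M → Prop} (hK : IsSetModel E K)
    {o D A m : M} (ho : K o) (hD : K D) (hA : K A) (hsub : ∀ k, E k m → E k o)
    (hm : ∀ k, E k o → (E k m ↔ ∃ w, App E D k w ∧ ∀ η, E η w → E η A)) : K m := by
  let w : ℕ → M := fun n => if n = 2 then A else D
  refine hK.sep bndF bdd_bndF w (fun i => ?_) o m ho (fun x => ?_)
  · show K (if i = 2 then A else D)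
    split_ifs
    · exact hA
    · exact hD
  · rw [bnd_sat_bndF]
    have h1 : Function.update w 0 x 1 = D := by
      rw [Function.update_of_ne (by decide)]
      rfl
    have h2 : Function.update w 0 x 2 = A := by
      rw [Function.update_of_ne (by decide)]
      rfl
    rw [Function.update_self, h1, h2]
    constructor
    · intro h
      exact ⟨hsub x h, (hm x (hsub x h)).1 h⟩
    · rintro ⟨h, h'⟩
      exact (hm x h).2 h'

end PK
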