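import Pool.Agent.H92.PK.Defs

/-!
# CALC: calculus of definable properties

`FDef P`: the property `P` of structures and assignments is expressed by a formula, uniformly in
all structures `(M, E)`. `FDef2` is the same for formulas with an extra unary predicate `W`.
Assignments are extended at the front: `scons x w`.
-/

set_option autoImplicit false

universe u v

open Cardinal Order

namespace PK

open BV

/-- new value in front of an assignment -/
def scons {M : Type v} (x : M) (w : ℕ → M) : ℕ → M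
  | 0 => x
  | n + 1 => w n

@[simp] theorem scons_zero {M : Type v} (x : M) (w : ℕ → M) : scons x w 0 = x := rfl

@[simp] theorem scons_succ {M : Type v} (x : M) (w : ℕ → M) (n : ℕ) : scons x w (n + 1) = w n :=
  rfl

/-- properties expressed by formulas -/
def FDef (P : ∀ (M : Type v), (M → M → Prop) → (ℕ → M) → Prop) : Prop :=
  ∃ φ : Fml, ∀ (M : Type v) (E : M → M → Prop) (w : ℕ → M), Sat E φ w ↔ P M E w

/-- formulas with an extra unary predicate -/
inductive Fml2
  | mem (i j : ℕ)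
  | eq (i j : ℕ)
  | cls (i : ℕ)
  | bot
  | imp (φ ψ : Fml2)
  | all (i : ℕ) (φ : Fml2)

/-- satisfaction in the structure `(M, E, W)` -/
def Sat2 {M : Type v} (E : M → M → Prop) (W : M → Prop) : Fml2 → (ℕ → M) → Prop
  | .mem i j, w => E (w i) (w j)
  | .eq i j, w => w i = w j
  | .cls i, w => W (w i)
  | .bot, _ => False
  | .imp φ ψ, w => Sat2 E W φ w → Sat2 E W ψ w
  | .all i φ, w => ∀ x, Sat2 E W φ (Function.update w i x)

/-- properties expressed by formulas with an extra unary predicate -/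
def FDef2 (P : ∀ (M : Type v), (M → M → Prop) → (M → Prop) → (ℕ → M) → Prop) : Prop :=
  ∃ φ : Fml2, ∀ (M : Type v) (E : M → M → Prop) (W : M → Prop) (w : ℕ → M),
    Sat2 E W φ w ↔ P M E W w

/-- the truth of a formula depends on finitely many values only (a bound for all variables) -/
theorem sat_local (φ : Fml) : ∃ n : ℕ, ∀ (M : Type v) (E : M → M → Prop) (w w' : ℕ → M),
    (∀ i < n, w i = w' i) → (Sat E φ w ↔ Sat E φ w') := by
  induction φ with
  | mem i j =>
    refine ⟨max i j + 1, fun M E w w' h => ?_⟩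
    unfold Sat
    rw [h i (by omega), h j (by omega)]
  | eq i j =>
    refine ⟨max i j + 1, fun M E w w' h => ?_⟩
    unfold Sat
    rw [h i (by omega), h j (by omega)]
  | bot => exact ⟨0, fun M E w w' _ => Iff.rfl⟩
  | imp φ ψ ih1 ih2 =>
    obtain ⟨n, hn⟩ := ih1
    obtain ⟨m, hm⟩ := ih2
    refine ⟨max n m, fun M E w w' h => ?_⟩
    unfold Sat
    rw [hn M E w w' (fun i hi => h i (lt_of_lt_of_le hi (le_max_left _ _))),
      hm M E w w' (fun i hi => h i (lt_of_lt_of_le hi (le_max_right _ _)))]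
  | all i φ ih =>
    obtain ⟨n, hn⟩ := ih
    refine ⟨n, fun M E w w' h => ?_⟩
    unfold Sat
    refine forall_congr' fun x => hn M E _ _ fun k hk => ?_
    by_cases hki : k = i
    · subst hki
      rw [Function.update_self, Function.update_self]
    · rw [Function.update_of_ne hki, Function.update_of_ne hki, h k hk]

theorem sat2_local (φ : Fml2) : ∃ n : ℕ, ∀ (M : Type v) (E : M → M → Prop) (W : M → Prop)
    (w w' : ℕ → M), (∀ i < n, w i = w' i) → (Sat2 E W φ w ↔ Sat2 E W φ w') := by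
  induction φ with
  | mem i j =>
    refine ⟨max i j + 1, fun M E W w w' h => ?_⟩
    unfold Sat2
    rw [h i (by omega), h j (by omega)]
  | eq i j =>
    refine ⟨max i j + 1, fun M E W w w' h => ?_⟩
    unfold Sat2
    rw [h i (by omega), h j (by omega)]
  | cls i =>
    refine ⟨i + 1, fun M E W w w' h => ?_⟩
    unfold Sat2
    rw [h i (by omega)]
  | bot => exact ⟨0, fun M E W w w' _ => Iff.rfl⟩
  | imp φ ψ ih1 ih2 =>
    obtain ⟨n, hn⟩ := ih1
    obtain ⟨m, hm⟩ := ih2
    refine ⟨max n m, fun M E W w w' h => ?_⟩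
    unfold Sat2
    rw [hn M E W w w' (fun i hi => h i (lt_of_lt_of_le hi (le_max_left _ _))),
      hm M E W w w' (fun i hi => h i (lt_of_lt_of_le hi (le_max_right _ _)))]
  | all i φ ih =>
    obtain ⟨n, hn⟩ := ih
    refine ⟨n, fun M E W w w' h => ?_⟩
    unfold Sat2
    refine forall_congr' fun x => hn M E W _ _ fun k hk => ?_
    by_cases hki : k = i
    · subst hki
      rw [Function.update_self, Function.update_self]
    · rw [Function.update_of_ne hki, Function.update_of_ne hki, h k hk]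

/-- a variable which is different from all `σ j`, `j < n` -/
theorem calc_fresh (σ : ℕ → ℕ) (n : ℕ) : ∃ k : ℕ, n ≤ k ∧ ∀ j < n, σ j ≠ k := by
  refine ⟨n + ∑ j ∈ Finset.range n, (σ j + 1), by omega, fun j hj h => ?_⟩
  have h1 : σ j + 1 ≤ ∑ j ∈ Finset.range n, (σ j + 1) :=
    Finset.single_le_sum (f := fun j => σ j + 1) (fun _ _ => Nat.zero_le _)
      (Finset.mem_range.2 hj)
  omega

theorem calc_ren (φ : Fml) : ∀ σ : ℕ → ℕ, ∃ ψ : Fml, ∀ (M : Type v) (E : M → M → Prop)
    (w : ℕ → M), Sat E ψ w ↔ Sat E φ (w ∘ σ) := by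
  induction φ with
  | mem i j => exact fun σ => ⟨.mem (σ i) (σ j), fun M E w => Iff.rfl⟩
  | eq i j => exact fun σ => ⟨.eq (σ i) (σ j), fun M E w => Iff.rfl⟩
  | bot => exact fun σ => ⟨.bot, fun M E w => Iff.rfl⟩
  | imp φ ψ ih1 ih2 =>
    intro σ
    obtain ⟨φ', h1⟩ := ih1 σ
    obtain ⟨ψ', h2⟩ := ih2 σ
    refine ⟨.imp φ' ψ', fun M E w => ?_⟩
    unfold Sat
    rw [h1, h2]
  | all i φ ih =>
    intro σ
    obtain ⟨n, hn⟩ := sat_local.{v} φ
    obtain ⟨k, -, hk⟩ := calc_fresh σ n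
    obtain ⟨ψ, hψ⟩ := ih (Function.update σ i k)
    refine ⟨.all k ψ, fun M E w => ?_⟩
    unfold Sat
    refine forall_congr' fun x => ?_
    rw [hψ]
    refine hn M E _ _ fun j hj => ?_
    by_cases hji : j = i
    · subst hji
      simp
    · rw [Function.comp_apply, Function.update_of_ne hji, Function.update_of_ne (hk j hj),
        Function.update_of_ne hji, Function.comp_apply]

theorem calc_ren2 (φ : Fml2) : ∀ σ : ℕ → ℕ, ∃ ψ : Fml2, ∀ (M : Type v) (E : M → M → Prop)
    (W : M → Prop) (w : ℕ → M), Sat2 E W ψ w ↔ Sat2 E W φ (w ∘ σ) := by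
  induction φ with
  | mem i j => exact fun σ => ⟨.mem (σ i) (σ j), fun M E W w => Iff.rfl⟩
  | eq i j => exact fun σ => ⟨.eq (σ i) (σ j), fun M E W w => Iff.rfl⟩
  | cls i => exact fun σ => ⟨.cls (σ i), fun M E W w => Iff.rfl⟩
  | bot => exact fun σ => ⟨.bot, fun M E W w => Iff.rfl⟩
  | imp φ ψ ih1 ih2 =>
    intro σ
    obtain ⟨φ', h1⟩ := ih1 σ
    obtain ⟨ψ', h2⟩ := ih2 σ
    refine ⟨.imp φ' ψ', fun M E W w => ?_⟩
    unfold Sat2
    rw [h1, h2]
  | all i φ ih =>
    intro σ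
    obtain ⟨n, hn⟩ := sat2_local.{v} φ
    obtain ⟨k, -, hk⟩ := calc_fresh σ n
    obtain ⟨ψ, hψ⟩ := ih (Function.update σ i k)
    refine ⟨.all k ψ, fun M E W w => ?_⟩
    unfold Sat2
    refine forall_congr' fun x => ?_
    rw [hψ]
    refine hn M E W _ _ fun j hj => ?_
    by_cases hji : j = i
    · subst hji
      simp
    · rw [Function.comp_apply, Function.update_of_ne hji, Function.update_of_ne (hk j hj),
        Function.update_of_ne hji, Function.comp_apply]

namespace FDef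

variable {P Q : ∀ (M : Type v), (M → M → Prop) → (ℕ → M) → Prop}

theorem congr (h : FDef P) (h' : ∀ M E w, P M E w ↔ Q M E w) : FDef Q := by
  obtain ⟨φ, hφ⟩ := h
  exact ⟨φ, fun M E w => (hφ M E w).trans (h' M E w)⟩

theorem sat (φ : Fml) : FDef fun (M : Type v) E w => Sat E φ w :=
  ⟨φ, fun _ _ _ => Iff.rfl⟩

theorem mem (i j : ℕ) : FDef fun (M : Type v) E w => E (w i) (w j) :=
  ⟨.mem i j, fun _ _ _ => Iff.rfl⟩

theorem eq (i j : ℕ) : FDef fun (M : Type v) _ w => w i = w j :=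
  ⟨.eq i j, fun _ _ _ => Iff.rfl⟩

theorem fls : FDef fun (M : Type v) _ _ => False :=
  ⟨.bot, fun _ _ _ => Iff.rfl⟩

theorem imp (hP : FDef P) (hQ : FDef Q) : FDef fun M E w => P M E w → Q M E w := by
  obtain ⟨φ, hφ⟩ := hP
  obtain ⟨ψ, hψ⟩ := hQ
  refine ⟨.imp φ ψ, fun M E w => ?_⟩
  unfold Sat
  rw [hφ, hψ]

theorem not (hP : FDef P) : FDef fun M E w => ¬ P M E w :=
  hP.imp fls

theorem and (hP : FDef P) (hQ : FDef Q) : FDef fun M E w => P M E w ∧ Q M E w := by
  refine (hP.imp hQ.not).not.congr fun M E w => ?_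
  rw [_root_.not_imp, not_not]

theorem or (hP : FDef P) (hQ : FDef Q) : FDef fun M E w => P M E w ∨ Q M E w := by
  refine (hP.not.imp hQ).congr fun M E w => ?_
  rw [or_iff_not_imp_left]

theorem iff (hP : FDef P) (hQ : FDef Q) : FDef fun M E w => (P M E w ↔ Q M E w) := by
  refine ((hP.imp hQ).and (hQ.imp hP)).congr fun M E w => ?_
  exact iff_def.symm

/-- renaming of variables: induction on the formula for all `σ`; for `all i φ` choose a fresh
variable `k`, larger than all `σ j`, `j` a variable of `φ`, and use `Function.update σ i k` -/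
theorem comp (hP : FDef P) (σ : ℕ → ℕ) : FDef fun M E w => P M E (w ∘ σ) := by
  obtain ⟨φ, hφ⟩ := hP
  obtain ⟨ψ, hψ⟩ := calc_ren.{v} φ σ
  exact ⟨ψ, fun M E w => (hψ M E w).trans (hφ M E _)⟩

/-- a definable property depends on finitely many values only -/
theorem loc (hP : FDef P) : ∃ n : ℕ, ∀ (M : Type v) (E : M → M → Prop) (w w' : ℕ → M),
    (∀ i < n, w i = w' i) → (P M E w ↔ P M E w') := by
  obtain ⟨φ, hφ⟩ := hP
  obtain ⟨n, hn⟩ := sat_local.{v} φ
  refine ⟨n, fun M E w w' h => ?_⟩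
  rw [← hφ, ← hφ]
  exact hn M E w w' h

/-- the quantifier `∀ x_i` -/
theorem allv (hP : FDef P) (i : ℕ) : FDef fun M E w => ∀ x, P M E (Function.update w i x) := by
  obtain ⟨φ, hφ⟩ := hP
  refine ⟨.all i φ, fun M E w => ?_⟩
  unfold Sat
  exact forall_congr' fun x => hφ M E _

/-- rename with `n ↦ n - 1` -/
theorem all (hP : FDef P) : FDef fun M E w => ∀ x, P M E (scons x w) := by
  obtain ⟨n, hn⟩ := hP.loc
  refine ((hP.comp (fun j => if j = 0 then n else j - 1)).allv n).congr fun M E w => ?_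
  refine forall_congr' fun x => hn M E _ _ fun j hj => ?_
  rcases j with _ | j
  · simp
  · rw [Function.comp_apply, if_neg (Nat.succ_ne_zero j), scons_succ, Nat.add_sub_cancel,
      Function.update_of_ne (by omega)]

theorem ex (hP : FDef P) : FDef fun M E w => ∃ x, P M E (scons x w) := by
  refine (hP.not.all).not.congr fun M E w => ?_
  push Not
  rfl

end FDef

namespace FDef2

variable {P Q : ∀ (M : Type v), (M → M → Prop) → (M → Prop) → (ℕ → M) → Prop}

theorem congr (h : FDef2 P) (h' : ∀ M E W w, P M E W w ↔ Q M E W w) : FDef2 Q := by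
  obtain ⟨φ, hφ⟩ := h
  exact ⟨φ, fun M E W w => (hφ M E W w).trans (h' M E W w)⟩

theorem sat (φ : Fml2) : FDef2 fun (M : Type v) E W w => Sat2 E W φ w :=
  ⟨φ, fun _ _ _ _ => Iff.rfl⟩

theorem mem (i j : ℕ) : FDef2 fun (M : Type v) E _ w => E (w i) (w j) :=
  ⟨.mem i j, fun _ _ _ _ => Iff.rfl⟩

theorem eq (i j : ℕ) : FDef2 fun (M : Type v) _ _ w => w i = w j :=
  ⟨.eq i j, fun _ _ _ _ => Iff.rfl⟩

theorem cls (i : ℕ) : FDef2 fun (M : Type v) _ W w => W (w i) :=
  ⟨.cls i, fun _ _ _ _ => Iff.rfl⟩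

theorem fls : FDef2 fun (M : Type v) _ _ _ => False :=
  ⟨.bot, fun _ _ _ _ => Iff.rfl⟩

theorem imp (hP : FDef2 P) (hQ : FDef2 Q) : FDef2 fun M E W w => P M E W w → Q M E W w := by
  obtain ⟨φ, hφ⟩ := hP
  obtain ⟨ψ, hψ⟩ := hQ
  refine ⟨.imp φ ψ, fun M E W w => ?_⟩
  unfold Sat2
  rw [hφ, hψ]

theorem not (hP : FDef2 P) : FDef2 fun M E W w => ¬ P M E W w :=
  hP.imp fls

theorem and (hP : FDef2 P) (hQ : FDef2 Q) : FDef2 fun M E W w => P M E W w ∧ Q M E W w := by
  refine (hP.imp hQ.not).not.congr fun M E W w => ?_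
  rw [_root_.not_imp, not_not]

theorem or (hP : FDef2 P) (hQ : FDef2 Q) : FDef2 fun M E W w => P M E W w ∨ Q M E W w := by
  refine (hP.not.imp hQ).congr fun M E W w => ?_
  rw [or_iff_not_imp_left]

theorem iff (hP : FDef2 P) (hQ : FDef2 Q) : FDef2 fun M E W w => (P M E W w ↔ Q M E W w) := by
  refine ((hP.imp hQ).and (hQ.imp hP)).congr fun M E W w => ?_
  exact iff_def.symm

theorem comp (hP : FDef2 P) (σ : ℕ → ℕ) : FDef2 fun M E W w => P M E W (w ∘ σ) := by
  obtain ⟨φ, hφ⟩ := hP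
  obtain ⟨ψ, hψ⟩ := calc_ren2.{v} φ σ
  exact ⟨ψ, fun M E W w => (hψ M E W w).trans (hφ M E W _)⟩

theorem loc (hP : FDef2 P) : ∃ n : ℕ, ∀ (M : Type v) (E : M → M → Prop) (W : M → Prop)
    (w w' : ℕ → M), (∀ i < n, w i = w' i) → (P M E W w ↔ P M E W w') := by
  obtain ⟨φ, hφ⟩ := hP
  obtain ⟨n, hn⟩ := sat2_local.{v} φ
  refine ⟨n, fun M E W w w' h => ?_⟩
  rw [← hφ, ← hφ]
  exact hn M E W w w' h

/-- the quantifier `∀ x_i` -/
theorem allv (hP : FDef2 P) (i : ℕ) :
    FDef2 fun M E W w => ∀ x, P M E W (Function.update w i x) := by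
  obtain ⟨φ, hφ⟩ := hP
  refine ⟨.all i φ, fun M E W w => ?_⟩
  unfold Sat2
  exact forall_congr' fun x => hφ M E W _

theorem all (hP : FDef2 P) : FDef2 fun M E W w => ∀ x, P M E W (scons x w) := by
  obtain ⟨n, hn⟩ := hP.loc
  refine ((hP.comp (fun j => if j = 0 then n else j - 1)).allv n).congr fun M E W w => ?_
  refine forall_congr' fun x => hn M E W _ _ fun j hj => ?_
  rcases j with _ | j
  · simp
  · rw [Function.comp_apply, if_neg (Nat.succ_ne_zero j), scons_succ, Nat.add_sub_cancel,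
      Function.update_of_ne (by omega)]

theorem ex (hP : FDef2 P) : FDef2 fun M E W w => ∃ x, P M E W (scons x w) := by
  refine (hP.not.all).not.congr fun M E W w => ?_
  push Not
  rfl

end FDef2

/-- a formula without the predicate, as a formula with the predicate -/
theorem calc_emb (φ : Fml) : ∃ ψ : Fml2, ∀ (M : Type v) (E : M → M → Prop) (W : M → Prop)
    (w : ℕ → M), Sat2 E W ψ w ↔ Sat E φ w := by
  induction φ with
  | mem i j => exact ⟨.mem i j, fun _ _ _ _ => Iff.rfl⟩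
  | eq i j => exact ⟨.eq i j, fun _ _ _ _ => Iff.rfl⟩
  | bot => exact ⟨.bot, fun _ _ _ _ => Iff.rfl⟩
  | imp φ ψ ih1 ih2 =>
    obtain ⟨φ', h1⟩ := ih1
    obtain ⟨ψ', h2⟩ := ih2
    refine ⟨.imp φ' ψ', fun M E W w => ?_⟩
    unfold Sat2 Sat
    rw [h1, h2]
  | all i φ ih =>
    obtain ⟨φ', h1⟩ := ih
    refine ⟨.all i φ', fun M E W w => ?_⟩
    unfold Sat2 Sat
    exact forall_congr' fun x => h1 M E W _

/-- relativisation of a formula to the predicate -/
theorem calc_relf (φ : Fml) : ∃ ψ : Fml2, ∀ (M : Type v) (E : M → M → Prop) (W : M → Prop)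
    (w : ℕ → {x // W x}), Sat2 E W ψ (fun i => (w i).1) ↔ Sat (Res E W) φ w := by
  induction φ with
  | mem i j => exact ⟨.mem i j, fun _ _ _ _ => Iff.rfl⟩
  | eq i j =>
    refine ⟨.eq i j, fun M E W w => ?_⟩
    unfold Sat2 Sat
    exact Subtype.ext_iff.symm
  | bot => exact ⟨.bot, fun _ _ _ _ => Iff.rfl⟩
  | imp φ ψ ih1 ih2 =>
    obtain ⟨φ', h1⟩ := ih1
    obtain ⟨ψ', h2⟩ := ih2
    refine ⟨.imp φ' ψ', fun M E W w => ?_⟩
    unfold Sat2 Sat
    rw [h1, h2]
  | all i φ ih =>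
    obtain ⟨φ', h1⟩ := ih
    refine ⟨.all i (.imp (.cls i) φ'), fun M E W w => ?_⟩
    have hu : ∀ x : {x // W x}, Function.update (fun i => (w i).1) i x.1 =
        fun j => (Function.update w i x j).1 := by
      intro x
      funext j
      by_cases hj : j = i
      · subst hj
        rw [Function.update_self, Function.update_self]
      · rw [Function.update_of_ne hj, Function.update_of_ne hj]
    constructor
    · intro h x
      have h2 := h x.1
      rw [Sat2, Sat2, Function.update_self, hu x] at h2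
      exact (h1 M E W _).1 (h2 x.2)
    · intro h x
      rw [Sat2, Sat2, Function.update_self]
      intro hx
      have h2 := hu ⟨x, hx⟩
      rw [show Function.update (fun i => (w i).1) i x = _ from h2]
      exact (h1 M E W _).2 (h ⟨x, hx⟩)

namespace FDef2

/-- a property which does not mention `W` -/
theorem ofDef {P : ∀ (M : Type v), (M → M → Prop) → (ℕ → M) → Prop} (hP : FDef P) :
    FDef2 fun M E _ w => P M E w := by
  obtain ⟨φ, hφ⟩ := hP
  obtain ⟨ψ, hψ⟩ := calc_emb.{v} φ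
  exact ⟨ψ, fun M E W w => (hψ M E W w).trans (hφ M E w)⟩

/-- relativisation to `W` of a property of the value of the variable `0` (all variables get the
same value) -/
theorem rel1 {P : ∀ (M : Type v), (M → M → Prop) → (ℕ → M) → Prop} (hP : FDef P) :
    FDef2 fun M E W w => ∃ h : W (w 0), P {x // W x} (Res E W) (fun _ => ⟨w 0, h⟩) := by
  obtain ⟨φ, hφ⟩ := hP
  obtain ⟨ψ, hψ⟩ := calc_relf.{v} φ
  refine ((cls 0).and ((sat ψ).comp (fun _ => 0))).congr fun M E W w => ?_
  constructor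
  · rintro ⟨h, h1⟩
    exact ⟨h, (hφ _ _ _).1 ((hψ M E W (fun _ => ⟨w 0, h⟩)).1 h1)⟩
  · rintro ⟨h, h1⟩
    exact ⟨h, (hψ M E W (fun _ => ⟨w 0, h⟩)).2 ((hφ _ _ _).2 h1)⟩

/-- relativisation to `W` of a property of the values of the variables `0` and `1` -/
theorem rel2 {P : ∀ (M : Type v), (M → M → Prop) → (ℕ → M) → Prop} (hP : FDef P) :
    FDef2 fun M E W w => ∃ (h : W (w 0)) (h' : W (w 1)),
      P {x // W x} (Res E W) (scons ⟨w 0, h⟩ (fun _ => ⟨w 1, h'⟩)) := by
  obtain ⟨φ, hφ⟩ := hP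
  obtain ⟨ψ, hψ⟩ := calc_relf.{v} φ
  refine ((cls 0).and ((cls 1).and ((sat ψ).comp (fun j => if j = 0 then 0 else 1)))).congr
    fun M E W w => ?_
  have hu : ∀ (h : W (w 0)) (h' : W (w 1)), (w ∘ fun j => if j = 0 then 0 else 1) =
      fun i => ((scons (⟨w 0, h⟩ : {x // W x}) (fun _ => ⟨w 1, h'⟩)) i).1 := by
    intro h h'
    funext j
    rcases j with _ | j
    · rfl
    · simp
  constructor
  · rintro ⟨h, h', h1⟩
    refine ⟨h, h', (hφ _ _ _).1 ((hψ M E W _).1 ?_)⟩
    rw [← hu h h']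
    exact h1
  · rintro ⟨h, h', h1⟩
    refine ⟨h, h', ?_⟩
    rw [hu h h']
    exact (hψ M E W _).2 ((hφ _ _ _).2 h1)

end FDef2

end PK
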