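import Pool.Agent.H92.PK.Defs
import Pool.Agent.H26.BV.Rel

/-!
# CHS: check names for all sets

`VE` is the membership relation of `V = ZFSet.{u}`; `ch B x` is the check name of `x : ZFSet`.
-/

set_option autoImplicit false

universe u v

open Cardinal Order

namespace PK

open BV

/-- the membership relation of `V = ZFSet.{u}` -/
def VE : ZFSet.{u} → ZFSet.{u} → Prop := fun x y => x ∈ y

/-- check names of pre-sets -/
def chP (B : Type u) [CompleteBooleanAlgebra B] : PSet.{u} → BSet B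
  | PSet.mk α A => BSet.mk α (fun a => chP B (A a)) (fun _ => ⊤)

/-- check names of sets -/
noncomputable def ch (B : Type u) [CompleteBooleanAlgebra B] (x : ZFSet.{u}) : BSet B :=
  chP B x.out

variable {B : Type u} [CompleteBooleanAlgebra B]

theorem beq_chP {x y : PSet.{u}} (h : PSet.Equiv x y) : beq (chP B x) (chP B y) = ⊤ := by
  induction x generalizing y with
  | mk α A ih =>
    obtain ⟨β, A'⟩ := y
    rw [chP, chP, beq_mk, eq_top_iff]
    refine le_inf (le_iInf fun a => ?_) (le_iInf fun b => ?_)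
    · rw [top_himp]
      obtain ⟨b, hb⟩ := h.1 a
      refine le_trans ?_ (le_iSup _ b)
      rw [top_inf_eq, ih a hb]
    · rw [top_himp]
      obtain ⟨a, ha⟩ := h.2 b
      refine le_trans ?_ (le_iSup _ a)
      rw [top_inf_eq, ih a ha]

theorem beq_chP_bot {x y : PSet.{u}} (h : ¬ PSet.Equiv x y) :
    beq (chP B x) (chP B y) = ⊥ := by
  induction x generalizing y with
  | mk α A ih =>
    obtain ⟨β, A'⟩ := y
    rw [chP, chP, beq_mk, eq_bot_iff]
    by_cases h1 : ∀ a, ∃ b, PSet.Equiv (A a) (A' b)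
    · by_cases h2 : ∀ b, ∃ a, PSet.Equiv (A a) (A' b)
      · exact absurd ⟨h1, h2⟩ h
      · push Not at h2
        obtain ⟨b, hb⟩ := h2
        refine inf_le_right.trans ((iInf_le _ b).trans ?_)
        rw [top_himp]
        refine iSup_le fun a => ?_
        rw [top_inf_eq, ih a (hb a)]
    · push Not at h1
      obtain ⟨a, ha⟩ := h1
      refine inf_le_left.trans ((iInf_le _ a).trans ?_)
      rw [top_himp]
      refine iSup_le fun b => ?_
      rw [top_inf_eq, ih a (ha b)]

theorem beq_ch_mk (x : PSet.{u}) : beq (ch B (ZFSet.mk x)) (chP B x) = ⊤ :=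
  beq_chP (ZFSet.exact (ZFSet.mk_out (ZFSet.mk x)))

theorem beq_ch_of_ne {x y : ZFSet.{u}} (h : x ≠ y) : beq (ch B x) (ch B y) = ⊥ := by
  refine beq_chP_bot fun h' => h ?_
  rw [← ZFSet.mk_out x, ← ZFSet.mk_out y]
  exact ZFSet.sound h'

/-- equal names can be exchanged -/
theorem chs_beq_right {y y' : BSet B} (h : beq y y' = ⊤) (z : BSet B) : beq z y = beq z y' := by
  apply le_antisymm
  · have h1 := beq_trans z y y'
    rwa [h, inf_top_eq] at h1
  · have h1 := beq_trans z y' y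
    rwa [beq_symm y' y, h, inf_top_eq] at h1

theorem chs_bmem_left {y y' : BSet B} (h : beq y y' = ⊤) (z : BSet B) :
    bmem y z = bmem y' z := by
  apply le_antisymm
  · have h1 := bmem_congr_left y y' z
    rwa [h, top_inf_eq] at h1
  · have h1 := bmem_congr_left y' y z
    rwa [beq_symm y' y, h, top_inf_eq] at h1

theorem chs_bmem_right {y y' : BSet B} (h : beq y y' = ⊤) (z : BSet B) :
    bmem z y = bmem z y' := by
  apply le_antisymm
  · have h1 := bmem_congr_right y y' z
    rwa [h, top_inf_eq] at h1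
  · have h1 := bmem_congr_right y' y z
    rwa [beq_symm y' y, h, top_inf_eq] at h1

theorem chs_ext {y y' : BSet B} (h : beq y y' = ⊤) {f : BSet B → B} (hf : Ext f) :
    f y = f y' := by
  apply le_antisymm
  · have h1 := hf y y'
    rwa [h, top_inf_eq] at h1
  · have h1 := hf y' y
    rwa [beq_symm y' y, h, top_inf_eq] at h1

/-- suprema over the elements of a set and over the index type of a pre-set -/
theorem chs_iSup (y : ZFSet.{u}) (g : ZFSet.{u} → B) (p : PSet.{u}) (hp : ZFSet.mk p = y) :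
    (⨆ i : p.Type, g (ZFSet.mk (p.Func i))) = ⨆ x : {x : ZFSet.{u} // x ∈ y}, g x.1 := by
  subst hp
  apply le_antisymm
  · refine iSup_le fun i => ?_
    exact le_iSup (fun x : {x : ZFSet.{u} // x ∈ ZFSet.mk p} => g x.1)
      ⟨ZFSet.mk (p.Func i), ZFSet.mk_mem_iff.2 (PSet.func_mem p i)⟩
  · refine iSup_le fun x => ?_
    obtain ⟨x, hx⟩ := x
    have h1 : x.out ∈ p := by
      rw [← ZFSet.mk_mem_iff, ZFSet.mk_out]
      exact hx
    obtain ⟨i, hi⟩ := h1
    have h2 : x = ZFSet.mk (p.Func i) := by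
      rw [← ZFSet.mk_out x]
      exact ZFSet.sound hi
    show g x ≤ _
    rw [h2]
    exact le_iSup (fun i : p.Type => g (ZFSet.mk (p.Func i))) i

theorem chs_iInf (y : ZFSet.{u}) (g : ZFSet.{u} → B) (p : PSet.{u}) (hp : ZFSet.mk p = y) :
    (⨅ i : p.Type, g (ZFSet.mk (p.Func i))) = ⨅ x : {x : ZFSet.{u} // x ∈ y}, g x.1 := by
  apply compl_injective
  rw [compl_iInf, compl_iInf]
  exact chs_iSup y (fun x => (g x)ᶜ) p hp

/-- membership in a check name -/
theorem bmem_ch (z : BSet B) (y : ZFSet.{u}) :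
    bmem z (ch B y) = ⨆ x : {x : ZFSet.{u} // x ∈ y}, beq z (ch B x.1) := by
  rw [← chs_iSup y (fun x => beq z (ch B x)) y.out (ZFSet.mk_out y)]
  unfold ch
  rcases hp : y.out with ⟨α, A⟩
  rw [chP, bmem_mk]
  refine iSup_congr fun i => ?_
  rw [top_inf_eq]
  exact (chs_beq_right (beq_ch_mk (A i)) z).symm

theorem bmem_ch_of_mem {x y : ZFSet.{u}} (h : x ∈ y) : bmem (ch B x) (ch B y) = ⊤ := by
  rw [bmem_ch, eq_top_iff, ← beq_refl (ch B x)]
  exact le_iSup (fun z : {x : ZFSet.{u} // x ∈ y} => beq (ch B x) (ch B z.1)) ⟨x, h⟩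

theorem bmem_ch_of_notMem {x y : ZFSet.{u}} (h : x ∉ y) : bmem (ch B x) (ch B y) = ⊥ := by
  rw [bmem_ch, eq_bot_iff]
  refine iSup_le fun z => ?_
  rw [beq_ch_of_ne]
  rintro rfl
  exact h z.2

theorem ch_bex (y : ZFSet.{u}) {f : BSet B → B} (hf : Ext f) :
    (⨆ z, bmem z (ch B y) ⊓ f z) = ⨆ x : {x : ZFSet.{u} // x ∈ y}, f (ch B x.1) := by
  rw [bex _ hf, ← chs_iSup y (fun x => f (ch B x)) y.out (ZFSet.mk_out y)]
  unfold ch
  rcases hp : y.out with ⟨α, A⟩
  rw [chP]
  refine iSup_congr fun i => ?_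
  simp only [BSet.vl, BSet.nm, top_inf_eq]
  exact (chs_ext (beq_ch_mk (A i)) hf).symm

theorem ch_ball (y : ZFSet.{u}) {f : BSet B → B} (hf : Ext f) :
    (⨅ z, bmem z (ch B y) ⇨ f z) = ⨅ x : {x : ZFSet.{u} // x ∈ y}, f (ch B x.1) := by
  rw [ball _ hf, ← chs_iInf y (fun x => f (ch B x)) y.out (ZFSet.mk_out y)]
  unfold ch
  rcases hp : y.out with ⟨α, A⟩
  rw [chP]
  refine iInf_congr fun i => ?_
  simp only [BSet.vl, BSet.nm, top_himp]
  exact (chs_ext (beq_ch_mk (A i)) hf).symm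

/-- the check name of the pre-set of an ordinal -/
theorem chs_toPSet (α : Ordinal.{u}) : chP B α.toPSet = chk B α := by
  induction α using WellFoundedLT.induction with
  | ind α ih =>
    rw [Ordinal.toPSet, chP, chk]
    congr 1
    funext i
    exact ih _ i.toOrd.2

/-- the two check names of an ordinal -/
theorem beq_ch_chk (α : Ordinal.{u}) : beq (ch B α.toZFSet) (chk B α) = ⊤ := by
  rw [← chs_toPSet]
  exact beq_ch_mk _

/-- extensionality for names, from the membership values -/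
theorem chs_eq_of_bmem {x y : BSet B} (h : ∀ z, bmem z x = bmem z y) : beq x y = ⊤ := by
  rw [beq_ext x y, eq_top_iff]
  refine le_inf (le_iInf fun z => ?_) (le_iInf fun z => ?_)
  · rw [h, himp_self]
  · rw [h, himp_self]

/-- unordered pairs of check names -/
theorem chs_upr (x y : ZFSet.{u}) : beq (ch B ({x, y} : ZFSet.{u})) (upr (ch B x) (ch B y)) = ⊤ := by
  apply chs_eq_of_bmem
  intro z
  rw [bmem_ch, bmem_upr]
  apply le_antisymm
  · refine iSup_le fun t => ?_
    obtain ⟨t, ht⟩ := t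
    show beq z (ch B t) ≤ _
    rcases ZFSet.mem_pair.1 ht with h | h
    · rw [h]
      exact le_sup_left
    · rw [h]
      exact le_sup_right
  · refine sup_le ?_ ?_
    · exact le_iSup (fun t : {t : ZFSet.{u} // t ∈ ({x, y} : ZFSet.{u})} => beq z (ch B t.1))
        ⟨x, ZFSet.mem_pair.2 (Or.inl rfl)⟩
    · exact le_iSup (fun t : {t : ZFSet.{u} // t ∈ ({x, y} : ZFSet.{u})} => beq z (ch B t.1))
        ⟨y, ZFSet.mem_pair.2 (Or.inr rfl)⟩

theorem chs_upr_congr {x x' y y' : BSet B} (hx : beq x x' = ⊤) (hy : beq y y' = ⊤) :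
    beq (upr x y) (upr x' y') = ⊤ := by
  apply chs_eq_of_bmem
  intro z
  rw [bmem_upr, bmem_upr, chs_beq_right hx z, chs_beq_right hy z]

/-- ordered pairs of check names -/
theorem beq_ch_pair (x y : ZFSet.{u}) :
    beq (ch B (ZFSet.pair x y)) (opr (ch B x) (ch B y)) = ⊤ := by
  have h1 : beq (ch B (ZFSet.pair x y))
      (upr (ch B ({x} : ZFSet.{u})) (ch B ({x, y} : ZFSet.{u}))) = ⊤ := chs_upr _ _
  have h2 : beq (ch B ({x} : ZFSet.{u})) (upr (ch B x) (ch B x)) = ⊤ := by
    have h3 := chs_upr (B := B) x x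
    rwa [ZFSet.pair_eq_singleton] at h3
  unfold opr
  rw [chs_beq_right (chs_upr_congr h2 (chs_upr x y)) (ch B (ZFSet.pair x y))] at h1
  exact h1

end PK
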