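import Pool.Agent.H92.PK.Coh
import Pool.Agent.H92.PK.Hom

/-!
# CND: conditions: Prikry forcing times finite partial functions
-/

set_option autoImplicit false

universe u v

open Cardinal Order

namespace PK

/-- conditions `(s, T, q)`: a stem, a tree given by large sets of successors of all sequences, a
finite partial function -/
structure Cnd {K : Type u} (V : Ultrafilter K) (X : Type u) where
  s : List K
  T : List K → Set K
  hT : ∀ r, T r ∈ V
  q : Fp X

namespace Cnd

variable {K : Type u} {V : Ultrafilter K} {X : Type u}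

instance : Preorder (Cnd V X) where
  le p' p := ∃ l, p'.s = p.s ++ l ∧ Allowed p.T p.s l ∧ (∀ r, p'.T r ⊆ p.T r) ∧ p'.q ≤ p.q
  le_refl p := ⟨[], by simp, trivial, fun _ => subset_rfl, le_rfl⟩
  le_trans p'' p' p h h' := by
    obtain ⟨l, h1, h2, h3, h4⟩ := h
    obtain ⟨l', h1', h2', h3', h4'⟩ := h'
    refine ⟨l' ++ l, by rw [h1, h1', List.append_assoc], ?_, fun r => (h3 r).trans (h3' r),
      h4.trans h4'⟩
    rw [allowed_append]
    exact ⟨h2', by rw [← h1']; exact h2.mono h3'⟩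

theorem le_def {p' p : Cnd V X} : p' ≤ p ↔
    ∃ l, p'.s = p.s ++ l ∧ Allowed p.T p.s l ∧ (∀ r, p'.T r ⊆ p.T r) ∧ p'.q ≤ p.q := Iff.rfl

/-- the condition with stem `s`, full tree and finite part `q` -/
def top (V : Ultrafilter K) (s : List K) (q : Fp X) : Cnd V X :=
  ⟨s, fun _ => Set.univ, fun _ => Filter.univ_mem, q⟩

theorem allowed_univ (s l : List K) : Allowed (fun _ => Set.univ) s l := by
  induction l generalizing s with
  | nil => trivial
  | cons x l ih => exact ⟨trivial, ih _⟩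

theorem le_top_iff {p : Cnd V X} {s : List K} {q : Fp X} :
    p ≤ top V s q ↔ s <+: p.s ∧ p.q ≤ q := by
  rw [le_def]
  constructor
  · rintro ⟨l, h1, _, _, h4⟩
    exact ⟨⟨l, h1.symm⟩, h4⟩
  · rintro ⟨⟨l, h1⟩, h4⟩
    exact ⟨l, h1.symm, allowed_univ _ _, fun _ => Set.subset_univ _, h4⟩

/-- same stem and compatible finite parts -/
theorem exists_le_le {p p' : Cnd V X} (h : p.s = p'.s) (hq : ∃ r, r ≤ p.q ∧ r ≤ p'.q) :
    ∃ r, r ≤ p ∧ r ≤ p' := by
  obtain ⟨q, h1, h2⟩ := hq
  refine ⟨⟨p.s, fun r => p.T r ∩ p'.T r, fun r => Filter.inter_mem (p.hT r) (p'.hT r), q⟩,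
    ⟨[], by simp, trivial, fun _ => Set.inter_subset_left, h1⟩,
    ⟨[], by simp [h], trivial, fun _ => Set.inter_subset_right, h2⟩⟩

/-- conditions can be extended to stems of any length -/
theorem exists_long (p : Cnd V X) (n : ℕ) : ∃ r, r ≤ p ∧ n ≤ r.s.length ∧ r.q = p.q := by
  obtain ⟨l, h1, h2⟩ := exists_allowed p.hT p.s n
  exact ⟨⟨p.s ++ l, p.T, p.hT, p.q⟩, ⟨l, rfl, h2, fun _ => subset_rfl, le_rfl⟩,
    by simp [h1], rfl⟩

end Cnd

end PK
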