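import Pool.Agent.H92.PK.Beqs

/-!
# CODE: subsets of sets of `V` are definable from `A` and a set of `V`
-/

set_option autoImplicit false

universe u v

open Cardinal Order

namespace PK

open BV

variable {B : Type u} [CompleteBooleanAlgebra B] {lam : Cardinal.{u}}

/-- the sets in `V` of the elements of `Set (Set (lam.ord.ToType))` -/
noncomputable def zs2 (v : Set (Set lam.ord.ToType)) : ZFSet.{u} :=
  ZFSet.range fun z : v => zs (z : Set lam.ord.ToType)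

noncomputable def zs3 (w : Set (Set (Set lam.ord.ToType))) : ZFSet.{u} :=
  ZFSet.range fun v : w => zs2 (v : Set (Set lam.ord.ToType))

/-- Boolean value of `y ⊆ A` -/
noncomputable def codeG (a : lam.ord.ToType → B) (y : BSet B) : B :=
  ⨅ η, bmem η y ⇨ bmem η (nameA a)

/-- Boolean value of `∃ y ∈ v, y ⊆ A` -/
noncomputable def codeF (a : lam.ord.ToType → B) (v : BSet B) : B :=
  ⨆ y, bmem y v ⊓ codeG a y

/-- Boolean value of `∀ v ∈ w, ∃ y ∈ v, y ⊆ A` -/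
noncomputable def codeH (a : lam.ord.ToType → B) (w : BSet B) : B :=
  ⨅ v, bmem v w ⇨ codeF a v

theorem code_extG (a : lam.ord.ToType → B) : Ext (codeG a) :=
  ext_iInf fun η => ext_himp (ext_mem_right η) (ext_const _)

theorem code_extF (a : lam.ord.ToType → B) : Ext (codeF a) :=
  ext_iSup fun y => ext_inf (ext_mem_right y) (ext_const _)

theorem code_extH (a : lam.ord.ToType → B) : Ext (codeH a) :=
  ext_iInf fun v => ext_himp (ext_mem_right v) (ext_const _)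

theorem code_bF (a : lam.ord.ToType → B) (v : Set (Set lam.ord.ToType)) :
    codeF a (ch B (zs2 v)) = ⨆ z ∈ v, ⨅ η ∈ z, a η := by
  unfold codeF
  rw [ch_bex _ (code_extG a)]
  apply le_antisymm
  · refine iSup_le fun x => ?_
    obtain ⟨x, hx⟩ := x
    obtain ⟨z, rfl⟩ := ZFSet.mem_range.1 hx
    refine le_trans (le_of_eq ?_) (le_iSup₂ (f := fun (z : Set lam.ord.ToType) (_ : z ∈ v) =>
      ⨅ η ∈ z, a η) z.1 z.2)
    exact sub_nameA a z.1
  · refine iSup₂_le fun z hz => ?_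
    refine le_trans (le_of_eq ?_) (le_iSup (fun x : {x : ZFSet.{u} // x ∈ zs2 v} =>
      codeG a (ch B x.1)) ⟨zs z, ZFSet.mem_range.2 ⟨⟨z, hz⟩, rfl⟩⟩)
    exact (sub_nameA a z).symm

/-- `⟦∀ v ∈ w, ∃ u ∈ v, u ⊆ A⟧` -/
theorem bval_zs3 (a : lam.ord.ToType → B) (w : Set (Set (Set lam.ord.ToType))) :
    (⨅ v, bmem v (ch B (zs3 w)) ⇨ ⨆ y, bmem y v ⊓ ⨅ η, bmem η y ⇨ bmem η (nameA a)) =
      ⨅ v ∈ w, ⨆ z ∈ v, ⨅ η ∈ z, a η := by
  have h := ch_ball (zs3 w) (code_extF a)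
  refine h.trans ?_
  apply le_antisymm
  · refine le_iInf₂ fun v hv => ?_
    refine le_trans (iInf_le (fun x : {x : ZFSet.{u} // x ∈ zs3 w} =>
      codeF a (ch B x.1)) ⟨zs2 v, ZFSet.mem_range.2 ⟨⟨v, hv⟩, rfl⟩⟩) ?_
    exact le_of_eq (code_bF a v)
  · refine le_iInf fun x => ?_
    obtain ⟨x, hx⟩ := x
    obtain ⟨v, rfl⟩ := ZFSet.mem_range.1 hx
    refine le_trans (iInf₂_le (f := fun (v : Set (Set lam.ord.ToType)) (_ : v ∈ w) =>
      ⨆ z ∈ v, ⨅ η ∈ z, a η) v.1 v.2) ?_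
    exact le_of_eq (code_bF a v.1).symm

/-- the relation which codes a subset of `z` -/
noncomputable def codeQ (z : ZFSet.{u}) (S : ZFSet.{u} → Set (Set (Set (Set lam.ord.ToType)))) :
    ZFSet.{u} :=
  ZFSet.range fun p : (Σ x : {x : ZFSet.{u} // x ∈ z}, {w // w ∈ S x.1}) =>
    ZFSet.pair p.1.1 (zs3 p.2.1)

theorem code_memQ (z : ZFSet.{u}) (S : ZFSet.{u} → Set (Set (Set (Set lam.ord.ToType))))
    (q : ZFSet.{u}) : q ∈ codeQ z S ↔ ∃ x ∈ z, ∃ w ∈ S x, q = ZFSet.pair x (zs3 w) := by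
  unfold codeQ
  rw [ZFSet.mem_range]
  constructor
  · rintro ⟨⟨⟨x, hx⟩, ⟨w, hw⟩⟩, rfl⟩
    exact ⟨x, hx, w, hw, rfl⟩
  · rintro ⟨x, hx, w, hw, rfl⟩
    exact ⟨⟨⟨x, hx⟩, ⟨w, hw⟩⟩, rfl⟩

/-- Boolean value of `⟨x, w⟩ ∈ Q` for `x ∈ z` -/
theorem code_bmemQ (z : ZFSet.{u}) (S : ZFSet.{u} → Set (Set (Set (Set lam.ord.ToType))))
    (x : ZFSet.{u}) (hx : x ∈ z) (w : BSet B) :
    bmem (opr (ch B x) w) (ch B (codeQ z S)) = ⨆ c ∈ S x, beq w (ch B (zs3 c)) := by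
  rw [bmem_ch]
  have key : ∀ (x' : ZFSet.{u}) (c : ZFSet.{u}), beq (opr (ch B x) w) (ch B (ZFSet.pair x' c)) =
      beq (ch B x) (ch B x') ⊓ beq w (ch B c) := by
    intro x' c
    rw [← beq_opr]
    have h1 := beq_ch_pair (B := B) x' c
    apply le_antisymm
    · have h2 := beq_trans (opr (ch B x) w) (ch B (ZFSet.pair x' c)) (opr (ch B x') (ch B c))
      rwa [h1, inf_top_eq] at h2
    · have h2 := beq_trans (opr (ch B x) w) (opr (ch B x') (ch B c)) (ch B (ZFSet.pair x' c))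
      rwa [beq_symm (opr (ch B x') (ch B c)), h1, inf_top_eq] at h2
  apply le_antisymm
  · refine iSup_le fun q => ?_
    obtain ⟨q, hq⟩ := q
    obtain ⟨x', hx', c, hc, rfl⟩ := (code_memQ z S q).1 hq
    show beq (opr (ch B x) w) (ch B (ZFSet.pair x' (zs3 c))) ≤ _
    rw [key]
    by_cases hxx : x = x'
    · subst hxx
      exact le_trans inf_le_right (le_iSup₂ (f := fun (c : Set (Set (Set lam.ord.ToType)))
        (_ : c ∈ S x) => beq w (ch B (zs3 c))) c hc)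
    · rw [beq_ch_of_ne hxx, bot_inf_eq]
      exact bot_le
  · refine iSup₂_le fun c hc => ?_
    refine le_trans (le_of_eq ?_) (le_iSup (fun q : {q : ZFSet.{u} // q ∈ codeQ z S} =>
      beq (opr (ch B x) w) (ch B q.1)) ⟨ZFSet.pair x (zs3 c), (code_memQ z S _).2
        ⟨x, hx, c, hc, rfl⟩⟩)
    show _ = beq (opr (ch B x) w) (ch B (ZFSet.pair x (zs3 c)))
    rw [key, beq_refl, top_inf_eq]

theorem code_bex (a : lam.ord.ToType → B) (z : ZFSet.{u})
    (S : ZFSet.{u} → Set (Set (Set (Set lam.ord.ToType)))) (x : ZFSet.{u}) (hx : x ∈ z) :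
    (⨆ w, bmem (opr (ch B x) w) (ch B (codeQ z S)) ⊓ codeH a w) =
      ⨆ w ∈ S x, ⨅ v ∈ w, ⨆ z ∈ v, ⨅ η ∈ z, a η := by
  apply le_antisymm
  · refine iSup_le fun w => ?_
    rw [code_bmemQ z S x hx, iSup_inf_eq]
    refine iSup_le fun c => ?_
    rw [iSup_inf_eq]
    refine iSup_le fun hc => ?_
    refine le_trans (code_extH a w (ch B (zs3 c))) ?_
    refine le_trans (le_of_eq (bval_zs3 a c)) ?_
    exact le_iSup₂ (f := fun (c : Set (Set (Set lam.ord.ToType)))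
        (_ : c ∈ S x) => ⨅ v ∈ c, ⨆ z ∈ v, ⨅ η ∈ z, a η) c hc
  · refine iSup₂_le fun c hc => ?_
    refine le_trans ?_ (le_iSup _ (ch B (zs3 c)))
    refine le_inf ?_ (le_of_eq (bval_zs3 a c).symm)
    rw [code_bmemQ z S x hx]
    refine le_trans ?_ (le_iSup₂ (f := fun (c' : Set (Set (Set lam.ord.ToType)))
        (_ : c' ∈ S x) => beq (ch B (zs3 c)) (ch B (zs3 c'))) c hc)
    rw [beq_refl]
    exact le_top

/-- Los -/
theorem code_los (a : lam.ord.ToType → B) (U : UF B) (x Q : BSet B) :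
    (⨆ w, bmem (opr x w) Q ⊓ codeH a w) ∈ U ↔
      ∃ w, App (MU.E U) (MU.mk U Q) (MU.mk U x) w ∧ ∀ v, MU.E U v w →
          ∃ t, MU.E U t v ∧ ∀ η, MU.E U η t → MU.E U η (MU.mk U (nameA a)) := by
  refine card_iSup (P := fun U w => App (MU.E U) (MU.mk U Q) (MU.mk U x) w ∧ ∀ v, MU.E U v w →
          ∃ t, MU.E U t v ∧ ∀ η, MU.E U η t → MU.E U η (MU.mk U (nameA a))) (fun U w => ?_) U
  rw [UF.inf_mem_iff, los_app]
  refine and_congr Iff.rfl ?_
  unfold codeH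
  refine card_iInf (P := fun U v => MU.E U v (MU.mk U w) →
          ∃ t, MU.E U t v ∧ ∀ η, MU.E U η t → MU.E U η (MU.mk U (nameA a))) (fun U v => ?_) U
  rw [UF.himp_mem_iff]
  refine imp_congr Iff.rfl ?_
  unfold codeF
  refine card_iSup (P := fun U t => MU.E U t (MU.mk U v) ∧
      ∀ η, MU.E U η t → MU.E U η (MU.mk U (nameA a))) (fun U t => ?_) U
  rw [UF.inf_mem_iff]
  refine and_congr Iff.rfl ?_
  unfold codeG
  refine card_iInf (P := fun U η => MU.E U η (MU.mk U t) → MU.E U η (MU.mk U (nameA a)))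
    (fun U η => ?_) U
  rw [UF.himp_mem_iff]
  exact Iff.rfl

/-- the definable property used below; the values of the variables are `x, y, Q, A` -/
theorem code_def : FDef2 fun (M : Type v) E (_ : M → Prop) w => (E (w 0) (w 1) ↔
    ∃ w', App E (w 2) (w 0) w' ∧ ∀ v, E v w' → ∃ t, E t v ∧ ∀ η, E η t → E η (w 3)) := by
  have h := FDef.iff (FDef.mem.{v} 0 1) (FDef.ex (FDef.and (def_app.{v} 3 1 0) (FDef.all
    (FDef.imp (FDef.mem.{v} 0 1) (FDef.ex (FDef.and (FDef.mem.{v} 0 1) (FDef.all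
      (FDef.imp (FDef.mem.{v} 0 1) (FDef.mem.{v} 0 7)))))))))
  exact FDef2.ofDef h

/-- For a name `y` and `z ∈ V` take `Q = {⟨x, w⟩ : x ∈ z, w ∈ S x}` with
`⟦x ∈ y⟧ = ⨆ w ∈ S x, ⨅ v ∈ w, ⨆ u ∈ v, ⨅ η ∈ u, a η`. First for check names `x`, then by
`ball_ch`. -/
theorem exists_code (a : lam.ord.ToType → B)
    (gen : ∀ b : B, ∃ S : Set (Set (Set (Set lam.ord.ToType))),
      b = ⨆ w ∈ S, ⨅ v ∈ w, ⨆ z ∈ v, ⨅ η ∈ z, a η)
    (y : BSet B) (z : ZFSet.{u}) : ∃ Q : ZFSet.{u}, ∀ (U : UF B) (x : MU U),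
      MU.E U x (jV U z).1 → (MU.E U x (MU.mk U y) ↔
        ∃ w, App (MU.E U) (jV U Q).1 x w ∧ ∀ v, MU.E U v w →
          ∃ t, MU.E U t v ∧ ∀ η, MU.E U η t → MU.E U η (MU.mk U (nameA a))) := by
  choose S hS using fun x : ZFSet.{u} => gen (bmem (ch B x) y)
  refine ⟨codeQ z S, fun U x hx => ?_⟩
  refine ball_ch code_def (scons y (scons (ch B (codeQ z S)) fun _ => nameA a)) z ?_ U x hx
  intro U x hx
  show MU.E U (MU.mk U (ch B x)) (MU.mk U y) ↔
    ∃ w, App (MU.E U) (MU.mk U (ch B (codeQ z S))) (MU.mk U (ch B x)) w ∧ ∀ v, MU.E U v w →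
      ∃ t, MU.E U t v ∧ ∀ η, MU.E U η t → MU.E U η (MU.mk U (nameA a))
  rw [← code_los, code_bex a z S x hx, ← hS x]
  exact Iff.rfl

end PK
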