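import Mathlib

/-!
# COH: finite partial functions to `Bool`
-/

set_option autoImplicit false

universe u v

open Cardinal Order

namespace PK

/-- finite partial functions from `X` to `Bool`, ordered by reverse inclusion -/
def Fp (X : Type u) : Type u := {q : X → Option Bool // {x | q x ≠ none}.Finite}

namespace Fp

variable {X : Type u}

instance : Preorder (Fp X) where
  le q' q := ∀ x b, q.1 x = some b → q'.1 x = some b
  le_refl _ _ _ h := h
  le_trans _ _ _ h h' x b hx := h x b (h' x b hx)

/-- the empty condition -/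
def emp : Fp X := ⟨fun _ => none, by simp⟩

theorem le_emp (q : Fp X) : q ≤ emp := by
  intro x b h
  simp [emp] at h

/-- if two conditions do not contradict each other, they have a common extension -/
theorem exists_le_le (q q' : Fp X)
    (h : ∀ x b b', q.1 x = some b → q'.1 x = some b' → b = b') : ∃ r, r ≤ q ∧ r ≤ q' := by
  classical
  refine ⟨⟨fun x => if q.1 x = none then q'.1 x else q.1 x, ?_⟩, ?_, ?_⟩
  · refine (q.2.union q'.2).subset ?_
    intro x hx
    by_cases h1 : q.1 x = none
    · right
      simpa [h1] using hx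
    · left
      exact h1
  · intro x b hb
    show (if q.1 x = none then q'.1 x else q.1 x) = some b
    rw [if_neg (by rw [hb]; simp), hb]
  · intro x b hb
    show (if q.1 x = none then q'.1 x else q.1 x) = some b
    by_cases h1 : q.1 x = none
    · rw [if_pos h1, hb]
    · rw [if_neg h1]
      obtain ⟨c, hc⟩ := Option.ne_none_iff_exists'.mp h1
      rw [hc, h x c b hc hb]

/-- a condition can be extended at a new point -/
theorem exists_ext (q : Fp X) (x : X) (b : Bool) (h : q.1 x = none) :
    ∃ r, r ≤ q ∧ r.1 x = some b ∧ ∀ y, y ≠ x → r.1 y = q.1 y := by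
  classical
  refine ⟨⟨Function.update q.1 x (some b), ?_⟩, ?_, ?_, ?_⟩
  · refine (q.2.insert x).subset ?_
    intro y hy
    by_cases h1 : y = x
    · exact Or.inl h1
    · right
      simpa [Function.update_of_ne h1] using hy
  · intro y c hy
    show Function.update q.1 x (some b) y = some c
    have h1 : y ≠ x := by
      rintro rfl
      rw [h] at hy
      simp at hy
    rw [Function.update_of_ne h1, hy]
  · show Function.update q.1 x (some b) x = some b
    simp
  · intro y hy
    show Function.update q.1 x (some b) y = q.1 y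
    rw [Function.update_of_ne hy]

/-- pairwise incompatible conditions with domains of size `n`: at most `2 ^ n`, since on a common
finite domain of size `N` each has `2 ^ (N - n)` total extensions -/
theorem card_antichain (n : ℕ) (s : Finset (Fp X)) (hn : ∀ q ∈ s, q.2.toFinset.card = n)
    (hs : ∀ q ∈ s, ∀ q' ∈ s, q ≠ q' → ¬ ∃ r, r ≤ q ∧ r ≤ q') : s.card ≤ 2 ^ n := by
  classical
  set D : Finset X := s.biUnion (fun q => q.2.toFinset) with hD
  -- total extensions
  set T : Fp X → Finset (D → Bool) := fun q =>
    Finset.univ.filter (fun g => ∀ (x : D) (b : Bool), q.1 x = some b → g x = b) with hT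
  have hsub : ∀ q ∈ s, ∀ x, q.1 x ≠ none → x ∈ D := by
    intro q hq x hx
    rw [hD, Finset.mem_biUnion]
    exact ⟨q, hq, by simpa using hx⟩
  have hdisj : (s : Set (Fp X)).PairwiseDisjoint T := by
    intro q hq q' hq' hne
    rw [Function.onFun, Finset.disjoint_left]
    intro g hg hg'
    rw [hT] at hg hg'
    simp only [Finset.mem_filter, Finset.mem_univ, true_and] at hg hg'
    refine hs q hq q' hq' hne (exists_le_le q q' ?_)
    intro x b b' hb hb'
    have hx : x ∈ D := hsub q hq x (by rw [hb]; simp)
    rw [← hg ⟨x, hx⟩ b hb, ← hg' ⟨x, hx⟩ b' hb']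
  have hcard : ∀ q ∈ s, Fintype.card (D → Bool) ≤ (T q).card * 2 ^ n := by
    intro q hq
    have e : (T q).card * 2 ^ n = Fintype.card ((T q) × (q.2.toFinset → Bool)) := by
      rw [Fintype.card_prod, Fintype.card_coe, Fintype.card_fun, Fintype.card_bool,
        Fintype.card_coe, hn q hq]
    rw [e]
    have hmem : ∀ g : D → Bool, (fun x : D => (q.1 x).getD (g x)) ∈ T q := by
      intro g
      rw [hT]
      simp only [Finset.mem_filter, Finset.mem_univ, true_and]
      intro x b hb
      rw [hb]; rfl
    refine Fintype.card_le_of_injective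
      (fun g : D → Bool => ((⟨fun x : D => (q.1 x).getD (g x), hmem g⟩ : T q),
        fun x : q.2.toFinset => g ⟨x.1, hsub q hq x.1 ((Set.Finite.mem_toFinset _).mp x.2)⟩)) ?_
    intro g g' hgg
    simp only [Prod.mk.injEq, Subtype.mk.injEq] at hgg
    funext x
    by_cases hx : q.1 x = none
    · have h1 := congrFun hgg.1 x
      simpa [hx] using h1
    · have h2 := congrFun hgg.2 ⟨x.1, by simpa using hx⟩
      exact h2
  have h1 : s.card * Fintype.card (D → Bool) ≤ Fintype.card (D → Bool) * 2 ^ n := by
    calc s.card * Fintype.card (D → Bool) = ∑ q ∈ s, Fintype.card (D → Bool) := by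
          rw [Finset.sum_const, smul_eq_mul]
      _ ≤ ∑ q ∈ s, (T q).card * 2 ^ n := Finset.sum_le_sum hcard
      _ = (s.biUnion T).card * 2 ^ n := by
          rw [Finset.card_biUnion hdisj, Finset.sum_mul]
      _ ≤ Fintype.card (D → Bool) * 2 ^ n := Nat.mul_le_mul_right _ (Finset.card_le_univ _)
  rw [mul_comm] at h1
  exact Nat.le_of_mul_le_mul_left h1 Fintype.card_pos

/-- the countable chain condition, for indexed families -/
theorem ccc {I : Type v} (f : I → Fp X) (hI : ℵ₀ < #I) :
    ∃ i j, i ≠ j ∧ ∃ r, r ≤ f i ∧ r ≤ f j := by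
  classical
  by_contra hcon
  push Not at hcon
  have hinc : ∀ i j, i ≠ j → ¬ ∃ r, r ≤ f i ∧ r ≤ f j := by
    rintro i j hij ⟨r, h1, h2⟩
    exact hcon i j hij r h1 h2
  have hinj : Function.Injective f := by
    intro i j hij
    by_contra hne
    exact hinc i j hne ⟨f i, le_refl _, hij ▸ le_refl _⟩
  have hex : ∃ n : ℕ, {i : I | (f i).2.toFinset.card = n}.Infinite := by
    by_contra hno
    push Not at hno
    have hc : (Set.univ : Set I).Countable := by
      have e : (Set.univ : Set I) = ⋃ n : ℕ, {i : I | (f i).2.toFinset.card = n} := by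
        ext i
        simp
      rw [e]
      exact Set.countable_iUnion (fun n => (Set.not_infinite.mp (by simpa using hno n)).countable)
    have h2 : #I ≤ ℵ₀ := by
      rw [Cardinal.mk_le_aleph0_iff]
      exact Set.countable_univ_iff.mp hc
    exact absurd hI (not_lt.mpr h2)
  obtain ⟨n, hn⟩ := hex
  obtain ⟨t, ht, htc⟩ := hn.exists_subset_card_eq (2 ^ n + 1)
  have h := card_antichain n (t.image f) ?_ ?_
  · rw [Finset.card_image_of_injective _ hinj, htc] at h
    omega
  · intro q hq
    obtain ⟨i, hi, rfl⟩ := Finset.mem_image.mp hq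
    exact ht hi
  · intro q hq q' hq' hne
    obtain ⟨i, hi, rfl⟩ := Finset.mem_image.mp hq
    obtain ⟨j, hj, rfl⟩ := Finset.mem_image.mp hq'
    exact hinc i j (fun h => hne (h ▸ rfl))

theorem mk_le (hX : ℵ₀ ≤ #X) : #(Fp X) ≤ #X := by
  classical
  have : Infinite X := Cardinal.infinite_iff.mpr hX
  have hfin : ∀ q : Fp X, {p : X × Bool | q.1 p.1 = some p.2}.Finite := by
    intro q
    refine (q.2.prod (Set.finite_univ : (Set.univ : Set Bool).Finite)).subset ?_
    rintro ⟨x, b⟩ h
    refine ⟨?_, Set.mem_univ _⟩
    show q.1 x ≠ none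
    have h' : q.1 x = some b := h
    rw [h']; simp
  have hinj : Function.Injective (fun q : Fp X => (hfin q).toFinset) := by
    intro q q' h
    have h1 : ∀ x b, q.1 x = some b ↔ q'.1 x = some b := by
      intro x b
      have := Finset.ext_iff.mp h (x, b)
      simpa using this
    apply Subtype.ext
    funext x
    apply Option.ext
    intro b
    exact h1 x b
  calc #(Fp X) ≤ #(Finset (X × Bool)) := Cardinal.mk_le_of_injective hinj
    _ = #(X × Bool) := Cardinal.mk_finset_of_infinite _
    _ = #X * 2 := by simp [Cardinal.mk_prod]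
    _ ≤ #X * #X := by
        gcongr
        exact (Cardinal.nat_lt_aleph0 2).le.trans hX
    _ = #X := Cardinal.mul_eq_self hX

end Fp

end PK
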