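import Pool.Agent.H92.PK.CovS

/-!
# COVL: functions into `c⁺`, `κ ≤ c`
-/

set_option autoImplicit false

universe u v

open Cardinal Order

namespace PK

open BV

variable {K : Type u} {κ : Cardinal.{u}} {V : Ultrafilter K} {X B : Type u}
  [CompleteBooleanAlgebra B] {e : Cnd V X → B}

/-- There are `κ` stems and for each of them countably many possible values (`countable_values`),
so at most `c` possible values of all `R ξ`, `ξ < β`. Take `b' = b`. -/
theorem cov_large (hK : #K = κ) (h0 : ℵ₀ < κ) (he : DenseEmb (Cnd V X) B e) {c : Cardinal.{u}}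
    (hc : κ ≤ c) : Cov B (succ c) := by
  intro β hβ R hR b hb
  have hc0 : ℵ₀ ≤ c := h0.le.trans hc
  have hβc : β.card ≤ c := lt_succ_iff.1 hβ
  have hKinf : Infinite K := by
    rw [infinite_iff, hK]
    exact h0.le
  have hι : #(β.ToType × List K) ≤ c := by
    rw [mk_prod, lift_id, lift_id, mk_toType, mk_list_eq_mk, hK]
    calc β.card * κ ≤ c * c := mul_le_mul' hβc hc
      _ = c := mul_eq_self hc0
  obtain ⟨x, hx⟩ := covs_bound hc0 hι
    (fun i : β.ToType × List K => covsF e β (succ c) R i.2 i.1)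
    (fun i => covsF_countable he hR _ _)
  refine ⟨b, le_rfl, hb, (x.toOrd : Ordinal), x.toOrd.2, ?_⟩
  intro ξ hξ α hxα hα
  by_contra hne
  obtain ⟨p, hp⟩ := he.dense _ hne
  have hne2 : e p ⊓ R ξ α ≠ ⊥ := by
    rw [inf_eq_left.2 (hp.trans inf_le_right)]
    exact he.ne_bot p
  obtain ⟨q, hq, hmem⟩ := covs_mem he hξ hα hne2
  have h2 := hx (Ordinal.ToType.mk ⟨ξ, hξ⟩, q.s) _ hmem
  have h3 : (((Ordinal.ToType.mk ⟨α, hα⟩ : (succ c).ord.ToType).toOrd : Ordinal.{u})) <
      (x.toOrd : Ordinal.{u}) := by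
    exact (Ordinal.ToType.mk (o := (succ c).ord)).symm.strictMono h2
  simp only [OrderIso.symm_apply_apply] at h3
  exact absurd hxα (not_le.2 h3)

end PK
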