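import Pool.Agent.H92.PK.Cnd
import Pool.Agent.H92.PK.Pres

/-!
# COVS: functions into `c⁺`, `c < κ`
-/

set_option autoImplicit false

universe u v

open Cardinal Order

namespace PK

open BV

variable {K : Type u} {κ : Cardinal.{u}} {V : Ultrafilter K} {X B : Type u}
  [CompleteBooleanAlgebra B] {e : Cnd V X → B}

/-- possible values of `R ξ` for a given stem: a countable set, as two conditions with the same
stem and compatible finite parts have a common extension -/
theorem countable_values (he : DenseEmb (Cnd V X) B e) (R : Ordinal.{u} → B)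
    (hR : ∀ α α', α ≠ α' → R α ⊓ R α' = ⊥) (s : List K) :
    {α : Ordinal.{u} | ∃ p : Cnd V X, p.s = s ∧ e p ≤ R α}.Countable := by
  by_contra h
  have h1 : ℵ₀ < #{α : Ordinal.{u} | ∃ p : Cnd V X, p.s = s ∧ e p ≤ R α} := by
    by_contra h2
    push Not at h2
    exact h (Cardinal.le_aleph0_iff_set_countable.1 h2)
  choose p hp1 hp2 using fun α : {α : Ordinal.{u} | ∃ p : Cnd V X, p.s = s ∧ e p ≤ R α} => α.2
  obtain ⟨i, j, hij, hr⟩ := Fp.ccc (fun α => (p α).q) h1
  obtain ⟨r, hri, hrj⟩ := Cnd.exists_le_le (p := p i) (p' := p j) (by rw [hp1, hp1]) hr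
  apply he.ne_bot r
  rw [← le_bot_iff, ← hR i j (fun h => hij (Subtype.ext h))]
  exact le_inf ((he.mono _ _ hri).trans (hp2 i)) ((he.mono _ _ hrj).trans (hp2 j))

/-- few countable sets are bounded in `c⁺` -/
theorem covs_bound {c : Cardinal.{u}} (hc : ℵ₀ ≤ c) {ι : Type u} (hι : #ι ≤ c)
    (S : ι → Set ((succ c).ord.ToType)) (hS : ∀ i, (S i).Countable) :
    ∃ x : (succ c).ord.ToType, ∀ i, ∀ y ∈ S i, y < x := by
  have hreg : (succ c).IsRegular := isRegular_succ hc
  have h1 : #(⋃ i, S i) < succ c := by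
    rw [card_iUnion_lt_iff_forall_of_isRegular hreg (lt_of_le_of_lt hι (lt_succ c))]
    intro i
    exact lt_of_le_of_lt ((Cardinal.le_aleph0_iff_set_countable.2 (hS i)).trans hc) (lt_succ c)
  have h2 : ¬ IsCofinal (⋃ i, S i) := by
    intro h
    have h3 := Order.cof_le h
    rw [Ordinal.cof_toType, hreg.cof_ord] at h3
    exact absurd h1 (not_lt.2 h3)
  rw [IsCofinal] at h2
  push Not at h2
  obtain ⟨x, hx⟩ := h2
  exact ⟨x, fun i y hy => hx y (Set.mem_iUnion.2 ⟨i, hy⟩)⟩

/-- the possible values of `R` at `ξ` with the stem `r` -/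
def covsF (e : Cnd V X → B) (β : Ordinal.{u}) (χ : Cardinal.{u}) (R : Ordinal.{u} → Ordinal.{u} → B)
    (r : List K) (ξ : β.ToType) : Set χ.ord.ToType :=
  {α | ∃ p : Cnd V X, p.s = r ∧ e p ≤ R (ξ.toOrd : Ordinal) (α.toOrd : Ordinal)}

theorem covsF_countable (he : DenseEmb (Cnd V X) B e) {β : Ordinal.{u}} {χ : Cardinal.{u}}
    {R : Ordinal.{u} → Ordinal.{u} → B} (hR : ∀ ξ α α', α ≠ α' → R ξ α ⊓ R ξ α' = ⊥)
    (r : List K) (ξ : β.ToType) : (covsF e β χ R r ξ).Countable := by
  have h := countable_values he (R (ξ.toOrd : Ordinal)) (hR _) r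
  have hinj : Function.Injective (fun α : χ.ord.ToType => (α.toOrd : Ordinal.{u})) := by
    intro α α' h
    exact (Ordinal.ToType.mk (o := χ.ord)).symm.injective (Subtype.ext h)
  exact Set.Countable.preimage_of_injOn h hinj.injOn

theorem covs_mem (he : DenseEmb (Cnd V X) B e) {β : Ordinal.{u}} {χ : Cardinal.{u}}
    {R : Ordinal.{u} → Ordinal.{u} → B} {p : Cnd V X} {ξ α : Ordinal.{u}} (hξ : ξ < β)
    (hα : α < χ.ord) (h : e p ⊓ R ξ α ≠ ⊥) :
    ∃ q, q ≤ p ∧ Ordinal.ToType.mk ⟨α, hα⟩ ∈ covsF e β χ R q.s (Ordinal.ToType.mk ⟨ξ, hξ⟩) := by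
  obtain ⟨q, hq, hqR⟩ := he.exists_le_of_inf_ne_bot h
  refine ⟨q, hq, q, rfl, ?_⟩
  simpa using hqR

/-- Let `e p ≤ b`. For a stem `r` let `F r : β → Set (succ c).ord` be the function which maps `ξ`
to the set of possible values of `R ξ` at the stem `r`. There are less than `κ` such functions
(`two_power_lt`), so `exists_hom` gives a tree `T'` on which `F (p.s ++ l)` depends on the length of
`l` only. Take `b' = e (p.s, T', p.q)`. The union over `ξ < β` and all lengths of these countable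
sets has at most `c` elements, so it is bounded in `(succ c).ord`. -/
theorem cov_small (hV : IsMeas κ V) (hK : #K = κ) (h0 : ℵ₀ < κ)
    (he : DenseEmb (Cnd V X) B e) {c : Cardinal.{u}} (hc : ℵ₀ ≤ c) (hcκ : c < κ) :
    Cov B (succ c) := by
  intro β hβ R hR b hb
  obtain ⟨p, hp⟩ := he.dense b hb
  have hβc : β.card ≤ c := lt_succ_iff.1 hβ
  have hsc : succ c < κ := lt_of_le_of_lt (succ_le_of_lt (cantor c)) (hV.two_power_lt hK hcκ)
  have hY : #(β.ToType → Set ((succ c).ord.ToType)) < κ := by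
    rw [← power_def, mk_set, mk_toType, card_ord, mk_toType, ← power_mul]
    refine lt_of_le_of_lt (power_le_power_left two_ne_zero ?_) (hV.two_power_lt hK hsc)
    calc succ c * β.card ≤ succ c * succ c := mul_le_mul' le_rfl hβ.le
      _ = succ c := mul_eq_self (hc.trans (le_succ c))
  obtain ⟨T', hT', hsub, hhom⟩ := exists_hom hV h0 hY
    (fun r => covsF e β (succ c) R r) p.T p.hT p.s
  choose l hl hal using fun n => exists_allowed hT' p.s n
  let p' : Cnd V X := ⟨p.s, T', hT', p.q⟩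
  have hp' : p' ≤ p := ⟨[], by simp [p'], trivial, hsub, le_rfl⟩
  have hι : #(β.ToType × ULift.{u} ℕ) ≤ c := by
    rw [mk_prod, lift_id, lift_id, mk_toType, mk_uLift, mk_nat, lift_aleph0]
    calc β.card * ℵ₀ ≤ c * c := mul_le_mul' hβc hc
      _ = c := mul_eq_self hc
  obtain ⟨x, hx⟩ := covs_bound hc hι
    (fun i : β.ToType × ULift.{u} ℕ => covsF e β (succ c) R (p.s ++ l i.2.down) i.1)
    (fun i => covsF_countable he hR _ _)
  refine ⟨e p', (he.mono _ _ hp').trans hp, he.ne_bot p', (x.toOrd : Ordinal), x.toOrd.2, ?_⟩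
  intro ξ hξ α hxα hα
  by_contra hne
  obtain ⟨q, hq, hmem⟩ := covs_mem he hξ hα hne
  obtain ⟨l', hl1, hl2, _, _⟩ := hq
  have h1 : covsF e β (succ c) R q.s = covsF e β (succ c) R (p.s ++ l l'.length) := by
    rw [hl1]
    exact hhom l' (l l'.length) hl2 (hal _) (hl _).symm
  rw [h1] at hmem
  have h2 := hx (Ordinal.ToType.mk ⟨ξ, hξ⟩, ⟨l'.length⟩) _ hmem
  have h3 : (((Ordinal.ToType.mk ⟨α, hα⟩ : (succ c).ord.ToType).toOrd : Ordinal.{u})) <
      (x.toOrd : Ordinal.{u}) := by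
    exact (Ordinal.ToType.mk (o := (succ c).ord)).symm.strictMono h2
  simp only [OrderIso.symm_apply_apply] at h3
  exact absurd hxα (not_le.2 h3)

end PK
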