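import Pool.Agent.H26.BV.Stmt

/-!
# Definitions for the statement: inner models, GCH, `H(λ⁺)`, `H(λ⁺)[A]`

`(M, E)` is a structure for the language of set theory. The notions `IsZFC`, `App`, `IsTrans`,
`IsOrd`, `InjOn`, `InfCard`, `IsSuccCard`, `HasCard`, `Sat`, `Fml` are those of
`Pool.Agent.H26.BV.Defs` and `Stmt`.
-/

set_option autoImplicit false

universe u v

open Cardinal Order

namespace PK

open BV

/-- bounded formulas: all quantifiers are of the form `∀ x_i ∈ x_j` -/
inductive Bdd : Fml → Prop
  | mem (i j : ℕ) : Bdd (.mem i j)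
  | eq (i j : ℕ) : Bdd (.eq i j)
  | bot : Bdd .bot
  | imp {φ ψ : Fml} : Bdd φ → Bdd ψ → Bdd (.imp φ ψ)
  | all {φ : Fml} (i j : ℕ) (h : i ≠ j) : Bdd φ → Bdd (.all i (.imp (.mem i j) φ))

variable {M : Type v}

/-- the substructure of `(M, E)` whose domain is the class `W` -/
def Res (E : M → M → Prop) (W : M → Prop) : {x // W x} → {x // W x} → Prop :=
  fun x y => E x.1 y.1

/-- the class `W` is an inner model of ZFC of `(M, E)`: it is transitive, contains all ordinals of
`(M, E)` and satisfies ZFC -/
structure IsInner (E : M → M → Prop) (W : M → Prop) : Prop where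
  trans : ∀ x y, W x → E y x → W y
  ord : ∀ x, IsOrd E x → W x
  zfc : IsZFC (Res E W)

/-- `p` is the power set of `x` -/
def IsPow (E : M → M → Prop) (p x : M) : Prop := ∀ z, E z p ↔ ∀ t, E t z → E t x

/-- the generalised continuum hypothesis holds in `(M, E)` -/
def IsGCH (E : M → M → Prop) : Prop :=
  ∀ κ κ' p, InfCard E κ → IsSuccCard E κ κ' → IsPow E p κ → HasCard E κ' p

/-- the restriction of `f` to `β` is a function from `β` to `δ` with unbounded range -/
def CofMap (E : M → M → Prop) (f β δ : M) : Prop :=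
  (∀ x, E x β → ∃ y, E y δ ∧ App E f x y) ∧
  (∀ x y y', E x β → App E f x y → App E f x y' → y = y') ∧
  ∀ z, E z δ → ∃ x y, E x β ∧ App E f x y ∧ (E z y ∨ z = y)

/-- `w` is the least infinite cardinal `ω` -/
def IsOmega (E : M → M → Prop) (w : M) : Prop := InfCard E w ∧ ∀ x, E x w → ¬ InfCard E x

/-- `l` is a singular cardinal of uncountable cofinality -/
def IsSingUnc (E : M → M → Prop) (l : M) : Prop :=
  InfCard E l ∧ (∃ β f, E β l ∧ CofMap E f β l) ∧ ∀ w f, IsOmega E w → ¬ CofMap E f w l

/-- `x ∈ H(l⁺)`: `x` is contained in a transitive set which injects into the cardinal `l` -/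
def InH (E : M → M → Prop) (l x : M) : Prop :=
  ∃ t, IsTrans E t ∧ (∀ y, E y x → E y t) ∧ ∃ g, InjOn E g (fun y => E y t) (fun y => E y l)

/-- `K` is a transitive class which satisfies separation for bounded formulas -/
structure IsSetModel (E : M → M → Prop) (K : M → Prop) : Prop where
  trans : ∀ x y, K x → E y x → K y
  sep : ∀ φ, Bdd φ → ∀ w : ℕ → M, (∀ i, K (w i)) → ∀ a b, K a →
    (∀ x, E x b ↔ E x a ∧ Sat E φ (Function.update w 0 x)) → K b

/-- `x` belongs to every transitive class which satisfies separation for bounded formulas and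
contains all elements of the class `H` and the set `A`: then `x` belongs to the smallest model of
set theory which contains `H` and `A` -/
def InAdj (E : M → M → Prop) (H : M → Prop) (A x : M) : Prop :=
  ∀ K : M → Prop, IsSetModel E K → (∀ y, H y → K y) → K A → K x

/-- `(M, E)` is `V[A]` for the class `V = W` and the set `A ⊆ l`, where `V` satisfies ZFC and GCH,
`l` is a singular cardinal of uncountable cofinality in `V`, all cardinals of `V` are cardinals of
`V[A]`, and `H^V(l⁺)[A]` contains more than `l` reals. -/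
structure IsExample (E : M → M → Prop) (W : M → Prop) (l A : M) : Prop where
  zfc : IsZFC E
  inner : IsInner E W
  gch : IsGCH (Res E W)
  mem : W l
  sing : IsSingUnc (Res E W) ⟨l, mem⟩
  sub : ∀ x, E x A → E x l
  least : ∀ K : M → Prop, IsInner E K → (∀ x, W x → K x) → K A → ∀ x, K x
  card : ∀ x (hx : W x), InfCard (Res E W) ⟨x, hx⟩ → InfCard E x
  reals : ∃ R,
    (∀ x, E x R → (∀ w, IsOmega E w → ∀ z, E z x → E z w) ∧
      InAdj E (fun y => ∃ h : W y, InH (Res E W) ⟨l, mem⟩ ⟨y, h⟩) A x) ∧
    ∀ f, ¬ InjOn E f (fun x => E x R) (fun y => E y l)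

end PK
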