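import Pool.Agent.H92.PK.GenA

/-!
# DISTA: the reals `r_i` are pairwise different
-/

set_option autoImplicit false

universe u v

open Cardinal Order

namespace PK

open BV

variable {K : Type u} {κ : Cardinal.{u}} {V : Ultrafilter K} {B L Y I : Type u}
  [CompleteBooleanAlgebra B]

/-- codes of the pairs `(s, q)` such that `k = ⟨n, m⟩`, `n < s.length` and `q (H i (s n), m) = 1` -/
def DA (cA : List K × Fp (Y × ℕ) → L) (H : I → K → Y) (i : I) (k : ℕ) : Set (Set L) :=
  {z | ∃ (s : List K) (q : Fp (Y × ℕ)) (x : K), s[k.unpair.1]? = some x ∧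
    q.1 (H i x, k.unpair.2) = some true ∧ z = {cA (s, q)}}

theorem bD_DA {e : Cnd V (Y × ℕ) → B} {cA : List K × Fp (Y × ℕ) → L}
    (hc : Function.Injective cA) (H : I → K → Y) (i : I) (k : ℕ) :
    bD (aA e cA) (DA cA H i k) = ⨆ x : {x : List K × Fp (Y × ℕ) //
      ∃ t, x.1[k.unpair.1]? = some t ∧ x.2.1 (H i t, k.unpair.2) = some true},
      e (Cnd.top V x.1.1 x.1.2) := by
  unfold bD
  apply le_antisymm
  · refine iSup₂_le fun z hz => ?_
    obtain ⟨s, q, x, h1, h2, rfl⟩ := hz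
    refine (iInf₂_le (cA (s, q)) (Set.mem_singleton _)).trans ?_
    rw [aA_code hc]
    exact le_iSup (fun x : {x : List K × Fp (Y × ℕ) //
      ∃ t, x.1[k.unpair.1]? = some t ∧ x.2.1 (H i t, k.unpair.2) = some true} =>
      e (Cnd.top V x.1.1 x.1.2)) ⟨(s, q), x, h1, h2⟩
  · refine iSup_le fun x => ?_
    obtain ⟨⟨s, q⟩, t, h1, h2⟩ := x
    refine le_trans ?_ (le_iSup₂ (f := fun (z : Set L) (_ : z ∈ DA cA H i k) =>
      ⨅ η ∈ z, aA e cA η) {cA (s, q)} ⟨s, q, t, h1, h2, rfl⟩)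
    refine le_iInf₂ fun η hη => ?_
    rw [Set.mem_singleton_iff.1 hη, aA_code hc]

/-- Given `p`, let `n = p.s.length`, choose `x ∈ p.T p.s` with `H i x ≠ H j x` (a large set), `m`
such that `p.q` is not defined at `(H i x, m)` and `(H j x, m)`, and extend `p` by `x` and the
values `1` at `(H i x, m)`, `0` at `(H j x, m)`. With `k = ⟨n, m⟩` the extension `p'` satisfies
`e p' ≤ ⟦k ∈ r_i⟧` and `e p' ⊓ ⟦k ∈ r_j⟧ = ⊥`. -/
theorem beq_real {e : Cnd V (Y × ℕ) → B} (he : DenseEmb (Cnd V (Y × ℕ)) B e)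
    {cA : List K × Fp (Y × ℕ) → L} (hc : Function.Injective cA) (H : I → K → Y) {i j : I}
    (hij : {x | H i x ≠ H j x} ∈ V) :
    beq (nameR fun k => bD (aA e cA) (DA cA H i k)) (nameR fun k => bD (aA e cA) (DA cA H j k))
      = ⊥ := by
  by_contra hne
  obtain ⟨p, hp⟩ := he.dense _ hne
  -- the point `x`
  obtain ⟨x, hxT, hx⟩ := V.nonempty_of_mem (Filter.inter_mem (p.hT p.s) hij)
  have hx : H i x ≠ H j x := hx
  -- the number `m`
  have hfin : ({m : ℕ | p.q.1 (H i x, m) ≠ none} ∪ {m : ℕ | p.q.1 (H j x, m) ≠ none}).Finite := by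
    apply Set.Finite.union
    · exact p.q.2.preimage (f := fun m : ℕ => (H i x, m))
        (fun a _ b _ h => (Prod.mk.inj h).2)
    · exact p.q.2.preimage (f := fun m : ℕ => (H j x, m))
        (fun a _ b _ h => (Prod.mk.inj h).2)
  obtain ⟨m, hm⟩ := hfin.exists_notMem
  rw [Set.mem_union, not_or] at hm
  have hm1 : p.q.1 (H i x, m) = none := by
    by_contra h
    exact hm.1 h
  have hm2 : p.q.1 (H j x, m) = none := by
    by_contra h
    exact hm.2 h
  -- the extension
  obtain ⟨q1, hq1, hq1v, hq1o⟩ := p.q.exists_ext (H i x, m) true hm1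
  have hne' : (H j x, m) ≠ (H i x, m) := fun h => hx (Prod.mk.inj h).1.symm
  obtain ⟨q2, hq2, hq2v, -⟩ := q1.exists_ext (H j x, m) false (by rw [hq1o _ hne', hm2])
  let p' : Cnd V (Y × ℕ) := ⟨p.s ++ [x], p.T, p.hT, q2⟩
  have hp' : p' ≤ p := ⟨[x], rfl, ⟨hxT, trivial⟩, fun _ => subset_rfl, le_trans hq2 hq1⟩
  set k : ℕ := Nat.pair p.s.length m with hk
  have hk1 : k.unpair.1 = p.s.length := by rw [hk, Nat.unpair_pair]
  have hk2 : k.unpair.2 = m := by rw [hk, Nat.unpair_pair]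
  have hsx : (p.s ++ [x])[k.unpair.1]? = some x := by
    rw [hk1, List.getElem?_append_right le_rfl]
    simp
  -- `k ∈ r_i`
  have h1 : e p' ≤ bD (aA e cA) (DA cA H i k) := by
    rw [bD_DA hc]
    refine le_trans (he.mono p' (Cnd.top V p'.s p'.q) ?_)
      (le_iSup (fun x : {x : List K × Fp (Y × ℕ) //
      ∃ t, x.1[k.unpair.1]? = some t ∧ x.2.1 (H i t, k.unpair.2) = some true} =>
      e (Cnd.top V x.1.1 x.1.2)) ⟨(p'.s, p'.q), x, hsx, ?_⟩)
    · rw [Cnd.le_top_iff]
      exact ⟨List.prefix_rfl, le_rfl⟩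
    · show q2.1 (H i x, k.unpair.2) = some true
      rw [hk2]
      exact hq2 _ _ hq1v
  -- `k ∉ r_j`
  have h2 : e p' ⊓ bD (aA e cA) (DA cA H j k) = ⊥ := by
    rw [bD_DA hc, inf_iSup_eq, iSup_eq_bot]
    rintro ⟨⟨s, q⟩, t, ht1, ht2⟩
    by_contra hcon
    obtain ⟨r, hr1, hr2⟩ := he.compat _ _ hcon
    rw [Cnd.le_top_iff] at hr2
    obtain ⟨⟨l, hl⟩, hrq⟩ := hr2
    obtain ⟨l', hl', -, -, hrq'⟩ := hr1
    have e1 : r.s[k.unpair.1]? = some t := by
      rw [← hl, List.getElem?_append_left, ht1]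
      exact (List.getElem?_eq_some_iff.1 ht1).1
    have e2 : r.s[k.unpair.1]? = some x := by
      rw [hl']
      show ((p.s ++ [x]) ++ l')[k.unpair.1]? = some x
      rw [List.getElem?_append_left, hsx]
      exact (List.getElem?_eq_some_iff.1 hsx).1
    have e3 : t = x := Option.some_injective _ (e1.symm.trans e2)
    subst e3
    have e4 : r.q.1 (H j t, m) = some true := hrq _ _ (by rw [← hk2]; exact ht2)
    have e5 : r.q.1 (H j t, m) = some false := hrq' _ _ hq2v
    rw [e4] at e5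
    exact absurd (Option.some_injective _ e5) (by decide)
  -- conclusion
  have h3 : beq (nameR fun k => bD (aA e cA) (DA cA H i k))
      (nameR fun k => bD (aA e cA) (DA cA H j k)) ⊓ bD (aA e cA) (DA cA H i k) ≤
      bD (aA e cA) (DA cA H j k) := by
    unfold nameR
    refine (alg_left _ _ _ _ (ULift.up k)).trans ?_
    refine iSup_le fun k' => ?_
    by_cases hkk : k' = ULift.up k
    · subst hkk
      exact inf_le_left
    · have : beq (chk B ((ULift.up.{u} k).down : Ordinal.{u})) (chk B (k'.down : Ordinal.{u})) = ⊥ := by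
        apply beq_chk_of_ne
        intro h
        apply hkk
        have h' : k = k'.down := by exact_mod_cast h
        rw [h']
      rw [this, inf_bot_eq]
      exact bot_le
  apply he.ne_bot p'
  rw [← le_bot_iff, ← h2]
  exact le_inf le_rfl ((le_inf ((he.mono _ _ hp').trans hp) h1).trans h3)

end PK
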