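import Pool.Agent.H92.PK.Los2

/-!
# ELEM: `V` is an elementary substructure of the ground model class
-/

set_option autoImplicit false

universe u v

open Cardinal Order

namespace PK

open BV

variable {B : Type u} [CompleteBooleanAlgebra B]

/-- Boolean value of a formula relativised to `V` -/
noncomputable def valW : Fml → (ℕ → BSet B) → B
  | .mem i j, w => bmem (w i) (w j)
  | .eq i j, w => beq (w i) (w j)
  | .bot, _ => ⊥
  | .imp φ ψ, w => valW φ w ⇨ valW ψ w
  | .all i φ, w => ⨅ x, bV x ⇨ valW φ (Function.update w i x)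

/-- relativisation of formulas -/
def elemRel : Fml → Fml2
  | .mem i j => .mem i j
  | .eq i j => .eq i j
  | .bot => .bot
  | .imp φ ψ => .imp (elemRel φ) (elemRel ψ)
  | .all i φ => .all i (.imp (.cls i) (elemRel φ))

theorem elem_val2 (φ : Fml) : ∀ w : ℕ → BSet B, val2 (elemRel φ) w = valW φ w := by
  induction φ with
  | mem i j => intro w; rfl
  | eq i j => intro w; rfl
  | bot => intro w; rfl
  | imp φ ψ ih1 ih2 =>
    intro w
    show val2 (elemRel φ) w ⇨ val2 (elemRel ψ) w = valW φ w ⇨ valW ψ w
    rw [ih1, ih2]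
  | all i φ ih =>
    intro w
    show (⨅ x, bV (Function.update w i x i) ⇨ val2 (elemRel φ) (Function.update w i x)) =
      ⨅ x, bV x ⇨ valW φ (Function.update w i x)
    refine iInf_congr fun x => ?_
    rw [ih, Function.update_self]

theorem elem_sat2 {M : Type v} (E : M → M → Prop) (W : M → Prop) (φ : Fml) :
    ∀ w : ℕ → {m // W m}, Sat2 E W (elemRel φ) (fun i => (w i).1) ↔ Sat (Res E W) φ w := by
  induction φ with
  | mem i j => intro w; exact Iff.rfl
  | eq i j => intro w; exact Subtype.ext_iff.symm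
  | bot => intro w; exact Iff.rfl
  | imp φ ψ ih1 ih2 =>
    intro w
    show (Sat2 E W (elemRel φ) _ → Sat2 E W (elemRel ψ) _) ↔ (Sat (Res E W) φ w → Sat (Res E W) ψ w)
    rw [ih1, ih2]
  | all i φ ih =>
    intro w
    show (∀ x, W (Function.update (fun i => (w i).1) i x i) →
      Sat2 E W (elemRel φ) (Function.update (fun i => (w i).1) i x)) ↔
      ∀ x : {m // W m}, Sat (Res E W) φ (Function.update w i x)
    have key : ∀ x : {m // W m}, Function.update (fun i => (w i).1) i x.1 =
        fun j => (Function.update w i x j).1 := by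
      intro x
      funext j
      by_cases h : j = i
      · subst h; simp
      · simp [h]
    constructor
    · intro h x
      have h1 := h x.1 (by rw [Function.update_self]; exact x.2)
      rw [key x, ih] at h1
      exact h1
    · intro h x hx
      rw [Function.update_self] at hx
      rw [key ⟨x, hx⟩, ih]
      exact h ⟨x, hx⟩

/-- Los for the relativised values -/
theorem los_valW (φ : Fml) (U : UF B) (w : ℕ → BSet B) (hw : ∀ i, WV U (MU.mk U (w i))) :
    valW φ w ∈ U ↔ Sat (Res (MU.E U) (WV U)) φ (fun i => ⟨MU.mk U (w i), hw i⟩) := by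
  rw [← elem_val2, los2]
  exact elem_sat2 (MU.E U) (WV U) φ (fun i => ⟨MU.mk U (w i), hw i⟩)

theorem elem_ext (φ : Fml2) (w : ℕ → BSet B) (i : ℕ) :
    Ext (fun x => val2 φ (Function.update w i x)) := by
  refine ext_of_los (P := fun U m => Sat2 (MU.E U) (WV U) φ
    (Function.update (fun j => MU.mk U (w j)) i m)) (fun U x => ?_)
  rw [los2, quo_update]

theorem elem_ball (φ : Fml2) (w : ℕ → BSet B) (i : ℕ) :
    (⨅ x, bV x ⇨ val2 φ (Function.update w i x)) =
      ⨅ y : ZFSet.{u}, val2 φ (Function.update w i (ch B y)) :=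
  bV_ball (elem_ext φ w i)

theorem elem_update (v : ℕ → ZFSet.{u}) (i : ℕ) (y : ZFSet.{u}) :
    Function.update (fun j => ch B (v j)) i (ch B y) = fun j => ch B (Function.update v i y j) := by
  funext j
  by_cases h : j = i
  · subst h; simp
  · simp [h]

theorem elem_two (φ : Fml) : ∀ v : ℕ → ZFSet.{u},
    (Sat VE φ v → valW φ (fun i => ch B (v i)) = ⊤) ∧
      (¬ Sat VE φ v → valW φ (fun i => ch B (v i)) = ⊥) := by
  induction φ with
  | mem i j => exact fun v => ⟨fun h => bmem_ch_of_mem h, fun h => bmem_ch_of_notMem h⟩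
  | eq i j =>
    refine fun v => ⟨fun h => ?_, fun h => beq_ch_of_ne h⟩
    have h' : v i = v j := h
    show beq (ch B (v i)) (ch B (v j)) = ⊤
    rw [h', beq_refl]
  | bot => exact fun v => ⟨fun h => h.elim, fun _ => rfl⟩
  | imp φ ψ ih1 ih2 =>
    intro v
    show ((Sat VE φ v → Sat VE ψ v) → valW φ _ ⇨ valW ψ _ = ⊤) ∧
      (¬ (Sat VE φ v → Sat VE ψ v) → valW φ _ ⇨ valW ψ _ = ⊥)
    constructor
    · intro h
      by_cases h1 : Sat VE φ v
      · rw [(ih2 v).1 (h h1)]; simp
      · rw [(ih1 v).2 h1]; simp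
    · intro h
      push Not at h
      rw [(ih1 v).1 h.1, (ih2 v).2 h.2]
      simp
  | all i φ ih =>
    intro v
    have h0 : valW (.all i φ) (fun i => ch B (v i)) =
        ⨅ y : ZFSet.{u}, valW φ (fun j => ch B (Function.update v i y j)) := by
      show (⨅ x, bV x ⇨ valW φ (Function.update (fun i => ch B (v i)) i x)) = _
      have h1 := elem_ball (elemRel φ) (fun i => ch B (v i)) i
      simp only [elem_val2, elem_update] at h1
      exact h1
    constructor
    · intro h
      rw [h0, iInf_eq_top]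
      exact fun y => (ih _).1 (h y)
    · intro h
      have h' : ∃ y, ¬ Sat VE φ (Function.update v i y) := by
        by_contra hc
        push Not at hc
        exact h hc
      obtain ⟨y, hy⟩ := h'
      rw [h0, ← le_bot_iff]
      exact (iInf_le _ y).trans (le_of_eq ((ih _).2 hy))

/-- the values at check names are `⊤` or `⊥` according to the truth in `V` (all `U` at once;
for `all` use `bV_ball`) -/
theorem valW_ch (φ : Fml) (v : ℕ → ZFSet.{u}) (U : UF B) :
    valW φ (fun i => ch B (v i)) ∈ U ↔ Sat VE φ v := by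
  constructor
  · intro h
    by_contra hc
    rw [(elem_two φ v).2 hc] at h
    exact U.bot_notMem h
  · intro h
    rw [(elem_two φ v).1 h]
    exact U.top_mem

/-- elementarity of `jV` -/
theorem elem (U : UF B) {P : ∀ (M : Type (u + 1)), (M → M → Prop) → (ℕ → M) → Prop}
    (hP : FDef P) (v : ℕ → ZFSet.{u}) :
    P {m // WV U m} (Res (MU.E U) (WV U)) (fun i => jV U (v i)) ↔ P ZFSet.{u} VE v := by
  obtain ⟨φ, hφ⟩ := hP
  rw [← hφ, ← hφ, ← valW_ch φ v U]
  exact (los_valW φ U (fun i => ch B (v i)) (fun i => WV_ch U (v i))).symm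

/-- add the hypotheses that the first `k` variables have values in `V` -/
def elemPsi (φ : Fml2) : ℕ → Fml2
  | 0 => φ
  | k + 1 => .imp (.cls k) (elemPsi φ k)

theorem elem_psi {M : Type v} (E : M → M → Prop) (W : M → Prop) (φ : Fml2) (w : ℕ → M) (k : ℕ) :
    Sat2 E W (elemPsi φ k) w ↔ ((∀ i < k, W (w i)) → Sat2 E W φ w) := by
  induction k with
  | zero => simp [elemPsi]
  | succ k ih =>
    show (W (w k) → Sat2 E W (elemPsi φ k) w) ↔ _
    rw [ih]
    constructor
    · exact fun h h' => h (h' k (Nat.lt_succ_self k)) (fun i hi => h' i (Nat.lt_succ_of_lt hi))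
    · intro h h1 h2
      refine h (fun i hi => ?_)
      rcases Nat.lt_succ_iff_lt_or_eq.1 hi with h3 | rfl
      · exact h2 i h3
      · exact h1

theorem elem_psi_top (φ : Fml) (h : ∀ v : ℕ → ZFSet.{u}, Sat VE φ v) (k : ℕ) :
    ∀ w : ℕ → BSet B, (∀ i, k ≤ i → ∃ y, w i = ch B y) → val2 (elemPsi (elemRel φ) k) w = ⊤ := by
  induction k with
  | zero =>
    intro w hw
    choose y hy using fun i => hw i (Nat.zero_le i)
    have hwy : w = fun i => ch B (y i) := funext hy
    rw [hwy]
    show val2 (elemRel φ) _ = ⊤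
    rw [elem_val2]
    exact (elem_two φ y).1 (h y)
  | succ k ih =>
    intro w hw
    show bV (w k) ⇨ val2 (elemPsi (elemRel φ) k) w = ⊤
    have h1 : (⨅ x, bV x ⇨ val2 (elemPsi (elemRel φ) k) (Function.update w k x)) = ⊤ := by
      rw [elem_ball, iInf_eq_top]
      intro y
      refine ih _ (fun i hi => ?_)
      rcases Nat.eq_or_lt_of_le hi with rfl | hi'
      · exact ⟨y, Function.update_self _ _ _⟩
      · obtain ⟨z, hz⟩ := hw i hi'
        exact ⟨z, by rw [Function.update_of_ne (Nat.ne_of_gt hi'), hz]⟩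
    rw [iInf_eq_top] at h1
    have h2 := h1 (w k)
    rwa [Function.update_eq_self] at h2

/-- a definable property which holds in `V` for all assignments holds in the ground model class
for all assignments: by induction on `k`, for all `U`, it holds if the values of the variables
`≥ k` are in the range of `jV` (only finitely many variables matter, `FDef.loc`) -/
theorem transfer (U : UF B) {P : ∀ (M : Type (u + 1)), (M → M → Prop) → (ℕ → M) → Prop}
    (hP : FDef P) (h : ∀ v, P ZFSet.{u} VE v) (w : ℕ → {m : MU U // WV U m}) :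
    P {m // WV U m} (Res (MU.E U) (WV U)) w := by
  obtain ⟨φ, hφ⟩ := hP
  rw [← hφ]
  have hs : ∀ v : ℕ → ZFSet.{u}, Sat VE φ v := fun v => (hφ _ _ v).2 (h v)
  obtain ⟨n, hn⟩ := sat_local.{u + 1} φ
  choose x hx using fun i => MU.mk_surj U (w i).1
  let w1 : ℕ → {m : MU U // WV U m} := fun i => if i < n then w i else jV U ∅
  let w2 : ℕ → BSet B := fun i => if i < n then x i else ch B ∅
  have h12 : (fun i => MU.mk U (w2 i)) = fun i => (w1 i).1 := by
    funext i
    by_cases hi : i < n
    · simp only [w1, w2, if_pos hi, hx]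
    · simp only [w1, w2, if_neg hi]
      rfl
  have h3 : val2 (elemPsi (elemRel φ) n) w2 ∈ U := by
    rw [elem_psi_top φ hs n w2 (fun i hi => ⟨∅, by simp only [w2, if_neg (not_lt.2 hi)]⟩)]
    exact U.top_mem
  rw [los2, h12, elem_psi] at h3
  have h4 := h3 (fun i _ => (w1 i).2)
  rw [elem_sat2] at h4
  refine (hn _ _ w w1 (fun i hi => ?_)).2 h4
  simp only [w1, if_pos hi]

end PK
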