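import Pool.Agent.H92.PK.Frc

/-!
# MOREA: a family of `λ⁺` pairwise different sets has more than `λ` elements
-/

set_option autoImplicit false

universe u v

open Cardinal Order

namespace PK

open BV

variable {B : Type u} [CompleteBooleanAlgebra B]

/-- For `b` the value of `f` being an injection take
`R ξ i = b ⊓ ⟦f(r_i) = ξ⟧`, `ξ < λ`, `i < λ⁺`; for `i ≠ i'` and the same `ξ` the infimum is `⊥`, so
`Cov B (succ lam)` applies, but `b ≤ ⨆ ξ, R ξ i` for all `i`. -/
theorem more_of_ne {lam : Cardinal.{u}} (r : (succ lam).ord.ToType → BSet B)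
    (hr : ∀ i j, i ≠ j → beq (r i) (r j) = ⊥) (hcov : Cov B (succ lam)) (U : UF B) (f : MU U) :
    ¬ InjOn (MU.E U) f
      (fun x => MU.E U x (MU.mk U (BSet.mk (succ lam).ord.ToType r fun _ => ⊤)))
      (fun y => MU.E U y (ck U lam.ord)) := by
  intro hf
  obtain ⟨f, rfl⟩ := MU.mk_surj U f
  set X : BSet B → B := fun x => bmem x (BSet.mk (succ lam).ord.ToType r fun _ => ⊤) with hXdef
  set Y : BSet B → B := fun y => bmem y (chk B lam.ord) with hYdef
  set b : B := bInjOn f X Y with hbdef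
  have hbU : b ∈ U := (los_injOn (X := X) (Y := Y)
    (X' := fun U x => MU.E U x (MU.mk U (BSet.mk (succ lam).ord.ToType r fun _ => ⊤)))
    (Y' := fun U x => MU.E U x (ck U lam.ord)) (fun U x => Iff.rfl) (fun U x => Iff.rfl) U f).2 hf
  have hb1 : ∀ x, b ⊓ X x ≤ ⨆ y, Y y ⊓ bmem (opr x y) f := by
    intro x
    rw [← le_himp_iff]
    exact inf_le_left.trans (iInf_le _ x)
  have hb2 : ∀ x x' y, b ⊓ X x ⊓ X x' ⊓ bmem (opr x y) f ⊓ bmem (opr x' y) f ≤ beq x x' := by
    intro x x' y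
    rw [← le_himp_iff, ← le_himp_iff, ← le_himp_iff, ← le_himp_iff]
    exact (inf_le_right.trans inf_le_right).trans
      ((iInf_le _ x).trans ((iInf_le _ x').trans (iInf_le _ y)))
  have hX : ∀ i, X (r i) = ⊤ := by
    intro i
    rw [hXdef, eq_top_iff]
    simp only [bmem_mk, top_inf_eq]
    rw [← beq_refl (r i)]
    exact le_iSup (fun j => beq (r i) (r j)) i
  have hdisj : ∀ i j ξ, i ≠ j →
      (b ⊓ bmem (opr (r i) (chk B ξ)) f) ⊓ (b ⊓ bmem (opr (r j) (chk B ξ)) f) = ⊥ := by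
    intro i j ξ hij
    rw [eq_bot_iff, ← hr i j hij]
    refine le_trans ?_ (hb2 (r i) (r j) (chk B ξ))
    rw [hX, hX, inf_top_eq, inf_top_eq]
    exact le_inf (le_inf (inf_le_left.trans inf_le_left) (inf_le_left.trans inf_le_right))
      (inf_le_right.trans inf_le_right)
  obtain ⟨b', hb'b, hb', γ, hγ, hcon⟩ := hcov lam.ord
    (by rw [card_ord]; exact lt_succ lam)
    (fun ξ α => ⨆ h : α < (succ lam).ord,
      b ⊓ bmem (opr (r (Ordinal.ToType.mk ⟨α, h⟩)) (chk B ξ)) f) (by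
    intro ξ α α' hαα'
    by_cases h : α < (succ lam).ord
    · by_cases h' : α' < (succ lam).ord
      · rw [iSup_pos h, iSup_pos h']
        apply hdisj
        intro h2
        have h3 := (Ordinal.ToType.mk (o := (succ lam).ord)).injective h2
        exact hαα' (congrArg Subtype.val h3)
      · rw [iSup_neg h', inf_bot_eq]
    · rw [iSup_neg h, bot_inf_eq]) b (U.ne_bot_of_mem hbU)
  apply hb'
  have h1 : b' ≤ ⨆ ξ : Set.Iio lam.ord,
      bmem (opr (r (Ordinal.ToType.mk ⟨γ, hγ⟩)) (chk B ξ)) f := by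
    rw [← chk_bex lam.ord (card_ext_app f (r (Ordinal.ToType.mk ⟨γ, hγ⟩)))]
    refine le_trans (le_inf hb'b ?_) (hb1 (r (Ordinal.ToType.mk ⟨γ, hγ⟩)))
    rw [hX]
    exact le_top
  rw [← inf_eq_left.2 h1, inf_iSup_eq, iSup_eq_bot]
  intro ξ
  have h2 := hcon ξ ξ.2 γ le_rfl hγ
  rw [iSup_pos hγ] at h2
  rw [eq_bot_iff, ← h2]
  exact le_inf inf_le_left (le_inf (inf_le_left.trans hb'b) inf_le_right)

end PK
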