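import Pool.Agent.H92.PK.Main
import Pool.Agent.H92.PK.CovL
import Pool.Agent.H92.PK.DistA
import Pool.Agent.H92.PK.MoreA
import Pool.Agent.H92.PK.Evd

/-!
# FINA: the theorem from one measurable cardinal
-/

set_option autoImplicit false

universe u v

open Cardinal Order

namespace PK

open BV

theorem exists_frc {κ lam : Cardinal.{u}} (hκ : IsMeasurable κ) (h1 : κ < lam)
    (h2 : lam.ord.cof = κ) :
    ∃ (B : Type u) (_ : CompleteBooleanAlgebra B), Nonempty (UF B) ∧ Nonempty (Frc lam B) := by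
  obtain ⟨h0, V, hV⟩ := hκ
  have hK : #κ.ord.ToType = κ := by simp
  have hlam : ℵ₀ ≤ lam := h0.le.trans h1.le
  have hL : Cardinal.mk lam.ord.ToType = lam := by simp
  have hY : #(lam.ord.ToType × ℕ) = lam := by
    rw [mk_prod, lift_uzero, hL, mk_nat, lift_aleph0]
    exact mul_aleph0_eq hlam
  obtain ⟨H, hH⟩ := exists_evd h0.le h2 h1
  have hcode : #(List κ.ord.ToType × Fp (lam.ord.ToType × ℕ)) ≤ Cardinal.mk lam.ord.ToType := by
    rw [mk_prod, lift_id, lift_id, hL]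
    refine mul_le_of_le hlam ?_ ?_
    · refine (mk_list_le_max _).trans (max_le hlam ?_)
      rw [hK]
      exact h1.le
    · refine (Fp.mk_le ?_).trans hY.le
      rw [hY]
      exact hlam
  obtain ⟨cA⟩ := hcode
  obtain ⟨B, hB, e, he⟩ := exists_denseEmb (Cnd V (lam.ord.ToType × ℕ))
  have hcov : ∀ c : Cardinal.{u}, ℵ₀ ≤ c → Cov B (succ c) := by
    intro c hc
    rcases lt_or_ge c κ with h | h
    · exact cov_small hV hK h0 he hc h
    · exact cov_large hK h0 he h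
  refine ⟨B, hB, ?_, ⟨⟨aA e cA, (succ lam).ord.ToType, DA cA H, ?_, hcov,
    fun b => gen_A he cA.injective b, ?_⟩⟩⟩
  · obtain ⟨U, _⟩ := UF.exists_mem (he.ne_bot (Cnd.top V [] Fp.emp))
    exact ⟨U⟩
  · intro i k
    have h3 : DA cA H i k ⊆ Set.range (fun η : lam.ord.ToType => ({η} : Set lam.ord.ToType)) := by
      rintro z ⟨s, q, x, _, _, rfl⟩
      exact ⟨_, rfl⟩
    exact (mk_le_mk_of_subset h3).trans (mk_range_le.trans hL.le)
  · intro U f
    refine more_of_ne _ (fun i j hij => ?_) (hcov lam hlam) U f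
    refine beq_real he cA.injective H ?_
    obtain ⟨β, hβ⟩ := hH i j hij
    have h3 : (Set.Iio β)ᶜ ∈ V := hV.small _ (mk_Iio_toType_ord_lt β)
    exact Filter.mem_of_superset h3 fun ξ hξ => hβ ξ (not_lt.1 hξ)

theorem main_A {κ : Cardinal.{u}} (hG : ∀ c : Cardinal.{u}, ℵ₀ ≤ c → 2 ^ c = succ c)
    (hκ : IsMeasurable κ) :
    ∃ (N : Type (u + 1)) (E : N → N → Prop) (W : N → Prop) (l A : N), IsExample E W l A := by
  have hreg : κ.IsRegular := by
    obtain ⟨h0, V, hV⟩ := hκ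
    exact hV.isRegular (by simp) h0.le
  obtain ⟨lam, h1, h2⟩ := exists_cof_eq hreg
  obtain ⟨B, hB, ⟨U⟩, ⟨F⟩⟩ := exists_frc hκ h1 h2
  exact ⟨_, _, _, _, _, example_of_frc hG (by rw [h2]; exact hκ.1) (by rw [h2]; exact h1) F U⟩

end PK
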