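import Pool.Agent.H92.PK.Cnd
import Pool.Agent.H92.PK.Frc

/-!
# GENA: the set `A` of the pairs (initial segment of the Prikry sequence, finite part of the
Cohen reals); the generic filter is definable from `A`
-/

set_option autoImplicit false

universe u v

open Cardinal Order

namespace PK

open BV

variable {K : Type u} {V : Ultrafilter K} {X B L : Type u}
  [CompleteBooleanAlgebra B]

/-- the Boolean value of `η ∈ A`; `cA` codes pairs by elements of `L` -/
noncomputable def aA (e : Cnd V X → B) (cA : List K × Fp X → L) (η : L) : B :=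
  ⨆ x : {x : List K × Fp X // cA x = η}, e (Cnd.top V x.1.1 x.1.2)

theorem aA_code {e : Cnd V X → B} {cA : List K × Fp X → L} (hc : Function.Injective cA)
    (s : List K) (q : Fp X) : aA e cA (cA (s, q)) = e (Cnd.top V s q) := by
  unfold aA
  refine le_antisymm (iSup_le ?_) ?_
  · rintro ⟨x, hx⟩
    have h := hc hx
    subst h
    exact le_rfl
  · exact le_iSup (fun x : {x : List K × Fp X // cA x = cA (s, q)} =>
      e (Cnd.top V x.1.1 x.1.2)) ⟨(s, q), rfl⟩

/-- an element which meets a join meets one of the members -/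
theorem gena_exists {ι : Sort*} {b : B} {f : ι → B} (hb : b ≠ ⊥) (h : b ≤ ⨆ i, f i) :
    ∃ i, b ⊓ f i ≠ ⊥ := by
  by_contra hne
  push Not at hne
  apply hb
  have h1 : b = b ⊓ ⨆ i, f i := (inf_eq_left.2 h).symm
  rw [h1, inf_iSup_eq]
  simp [hne]

/-- a condition belongs to the generic filter if its stem is an initial segment, its finite part is
a part of the generic function, and the Prikry sequence is a branch of its tree -/
theorem e_eq {e : Cnd V X → B} (he : DenseEmb (Cnd V X) B e) (p : Cnd V X) :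
    e p ≤ e (Cnd.top V p.s p.q) ⊓
      ⨅ n : ℕ, ⨆ l : {l : List K // l.length = n ∧ Allowed p.T p.s l},
        e (Cnd.top V (p.s ++ l.1) Fp.emp) := by
  refine le_inf (he.mono _ _ (Cnd.le_top_iff.2 ⟨List.prefix_refl _, le_rfl⟩)) (le_iInf fun n => ?_)
  rw [← sdiff_eq_bot_iff, sdiff_eq]
  by_contra hne
  obtain ⟨p', hp'⟩ := he.dense _ hne
  have hp'p : e p' ≤ e p := hp'.trans inf_le_left
  obtain ⟨r, hr, hrp⟩ := he.compat p' p (by rw [inf_eq_left.2 hp'p]; exact he.ne_bot _)
  obtain ⟨r', hr', hlen, -⟩ := Cnd.exists_long r (p.s.length + n)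
  obtain ⟨l, hl1, hl2, hl3, hl4⟩ := Cnd.le_def.1 (hr'.trans hrp)
  have hln : n ≤ l.length := by
    rw [hl1, List.length_append] at hlen
    omega
  have hall : Allowed p.T p.s (l.take n) := by
    rw [← List.take_append_drop n l, allowed_append] at hl2
    exact hl2.1
  have h1 : e r' ≤ e (Cnd.top V (p.s ++ l.take n) Fp.emp) := by
    refine he.mono _ _ (Cnd.le_top_iff.2 ⟨?_, Fp.le_emp _⟩)
    rw [hl1]
    exact (List.prefix_append_right_inj _).2 (List.take_prefix _ _)
  have h2 : e r' ≤ ⨆ l : {l : List K // l.length = n ∧ Allowed p.T p.s l},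
        e (Cnd.top V (p.s ++ l.1) Fp.emp) :=
    h1.trans (le_iSup (fun l : {l : List K // l.length = n ∧ Allowed p.T p.s l} =>
      e (Cnd.top V (p.s ++ l.1) Fp.emp)) ⟨l.take n, by rw [List.length_take]; omega, hall⟩)
  have h3 : e r' ≤ e p' := he.mono _ _ (hr'.trans hr)
  refine he.ne_bot r' (le_bot_iff.1 ?_)
  rw [← inf_compl_self (⨆ l : {l : List K // l.length = n ∧ Allowed p.T p.s l},
        e (Cnd.top V (p.s ++ l.1) Fp.emp))]
  exact le_inf h2 ((h3.trans hp').trans inf_le_right)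

/-- If an element below the right hand side is disjoint from `e p`, take a condition `p'` below it;
extend it to a stem of length `≥ p.s.length` such that it is below `top p.s p.q` and below
`top (p.s ++ l) emp` for an allowed `l` with `p'.s = p.s ++ l`; then `p'` and `p` are compatible. -/
theorem le_e {e : Cnd V X → B} (he : DenseEmb (Cnd V X) B e) (p : Cnd V X) (b : B)
    (h1 : b ≤ e (Cnd.top V p.s p.q))
    (h2 : ∀ n : ℕ, b ≤ ⨆ l : {l : List K // l.length = n ∧ Allowed p.T p.s l},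
        e (Cnd.top V (p.s ++ l.1) Fp.emp)) (h3 : b ⊓ e p = ⊥) : b = ⊥ := by
  by_contra hb
  obtain ⟨p', hp'⟩ := he.dense b hb
  obtain ⟨r, hr, hrt⟩ := he.compat p' (Cnd.top V p.s p.q)
    (by rw [inf_eq_left.2 (hp'.trans h1)]; exact he.ne_bot _)
  obtain ⟨⟨l1, hl1⟩, hrq⟩ := Cnd.le_top_iff.1 hrt
  have hrb : e r ≤ b := (he.mono _ _ hr).trans hp'
  obtain ⟨⟨l, hl, hla⟩, hne⟩ := gena_exists (he.ne_bot r) (hrb.trans (h2 l1.length))
  obtain ⟨r2, hr2, hr2t⟩ := he.compat _ _ hne
  obtain ⟨l2, hl2, -, -, -⟩ := Cnd.le_def.1 hr2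
  obtain ⟨⟨l3, hl3⟩, -⟩ := Cnd.le_top_iff.1 hr2t
  have hll : l = l1 := by
    have h4 : p.s ++ l ++ l3 = p.s ++ l1 ++ l2 := by rw [hl3, hl2, hl1]
    rw [List.append_assoc, List.append_assoc] at h4
    have h5 := List.append_cancel_left h4
    exact (List.append_inj h5 hl).1
  subst hll
  let p'' : Cnd V X := ⟨r.s, fun x => r.T x ∩ p.T x,
    fun x => Filter.inter_mem (r.hT x) (p.hT x), r.q⟩
  have hr'' : p'' ≤ r := Cnd.le_def.2 ⟨[], by simp [p''], trivial, fun x => Set.inter_subset_left,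
    le_rfl⟩
  have hp'' : p'' ≤ p := Cnd.le_def.2 ⟨l, hl1.symm, hla, fun x => Set.inter_subset_right, hrq⟩
  refine he.ne_bot p'' (le_bot_iff.1 ?_)
  rw [← h3]
  exact le_inf ((he.mono _ _ hr'').trans hrb) (he.mono _ _ hp'')

theorem gena_eq {e : Cnd V X → B} (he : DenseEmb (Cnd V X) B e) (p : Cnd V X) :
    e p = e (Cnd.top V p.s p.q) ⊓
      ⨅ n : ℕ, ⨆ l : {l : List K // l.length = n ∧ Allowed p.T p.s l},
        e (Cnd.top V (p.s ++ l.1) Fp.emp) := by
  refine le_antisymm (e_eq he p) ?_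
  rw [← sdiff_eq_bot_iff, sdiff_eq]
  refine le_e he p _ (inf_le_left.trans inf_le_left)
    (fun n => inf_le_left.trans (inf_le_right.trans (iInf_le _ n))) ?_
  rw [inf_assoc, compl_inf_self, inf_bot_eq]

/-- the code of a condition -/
def genaW (cA : List K × Fp X → L) (p : Cnd V X) : Set (Set (Set L)) :=
  insert {{cA (p.s, p.q)}} (Set.range fun n : ℕ =>
    Set.range fun l : {l : List K // l.length = n ∧ Allowed p.T p.s l} =>
      ({cA (p.s ++ l.1, Fp.emp)} : Set L))

theorem gena_W {e : Cnd V X → B} (he : DenseEmb (Cnd V X) B e) {cA : List K × Fp X → L}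
    (hc : Function.Injective cA) (p : Cnd V X) :
    ⨅ v ∈ genaW cA p, ⨆ z ∈ v, ⨅ η ∈ z, aA e cA η = e p := by
  rw [gena_eq he p, genaW, iInf_insert, iInf_range]
  simp only [Set.mem_singleton_iff, iSup_iSup_eq_left, iInf_iInf_eq_left, iSup_range, aA_code hc]

/-- `b = ⨆ e p` over the `p` with `e p ≤ b`; take the sets
`{{{cA (s, q)}}} ∪ {v n : n}` with `v n = {{cA (s ++ l, emp)} : l allowed of length n}` -/
theorem gen_A {e : Cnd V X → B} (he : DenseEmb (Cnd V X) B e) {cA : List K × Fp X → L}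
    (hc : Function.Injective cA) (b : B) :
    ∃ S : Set (Set (Set (Set L))), b = ⨆ w ∈ S, ⨅ v ∈ w, ⨆ z ∈ v, ⨅ η ∈ z, aA e cA η := by
  refine ⟨Set.range fun p : {p : Cnd V X // e p ≤ b} => genaW cA p.1, ?_⟩
  rw [iSup_range]
  simp only [gena_W he hc]
  refine le_antisymm ?_ (iSup_le fun p => p.2)
  rw [← sdiff_eq_bot_iff, sdiff_eq]
  by_contra hne
  obtain ⟨p, hp⟩ := he.dense _ hne
  refine he.ne_bot p (le_bot_iff.1 ?_)
  have h1 : e p ≤ ⨆ p : {p : Cnd V X // e p ≤ b}, e p.1 :=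
    le_iSup (fun p : {p : Cnd V X // e p ≤ b} => e p.1) ⟨p, hp.trans inf_le_left⟩
  rw [← inf_compl_self (⨆ p : {p : Cnd V X // e p ≤ b}, e p.1)]
  exact le_inf h1 (hp.trans inf_le_right)

end PK
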