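import Pool.Agent.H92.PK.Chs
import Pool.Agent.H26.BV.Card

/-!
# WCL: the ground model as a class in the quotients
-/

set_option autoImplicit false

universe u v

open Cardinal Order

namespace PK

open BV

variable {B : Type u} [CompleteBooleanAlgebra B]

/-- Boolean value of `x ∈ V` -/
noncomputable def bV (x : BSet B) : B := ⨆ y : ZFSet.{u}, beq x (ch B y)

/-- the class `V` in the quotient -/
def WV (U : UF B) (m : MU U) : Prop := ∃ x, MU.mk U x = m ∧ bV x ∈ U

theorem ext_bV : Ext (bV (B := B)) :=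
  ext_iSup fun y => ext_eq_left (ch B y)

theorem los_bV (U : UF B) (x : BSet B) : bV x ∈ U ↔ WV U (MU.mk U x) := by
  constructor
  · intro h
    exact ⟨x, rfl, h⟩
  · rintro ⟨y, hy, h⟩
    rw [MU.mk_eq_iff] at hy
    exact U.mem_of_le (U.inf_mem hy h) (ext_bV y x)

theorem bV_ch (y : ZFSet.{u}) : bV (ch B y) = ⊤ := by
  rw [eq_top_iff, ← beq_refl (ch B y)]
  exact le_iSup (fun z : ZFSet.{u} => beq (ch B y) (ch B z)) y

theorem WV_ch (U : UF B) (y : ZFSet.{u}) : WV U (MU.mk U (ch B y)) := by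
  rw [← los_bV, bV_ch]
  exact U.top_mem

/-- the embedding of `V` into the ground model class of the quotient -/
noncomputable def jV (U : UF B) (y : ZFSet.{u}) : {m : MU U // WV U m} :=
  ⟨MU.mk U (ch B y), WV_ch U y⟩

theorem E_jV (U : UF B) (x y : ZFSet.{u}) : MU.E U (jV U x).1 (jV U y).1 ↔ x ∈ y := by
  show bmem (ch B x) (ch B y) ∈ U ↔ x ∈ y
  by_cases h : x ∈ y
  · rw [bmem_ch_of_mem h]
    exact ⟨fun _ => h, fun _ => U.top_mem⟩
  · rw [bmem_ch_of_notMem h]
    exact ⟨fun h' => absurd h' U.bot_notMem, fun h' => absurd h' h⟩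

theorem jV_inj (U : UF B) {x y : ZFSet.{u}} (h : jV U x = jV U y) : x = y := by
  by_contra hne
  have h1 : MU.mk U (ch B x) = MU.mk U (ch B y) := congrArg Subtype.val h
  rw [MU.mk_eq_iff, beq_ch_of_ne hne] at h1
  exact U.bot_notMem h1

theorem jV_ck (U : UF B) (α : Ordinal.{u}) : (jV U α.toZFSet).1 = ck U α := by
  show MU.mk U _ = MU.mk U _
  rw [MU.mk_eq_iff, beq_ch_chk]
  exact U.top_mem

/-- `f x ⊓ bV x` is a supremum over the check names -/
theorem bV_bex {f : BSet B → B} (hf : Ext f) :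
    (⨆ x, bV x ⊓ f x) = ⨆ y : ZFSet.{u}, f (ch B y) := by
  apply le_antisymm
  · refine iSup_le fun x => ?_
    rw [bV, iSup_inf_eq]
    exact iSup_mono fun y => hf x (ch B y)
  · refine iSup_le fun y => ?_
    refine le_trans ?_ (le_iSup _ (ch B y))
    rw [bV_ch, top_inf_eq]

theorem bV_ball {f : BSet B → B} (hf : Ext f) :
    (⨅ x, bV x ⇨ f x) = ⨅ y : ZFSet.{u}, f (ch B y) := by
  apply compl_injective
  rw [compl_iInf, compl_iInf, ← bV_bex (ext_compl hf)]
  refine iSup_congr fun x => ?_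
  rw [compl_himp, sdiff_eq]

/-- `V` is transitive: `x ∈ y̌` implies that `x` is a check name, by `bmem_ch` -/
theorem WV_trans (U : UF B) (m n : MU U) (hm : WV U m) (hn : MU.E U n m) : WV U n := by
  obtain ⟨x, rfl⟩ := MU.mk_surj U m
  obtain ⟨z, rfl⟩ := MU.mk_surj U n
  rw [← los_bV] at hm ⊢
  rw [MU.E_mk] at hn
  refine U.mem_of_le (U.inf_mem hm hn) ?_
  rw [bV, iSup_inf_eq]
  refine iSup_le fun y => (bmem_congr_right x (ch B y) z).trans ?_
  rw [bmem_ch]
  exact iSup_le fun t => le_iSup (fun t : ZFSet.{u} => beq z (ch B t)) t.1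

/-- every name has only a small set of possible values in `V` -/
theorem exists_bound (x : BSet B) :
    ∃ z : ZFSet.{u}, ∀ y : ZFSet.{u}, beq x (ch B y) ≠ ⊥ → y ∈ z := by
  have hinj : Function.Injective
      (fun y : {y : ZFSet.{u} // beq x (ch B y) ≠ ⊥} => beq x (ch B y.1)) := by
    rintro ⟨y, hy⟩ ⟨y', hy'⟩ h
    have h' : beq x (ch B y) = beq x (ch B y') := h
    apply Subtype.ext
    by_contra hne
    apply hy
    rw [eq_bot_iff, ← beq_ch_of_ne (B := B) hne]
    refine le_trans ?_ (beq_trans (ch B y) x (ch B y'))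
    rw [beq_symm (ch B y) x, ← h', inf_idem]
  have : Small.{u} {y : ZFSet.{u} // beq x (ch B y) ≠ ⊥} := small_of_injective hinj
  refine ⟨ZFSet.range fun y : Shrink.{u} {y : ZFSet.{u} // beq x (ch B y) ≠ ⊥} =>
    ((equivShrink _).symm y).1, fun y hy => ?_⟩
  rw [ZFSet.mem_range]
  exact ⟨equivShrink _ ⟨y, hy⟩, by simp⟩

end PK
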