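import Pool.Agent.H92.PK.Calc
import Pool.Agent.H92.PK.Wcl

/-!
# LOS2: the theorem of Los for `(N, E, V)`, principles for all ultrafilters at once
-/

set_option autoImplicit false

universe u v

open Cardinal Order

namespace PK

open BV

variable {B : Type u} [CompleteBooleanAlgebra B]

/-- Boolean value of a formula with the predicate `V` -/
noncomputable def val2 : Fml2 → (ℕ → BSet B) → B
  | .mem i j, w => bmem (w i) (w j)
  | .eq i j, w => beq (w i) (w j)
  | .cls i, w => bV (w i)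
  | .bot, _ => ⊥
  | .imp φ ψ, w => val2 φ w ⇨ val2 ψ w
  | .all i φ, w => ⨅ x, val2 φ (Function.update w i x)

/-- as `BV.los_fml` (induction on the formula for all `U` and `w`) -/
theorem los2 (φ : Fml2) (U : UF B) (w : ℕ → BSet B) :
    val2 φ w ∈ U ↔ Sat2 (MU.E U) (WV U) φ (fun i => MU.mk U (w i)) := by
  induction φ generalizing U w with
  | mem i j => exact Iff.rfl
  | eq i j => exact (MU.mk_eq_iff U (w i) (w j)).symm
  | cls i => exact los_bV U (w i)
  | bot => exact ⟨fun h => U.bot_notMem h, fun h => h.elim⟩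
  | imp φ ψ ih1 ih2 =>
    show (val2 φ w ⇨ val2 ψ w) ∈ U ↔ _
    rw [UF.himp_mem_iff, ih1 U w, ih2 U w]
    exact Iff.rfl
  | all i φ ih =>
    show (⨅ x, val2 φ (Function.update w i x)) ∈ U ↔ _
    refine card_iInf (P := fun U m => Sat2 (MU.E U) (WV U) φ
      (Function.update (fun j => MU.mk U (w j)) i m)) (fun U x => ?_) U
    rw [ih U, quo_update]

/-- definable properties have Boolean values -/
theorem exists_bool {P : ∀ (M : Type (u + 1)), (M → M → Prop) → (M → Prop) → (ℕ → M) → Prop}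
    (hP : FDef2 P) (w : ℕ → BSet B) : ∃ f : BSet B → B, Ext f ∧ ∀ (U : UF B) (x : BSet B),
      f x ∈ U ↔ P (MU U) (MU.E U) (WV U) (scons (MU.mk U x) (fun n => MU.mk U (w n))) := by
  obtain ⟨φ, hφ⟩ := hP
  have h : ∀ (U : UF B) (x : BSet B), val2 φ (scons x w) ∈ U ↔
      P (MU U) (MU.E U) (WV U) (scons (MU.mk U x) (fun n => MU.mk U (w n))) := by
    intro U x
    rw [los2, hφ]
    have h1 : (fun i => MU.mk U (scons x w i)) = scons (MU.mk U x) (fun n => MU.mk U (w n)) := by
      funext i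
      cases i <;> rfl
    rw [h1]
  exact ⟨fun x => val2 φ (scons x w), ext_of_los (P := fun U m =>
    P (MU U) (MU.E U) (WV U) (scons m (fun n => MU.mk U (w n)))) h, h⟩

/-- to prove a definable property for all elements of the value of a name `x` it is enough to
prove it for the names which occur in `x` (in all quotients) -/
theorem ball_name {P : ∀ (M : Type (u + 1)), (M → M → Prop) → (M → Prop) → (ℕ → M) → Prop}
    (hP : FDef2 P) (w : ℕ → BSet B) (x : BSet B)
    (h : ∀ (U : UF B) (i : x.Idx), x.vl i ∈ U →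
      P (MU U) (MU.E U) (WV U) (scons (MU.mk U (x.nm i)) (fun n => MU.mk U (w n))))
    (U : UF B) (m : MU U) (hm : MU.E U m (MU.mk U x)) :
    P (MU U) (MU.E U) (WV U) (scons m (fun n => MU.mk U (w n))) := by
  obtain ⟨f, hf, hfP⟩ := exists_bool hP w
  obtain ⟨z, rfl⟩ := MU.mk_surj U m
  rw [← hfP]
  rw [MU.E_mk] at hm
  refine U.mem_of_le hm ?_
  rw [bmem_eq]
  refine iSup_le fun i => ?_
  have h1 : x.vl i ≤ f (x.nm i) := UF.le_of_forall fun U' hU' => (hfP U' _).2 (h U' i hU')
  refine (inf_le_inf_right _ h1).trans ?_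
  rw [inf_comm, beq_symm]
  exact hf _ _

/-- the same for the elements of a check name -/
theorem ball_ch {P : ∀ (M : Type (u + 1)), (M → M → Prop) → (M → Prop) → (ℕ → M) → Prop}
    (hP : FDef2 P) (w : ℕ → BSet B) (y : ZFSet.{u})
    (h : ∀ (U : UF B) (x : ZFSet.{u}), x ∈ y →
      P (MU U) (MU.E U) (WV U) (scons (jV U x).1 (fun n => MU.mk U (w n))))
    (U : UF B) (m : MU U) (hm : MU.E U m (jV U y).1) :
    P (MU U) (MU.E U) (WV U) (scons m (fun n => MU.mk U (w n))) := by
  obtain ⟨f, hf, hfP⟩ := exists_bool hP w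
  obtain ⟨z, rfl⟩ := MU.mk_surj U m
  rw [← hfP]
  have hm' : bmem z (ch B y) ∈ U := hm
  refine U.mem_of_le hm' ?_
  rw [bmem_ch]
  refine iSup_le fun x => ?_
  have h1 : f (ch B x.1) = ⊤ := UF.eq_top_of_forall fun U' => (hfP U' _).2 (h U' x.1 x.2)
  have h2 := hf (ch B x.1) z
  rw [h1, inf_top_eq, beq_symm] at h2
  exact h2

/-- the same for the elements of a check ordinal -/
theorem ball_chk {P : ∀ (M : Type (u + 1)), (M → M → Prop) → (M → Prop) → (ℕ → M) → Prop}
    (hP : FDef2 P) (w : ℕ → BSet B) (α : Ordinal.{u})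
    (h : ∀ (U : UF B) (β : Ordinal.{u}), β < α →
      P (MU U) (MU.E U) (WV U) (scons (ck U β) (fun n => MU.mk U (w n))))
    (U : UF B) (m : MU U) (hm : MU.E U m (ck U α)) :
    P (MU U) (MU.E U) (WV U) (scons m (fun n => MU.mk U (w n))) := by
  obtain ⟨f, hf, hfP⟩ := exists_bool hP w
  exact ball_ck (P := fun U m => P (MU U) (MU.E U) (WV U) (scons m (fun n => MU.mk U (w n))))
    hfP α h U m hm

/-- the same for the elements of `V` -/
theorem ball_WV {P : ∀ (M : Type (u + 1)), (M → M → Prop) → (M → Prop) → (ℕ → M) → Prop}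
    (hP : FDef2 P) (w : ℕ → BSet B)
    (h : ∀ (U : UF B) (y : ZFSet.{u}),
      P (MU U) (MU.E U) (WV U) (scons (jV U y).1 (fun n => MU.mk U (w n))))
    (U : UF B) (m : MU U) (hm : WV U m) :
    P (MU U) (MU.E U) (WV U) (scons m (fun n => MU.mk U (w n))) := by
  obtain ⟨f, hf, hfP⟩ := exists_bool hP w
  obtain ⟨z, rfl⟩ := MU.mk_surj U m
  rw [← hfP]
  rw [← los_bV] at hm
  refine U.mem_of_le hm ?_
  refine iSup_le fun y => ?_
  have h1 : f (ch B y) = ⊤ := UF.eq_top_of_forall fun U' => (hfP U' _).2 (h U' y)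
  have h2 := hf (ch B y) z
  rw [h1, inf_top_eq, beq_symm] at h2
  exact h2

end PK
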