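import Pool.Agent.H92.PK.Wcl

/-!
# ORDW: the ground model class contains all ordinals
-/

set_option autoImplicit false

universe u v

open Cardinal Order

namespace PK

open BV

variable {B : Type u} [CompleteBooleanAlgebra B]

/-- A name `x` has only a small set of ordinals `β` with `bmem (chk B β) x ≠ ⊥` (for every index
`i` the values `beq (chk B β) (x.nm i)` are pairwise disjoint). -/
theorem exists_not_mem (x : BSet B) : ∃ α : Ordinal.{u}, ∀ β, α ≤ β → bmem (chk B β) x = ⊥ := by
  classical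
  have key : ∀ β : {β : Ordinal.{u} // bmem (chk B β) x ≠ ⊥},
      ∃ i : x.Idx, beq (chk B β.1) (x.nm i) ≠ ⊥ := by
    intro β
    by_contra hcon
    push Not at hcon
    apply β.2
    rw [bmem_eq, eq_bot_iff]
    refine iSup_le fun i => ?_
    rw [hcon i, inf_bot_eq]
  choose i hi using key
  have hinj : Function.Injective (fun β : {β : Ordinal.{u} // bmem (chk B β) x ≠ ⊥} =>
      ((i β, beq (chk B β.1) (x.nm (i β))) : x.Idx × B)) := by
    intro β β' h
    have h1 : i β = i β' := congrArg Prod.fst h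
    have h2 : beq (chk B β.1) (x.nm (i β)) = beq (chk B β'.1) (x.nm (i β')) :=
      congrArg Prod.snd h
    apply Subtype.ext
    by_contra hne
    apply hi β
    refine le_bot_iff.1 (le_trans ?_ (beq_chk_of_ne (B := B) hne).le)
    refine le_trans (le_inf le_rfl ?_) (beq_trans _ (x.nm (i β)) _)
    rw [beq_symm (x.nm (i β)), h2, h1]
  have : Small.{u} {β : Ordinal.{u} // bmem (chk B β) x ≠ ⊥} := small_of_injective hinj
  have hb : BddAbove {β : Ordinal.{u} | bmem (chk B β) x ≠ ⊥} := by
    have : Small.{u} ({β : Ordinal.{u} | bmem (chk B β) x ≠ ⊥} : Set Ordinal.{u}) := this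
    exact Ordinal.bddAbove_of_small
  obtain ⟨γ, hγ⟩ := hb
  refine ⟨γ + 1, fun β hβ => ?_⟩
  by_contra hne
  have h1 : β ≤ γ := hγ hne
  exact absurd (lt_of_lt_of_le (lt_add_one γ) hβ) (not_lt.2 h1)

theorem ordw_WV_ck (U : UF B) (α : Ordinal.{u}) : WV U (ck U α) := by
  rw [← jV_ck]
  exact (jV U α.toZFSet).2

/-- every ordinal of the quotient is below a check ordinal -/
theorem exists_lt_ck (U : UF B) (m : MU U) (hm : IsOrd (MU.E U) m) :
    ∃ α : Ordinal.{u}, MU.E U m (ck U α) := by
  obtain ⟨x, rfl⟩ := MU.mk_surj U m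
  obtain ⟨α, hα⟩ := exists_not_mem x
  rcases MU.trichotomy U _ _ hm (isOrd_ck U α) with h | h | h
  · exact ⟨α, h⟩
  · refine ⟨α + 1, ?_⟩
    rw [h]
    exact (E_ck U _ _).2 (lt_add_one α)
  · exfalso
    have h1 : bmem (chk B α) x ∈ U := h
    rw [hα α le_rfl] at h1
    exact U.bot_notMem h1

/-- By `MU.trichotomy` with `ck U α`, `α` as in `exists_not_mem`; elements of `ck U α` and
`ck U α` itself belong to `V`. -/
theorem ord_WV (U : UF B) (m : MU U) (hm : IsOrd (MU.E U) m) : WV U m := by
  obtain ⟨α, hα⟩ := exists_lt_ck U m hm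
  exact WV_trans U _ _ (ordw_WV_ck U α) hα

end PK
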