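import Pool.Agent.H92.PK.Calc

/-!
# TRZ: ZFC is transferred between structures in which the same definable properties hold for all
assignments
-/

set_option autoImplicit false

universe u v

open Cardinal Order

namespace PK

open BV

/-- renaming for `update w 0 x` with two new values in front -/
def trzS0 (i : ℕ) : ℕ → ℕ
  | 0 => i
  | n + 1 => n + 3

/-- renaming for `update (update w 0 x) 1 y` with three new values in front -/
def trzS1 (i j : ℕ) : ℕ → ℕ
  | 0 => i
  | 1 => j
  | n + 2 => n + 5

theorem trz_upd0 {M : Type v} (x b : M) (w : ℕ → M) :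
    scons x (scons b w) ∘ trzS0 0 = Function.update w 0 x := by
  funext n
  rcases n with _ | n
  · simp [trzS0]
  · simp [trzS0]

theorem trz_upd1 {M : Type v} (w' : ℕ → M) (w : ℕ → M) (hw : ∀ n, w' (n + 3) = w n) (i j : ℕ) :
    w' ∘ trzS1 i j = Function.update (Function.update w 0 (w' i)) 1 (w' j) := by
  funext n
  rcases n with _ | _ | n
  · simp [trzS1]
  · simp [trzS1]
  · have h1 : n + 1 + 1 ≠ 1 := by omega
    have h0 : n + 1 + 1 ≠ 0 := by omega
    rw [Function.update_of_ne h1, Function.update_of_ne h0]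
    exact hw (n + 2)

/-- Each axiom is a property `P` with `FDef P` and `∀ v, P M E v`. For `separation` take
`P M E w := ∃ b, ∀ x, E x b ↔ E x (w n) ∧ Sat E φ (Function.update w 0 x)` where `n ≥ 1` is larger
than all variables of `φ` (`sat_local`), and apply it to `Function.update w n a`; similarly for
`replacement` (`n ≥ 2`). To see that `P` is definable use `FDef.allv`, or rename variables. -/
theorem isZFC_of_transfer {M M' : Type v} [Nonempty M'] {E : M → M → Prop}
    {E' : M' → M' → Prop} (h : IsZFC E)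
    (ht : ∀ P : ∀ (M : Type v), (M → M → Prop) → (ℕ → M) → Prop, FDef P →
      (∀ w, P M E w) → ∀ w, P M' E' w) : IsZFC E' := by
  let w₀ : ℕ → M' := fun _ => Classical.arbitrary M'
  refine ⟨?_, ?_, ?_, ?_, ?_, ?_, ?_, ?_, ?_⟩
  · have hP := FDef.all (FDef.all (FDef.imp (FDef.all (FDef.iff (FDef.mem.{v} 0 2)
      (FDef.mem.{v} 0 1))) (FDef.eq.{v} 1 0)))
    exact ht _ hP (fun _ => h.ext) w₀
  · have hP := FDef.all (FDef.imp (FDef.ex (FDef.mem.{v} 0 1)) (FDef.ex (FDef.and
      (FDef.mem.{v} 0 1) (FDef.all (FDef.imp (FDef.mem.{v} 0 1) (FDef.not (FDef.mem.{v} 0 2)))))))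
    exact ht _ hP (fun _ => h.foundation) w₀
  · have hP := FDef.all (FDef.all (FDef.ex (FDef.all (FDef.iff (FDef.mem.{v} 0 1)
      (FDef.or (FDef.eq.{v} 0 3) (FDef.eq.{v} 0 2))))))
    exact ht _ hP (fun _ => h.pairing) w₀
  · have hP := FDef.all (FDef.ex (FDef.all (FDef.iff (FDef.mem.{v} 0 1)
      (FDef.ex (FDef.and (FDef.mem.{v} 0 3) (FDef.mem.{v} 1 0))))))
    exact ht _ hP (fun _ => h.union) w₀
  · have hP := FDef.all (FDef.ex (FDef.all (FDef.iff (FDef.mem.{v} 0 1)
      (FDef.all (FDef.imp (FDef.mem.{v} 0 1) (FDef.mem.{v} 0 3))))))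
    exact ht _ hP (fun _ => h.power) w₀
  · have hP := FDef.ex (FDef.and (FDef.ex (FDef.and (FDef.mem.{v} 0 1)
      (FDef.all (FDef.not (FDef.mem.{v} 0 1))))) (FDef.all (FDef.imp (FDef.mem.{v} 0 1)
      (FDef.ex (FDef.and (FDef.mem.{v} 0 2) (FDef.all (FDef.iff (FDef.mem.{v} 0 1)
        (FDef.or (FDef.mem.{v} 0 2) (FDef.eq.{v} 0 2)))))))))
    exact ht _ hP (fun _ => h.infinity) w₀
  · intro φ w a
    obtain ⟨N, hN⟩ := sat_local.{v} φ
    have hP : FDef fun (M : Type v) E w => ∃ b, ∀ x, E x b ↔ E x (w (N + 1)) ∧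
        Sat E φ (Function.update w 0 x) := by
      refine FDef.congr (FDef.ex (FDef.all (FDef.iff (FDef.mem.{v} 0 1) (FDef.and
        (FDef.mem.{v} 0 (N + 3)) (FDef.comp (FDef.sat.{v} φ) (trzS0 0)))))) ?_
      intro M E w
      refine exists_congr fun b => forall_congr' fun x => ?_
      show (E x b ↔ E x (w (N + 1)) ∧ Sat E φ (scons x (scons b w) ∘ trzS0 0)) ↔ _
      rw [trz_upd0]
    obtain ⟨b, hb⟩ := ht _ hP (fun w => h.separation φ w (w (N + 1)))
      (Function.update w (N + 1) a)
    refine ⟨b, fun x => ?_⟩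
    rw [hb x, Function.update_self]
    refine and_congr_right fun _ => hN M' E' _ _ ?_
    intro i hi
    by_cases h0 : i = 0
    · subst h0
      simp
    · rw [Function.update_of_ne h0, Function.update_of_ne h0,
        Function.update_of_ne (by omega)]
  · intro φ w a
    obtain ⟨N, hN⟩ := sat_local.{v} φ
    have hP : FDef fun (M : Type v) E w => (∀ x, E x (w (N + 2)) → ∀ y y',
        Sat E φ (Function.update (Function.update w 0 x) 1 y) →
        Sat E φ (Function.update (Function.update w 0 x) 1 y') → y = y') →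
        ∃ b, ∀ y, E y b ↔ ∃ x, E x (w (N + 2)) ∧
          Sat E φ (Function.update (Function.update w 0 x) 1 y) := by
      refine FDef.congr (FDef.imp (FDef.all (FDef.imp (FDef.mem.{v} 0 (N + 3)) (FDef.all (FDef.all
        (FDef.imp (FDef.comp (FDef.sat.{v} φ) (trzS1 2 1)) (FDef.imp (FDef.comp (FDef.sat.{v} φ)
          (trzS1 2 0)) (FDef.eq.{v} 1 0))))))) (FDef.ex (FDef.all (FDef.iff (FDef.mem.{v} 0 1)
        (FDef.ex (FDef.and (FDef.mem.{v} 0 (N + 5)) (FDef.comp (FDef.sat.{v} φ)
          (trzS1 0 1)))))))) ?_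
      intro M E w
      refine imp_congr ?_ ?_
      · refine forall_congr' fun x => imp_congr Iff.rfl (forall_congr' fun y =>
          forall_congr' fun y' => ?_)
        show (Sat E φ (scons y' (scons y (scons x w)) ∘ trzS1 2 1) →
          Sat E φ (scons y' (scons y (scons x w)) ∘ trzS1 2 0) → y = y') ↔ _
        rw [trz_upd1 (scons y' (scons y (scons x w))) w (fun n => rfl) 2 1,
          trz_upd1 (scons y' (scons y (scons x w))) w (fun n => rfl) 2 0]
        rfl
      · refine exists_congr fun b => forall_congr' fun y => iff_congr Iff.rfl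
          (exists_congr fun x => and_congr Iff.rfl ?_)
        show Sat E φ (scons x (scons y (scons b w)) ∘ trzS1 0 1) ↔ _
        rw [trz_upd1 (scons x (scons y (scons b w))) w (fun n => rfl) 0 1]
        rfl
    have hagree : ∀ x y, Sat E' φ (Function.update (Function.update
        (Function.update w (N + 2) a) 0 x) 1 y) ↔
        Sat E' φ (Function.update (Function.update w 0 x) 1 y) := by
      intro x y
      refine hN M' E' _ _ ?_
      intro i hi
      by_cases h1 : i = 1
      · subst h1
        simp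
      · rw [Function.update_of_ne h1, Function.update_of_ne h1]
        by_cases h0 : i = 0
        · subst h0
          simp
        · rw [Function.update_of_ne h0, Function.update_of_ne h0,
            Function.update_of_ne (by omega)]
    intro hf
    obtain ⟨b, hb⟩ := ht _ hP (fun w => h.replacement φ w (w (N + 2)))
      (Function.update w (N + 2) a) (by
        intro x hx y y' h1 h2
        rw [Function.update_self] at hx
        exact hf x hx y y' ((hagree x y).1 h1) ((hagree x y').1 h2))
    refine ⟨b, fun y => ?_⟩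
    rw [hb y, Function.update_self]
    exact exists_congr fun x => and_congr_right fun _ => hagree x y
  · have hP := FDef.all (FDef.imp (FDef.all (FDef.imp (FDef.mem.{v} 0 1) (FDef.ex
      (FDef.mem.{v} 0 1)))) (FDef.imp (FDef.all (FDef.all (FDef.imp (FDef.mem.{v} 1 2) (FDef.imp
      (FDef.mem.{v} 0 2) (FDef.imp (FDef.ex (FDef.and (FDef.mem.{v} 0 2) (FDef.mem.{v} 0 1)))
      (FDef.eq.{v} 1 0)))))) (FDef.ex (FDef.all (FDef.imp (FDef.mem.{v} 0 2) (FDef.ex (FDef.and
      (FDef.and (FDef.mem.{v} 0 2) (FDef.mem.{v} 0 1)) (FDef.all (FDef.imp (FDef.and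
      (FDef.mem.{v} 0 3) (FDef.mem.{v} 0 2)) (FDef.eq.{v} 0 1))))))))))
    exact ht _ hP (fun _ => h.choice) w₀

end PK
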