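import Pool.Agent.H92.PK.Min
import Pool.Agent.H92.PK.Ordw
import Pool.Agent.H92.PK.TrZ

/-!
# MAIN: the theorem for an abstract forcing
-/

set_option autoImplicit false

universe u v

open Cardinal Order

namespace PK

open BV

variable {B : Type u} [CompleteBooleanAlgebra B] {lam : Cardinal.{u}}

theorem inner_WV (U : UF B) : IsInner (MU.E U) (WV U) where
  trans := WV_trans U
  ord := ord_WV U
  zfc :=
    have : Nonempty {m : MU U // WV U m} := ⟨jV U ∅⟩
    isZFC_of_transfer isZFC_V.{u} fun _ hP h => transfer U hP h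

theorem gch_WV (hG : ∀ c : Cardinal.{u}, ℵ₀ ≤ c → 2 ^ c = succ c) (U : UF B) :
    IsGCH (Res (MU.E U) (WV U)) :=
  transfer U def_isGCH (fun _ => isGCH_V hG) (fun _ => jV U ∅)

theorem example_of_frc (hG : ∀ c : Cardinal.{u}, ℵ₀ ≤ c → 2 ^ c = succ c)
    (h1 : ℵ₀ < lam.ord.cof) (h2 : lam.ord.cof < lam) (F : Frc lam B) (U : UF B) :
    IsExample (MU.E U) (WV U) (ck U lam.ord) (MU.mk U (nameA F.a)) where
  zfc := BV.isZFC U
  inner := inner_WV U
  gch := gch_WV hG U
  mem := WV_ck U _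
  sing := by
    have h3 := (elem U (def_isSingUnc 0) (fun _ => lam.ord.toZFSet)).2 (isSingUnc_V h1 h2)
    have h4 : jV U lam.ord.toZFSet = ⟨ck U lam.ord, WV_ck U _⟩ := Subtype.ext (jV_ck U _)
    rw [← h4]
    exact h3
  sub := by
    intro x hx
    refine ball_name (P := fun M E _ w => E (w 0) (w 1)) (FDef2.mem 0 1)
      (fun _ => chk B lam.ord) (nameA F.a) (fun U i _ => ?_) U x hx
    exact (E_ck U _ _).2 i.toOrd.2
  least := least F.a F.gen U
  card := fun x hx h => card_pres F.cov U x hx h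
  reals := ⟨MU.mk U (nameRs F.a F.D), rha ((h1.trans h2).le) F U, F.more U⟩

end PK
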