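import Pool.Agent.H92.PK.Notn
import Pool.Agent.H26.BV.Pairs

/-!
# MOS: the collapse of a well-founded relation in a model of ZFC
-/

set_option autoImplicit false

universe u v

open Cardinal Order

namespace PK

open BV

theorem mos_upd0 {M : Type v} (a x : M) (w : ℕ → M) :
    Function.update (scons a w) 0 x = scons x w := by
  funext n
  cases n with
  | zero => simp
  | succ n => simp

theorem mos_upd1 {M : Type v} (a x y : M) (w : ℕ → M) :
    Function.update (Function.update (scons a (scons a w)) 0 x) 1 y = scons x (scons y w) := by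
  funext n
  rcases n with _ | _ | n
  · simp
  · simp
  · have h1 : n + 1 + 1 ≠ 1 := by omega
    have h0 : n + 1 + 1 ≠ 0 := by omega
    rw [Function.update_of_ne h1, Function.update_of_ne h0]
    rfl

/-- separation and replacement for definable properties (with parameters) -/
theorem sep_def {M : Type v} {E : M → M → Prop} (h : IsZFC E)
    {P : ∀ (M : Type v), (M → M → Prop) → (ℕ → M) → Prop} (hP : FDef P) (w : ℕ → M) (a : M) :
    ∃ b, ∀ x, E x b ↔ E x a ∧ P M E (scons x w) := by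
  obtain ⟨φ, hφ⟩ := hP
  obtain ⟨b, hb⟩ := h.separation φ (scons a w) a
  refine ⟨b, fun x => ?_⟩
  rw [hb, mos_upd0, hφ]

theorem repl_def {M : Type v} {E : M → M → Prop} (h : IsZFC E)
    {P : ∀ (M : Type v), (M → M → Prop) → (ℕ → M) → Prop} (hP : FDef P) (w : ℕ → M) (a : M)
    (hf : ∀ x, E x a → ∀ y y', P M E (scons x (scons y w)) → P M E (scons x (scons y' w)) →
      y = y') :
    ∃ b, ∀ y, E y b ↔ ∃ x, E x a ∧ P M E (scons x (scons y w)) := by
  obtain ⟨φ, hφ⟩ := hP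
  obtain ⟨b, hb⟩ := h.replacement φ (scons a (scons a w)) a (by
    intro x hx y y' h1 h2
    rw [mos_upd1, hφ] at h1 h2
    exact hf x hx y y' h1 h2)
  refine ⟨b, fun y => ?_⟩
  rw [hb]
  refine exists_congr fun x => and_congr_right fun _ => ?_
  rw [mos_upd1, hφ]

/-- ordered pairs, the cartesian product -/
theorem exists_prod {M : Type v} {E : M → M → Prop} (h : IsZFC E) (x y : M) :
    ∃ p, ∀ z, E z p ↔ ∃ s t, E s x ∧ E t y ∧ IsOPair E z s t := by
  have h1 : ∀ s, ∃ b, ∀ z, E z b ↔ ∃ t, E t y ∧ IsOPair E z s t := by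
    intro s
    exact repl_def h (def_isOPair 1 2 0) (fun _ => s) y
      (fun t _ z z' hz hz' => isOPair_unique h.ext hz hz')
  have h2 : FDef fun (M : Type v) E w => ∀ z, E z (w 1) ↔ ∃ t, E t (w 2) ∧
      IsOPair E z (w 0) t := by
    have := FDef.all (FDef.iff (FDef.mem.{v} 0 2)
      (FDef.ex (FDef.and (FDef.mem.{v} 0 4) (def_isOPair.{v} 1 2 0))))
    exact this
  obtain ⟨S, hS⟩ := repl_def h h2 (fun _ => y) x (by
    intro s _ b b' hb hb'
    exact h.ext _ _ fun z => (hb z).trans (hb' z).symm)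
  obtain ⟨p, hp⟩ := h.union S
  refine ⟨p, fun z => ?_⟩
  rw [hp]
  constructor
  · rintro ⟨b, hb, hz⟩
    obtain ⟨s, hs, hb⟩ := (hS b).1 hb
    obtain ⟨t, ht, hzt⟩ := (hb z).1 hz
    exact ⟨s, t, hs, ht, hzt⟩
  · rintro ⟨s, t, hs, ht, hz⟩
    obtain ⟨b, hb⟩ := h1 s
    exact ⟨b, (hS b).2 ⟨s, hs, hb⟩, (hb z).2 ⟨t, ht, hz⟩⟩

/-- attempts: partial solutions of the recursion -/
def mosAtt {M : Type v} (E : M → M → Prop) (g R d : M) : Prop :=
  (∀ x y, App E g x y → E x d) ∧
  (∀ x y y', App E g x y → App E g x y' → y = y') ∧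
  (∀ x y x', App E g x y → E x' d → App E R x' x → ∃ y', App E g x' y') ∧
  (∀ x y z, App E g x y → (E z y ↔ ∃ x', E x' d ∧ App E R x' x ∧ App E g x' z))

theorem mos_def_att (i j k : ℕ) :
    FDef fun (M : Type v) E w => mosAtt E (w i) (w j) (w k) := by
  have h1 := FDef.all (FDef.all (FDef.imp (def_app.{v} (i + 2) 1 0) (FDef.mem.{v} 1 (k + 2))))
  have h2 := FDef.all (FDef.all (FDef.all (FDef.imp (def_app.{v} (i + 3) 2 1)
    (FDef.imp (def_app.{v} (i + 3) 2 0) (FDef.eq.{v} 1 0)))))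
  have h3 := FDef.all (FDef.all (FDef.all (FDef.imp (def_app.{v} (i + 3) 2 1)
    (FDef.imp (FDef.mem.{v} 0 (k + 3)) (FDef.imp (def_app.{v} (j + 3) 0 2)
      (FDef.ex (def_app.{v} (i + 4) 1 0)))))))
  have h4 := FDef.all (FDef.all (FDef.all (FDef.imp (def_app.{v} (i + 3) 2 1)
    (FDef.iff (FDef.mem.{v} 0 1) (FDef.ex (FDef.and (FDef.mem.{v} 0 (k + 4))
      (FDef.and (def_app.{v} (j + 4) 0 3) (def_app.{v} (i + 4) 0 1))))))))
  exact FDef.and h1 (FDef.and h2 (FDef.and h3 h4))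

theorem mos_agree {M : Type v} {E : M → M → Prop} (h : IsZFC E) {d R : M}
    (hwf : ∀ s, (∃ x, E x s) → (∀ x, E x s → E x d) →
      ∃ x, E x s ∧ ∀ y, E y s → ¬ App E R y x) {g g' : M} (hg : mosAtt E g R d)
    (hg' : mosAtt E g' R d) {x y y' : M} (hx : App E g x y) (hx' : App E g' x y') : y = y' := by
  by_contra hne
  have hD : FDef fun (M : Type v) E w => ∃ y, ∃ y', App E (w 1) (w 0) y ∧ App E (w 2) (w 0) y' ∧
      ¬ y = y' := by
    have := FDef.ex (FDef.ex (FDef.and (def_app.{v} 3 2 1)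
      (FDef.and (def_app.{v} 4 2 0) (FDef.not (FDef.eq.{v} 1 0)))))
    exact this
  obtain ⟨s, hs⟩ := sep_def h hD (scons g fun _ => g') d
  simp only [scons_zero] at hs
  have hs' : ∀ x, E x s ↔ E x d ∧ ∃ y, ∃ y', App E g x y ∧ App E g' x y' ∧ ¬ y = y' := hs
  obtain ⟨x₀, hx₀, hmin⟩ := hwf s ⟨x, (hs' x).2 ⟨hg.1 x y hx, y, y', hx, hx', hne⟩⟩
    (fun x hx => ((hs' x).1 hx).1)
  obtain ⟨-, y₀, y₀', h1, h2, h3⟩ := (hs' x₀).1 hx₀
  apply h3
  apply h.ext
  intro z
  rw [hg.2.2.2 x₀ y₀ z h1, hg'.2.2.2 x₀ y₀' z h2]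
  refine exists_congr fun x' => and_congr_right fun hx'd => and_congr_right fun hR => ?_
  obtain ⟨v, hv⟩ := hg.2.2.1 x₀ y₀ x' h1 hx'd hR
  obtain ⟨v', hv'⟩ := hg'.2.2.1 x₀ y₀' x' h2 hx'd hR
  have hvv : v = v' := by
    by_contra hne
    exact hmin x' ((hs' x').2 ⟨hx'd, v, v', hv, hv', hne⟩) hR
  subst hvv
  constructor
  · intro hz
    rw [hg.2.1 x' z v hz hv]; exact hv'
  · intro hz
    rw [hg'.2.1 x' z v hz hv']; exact hv

/-- adding a pair to a set -/
theorem mos_insert {M : Type v} {E : M → M → Prop} (h : IsZFC E) (F p : M) :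
    ∃ G, ∀ q, E q G ↔ E q F ∨ q = p := by
  obtain ⟨a, ha⟩ := h.pairing p p
  obtain ⟨b, hb⟩ := h.pairing F a
  obtain ⟨G, hG⟩ := h.union b
  refine ⟨G, fun q => ?_⟩
  rw [hG]
  constructor
  · rintro ⟨c, hc, hq⟩
    rcases (hb c).1 hc with rfl | rfl
    · exact Or.inl hq
    · rcases (ha q).1 hq with h1 | h1 <;> exact Or.inr h1
  · rintro (hq | hq)
    · exact ⟨F, (hb F).2 (Or.inl rfl), hq⟩
    · exact ⟨a, (hb a).2 (Or.inr rfl), (ha q).2 (Or.inl hq)⟩

/-- Let the relation `R` be well-founded on `d`. There is a function `f` on `d` with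
`f(x) = {f(x') : x' ∈ d, x' R x}`. Proof: an attempt is a function `g` whose domain is a subset of
`d` closed under `R`-predecessors in `d` and which satisfies this equation on its domain. Two
attempts agree on common elements of their domains (take an `R`-minimal element of the set of
disagreement). By replacement the union `F` of all attempts is a set (the value at `x` is unique);
`F` is an attempt. If its domain is not `d` take an `R`-minimal `x` outside of the domain and extend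
`F` by `x ↦ {F(x') : x' ∈ d, x' R x}`. -/
theorem exists_collapse {M : Type v} {E : M → M → Prop} (h : IsZFC E) (d R : M)
    (hwf : ∀ s, (∃ x, E x s) → (∀ x, E x s → E x d) →
      ∃ x, E x s ∧ ∀ y, E y s → ¬ App E R y x) :
    ∃ f, (∀ x, E x d → ∃ y, App E f x y) ∧
      (∀ x y y', App E f x y → App E f x y' → y = y') ∧
      ∀ x y, E x d → App E f x y → ∀ z, E z y ↔ ∃ x', E x' d ∧ App E R x' x ∧ App E f x' z := by
  -- the union of all attempts
  have hD : FDef fun (M : Type v) E w => ∃ y, IsOPair E (w 1) (w 0) y ∧ ∃ g,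
      mosAtt E g (w 2) (w 3) ∧ App E g (w 0) y := by
    have := FDef.ex (FDef.and (def_isOPair.{v} 2 1 0)
      (FDef.ex (FDef.and (mos_def_att.{v} 0 4 5) (def_app.{v} 0 2 1))))
    exact this
  obtain ⟨F, hF⟩ := repl_def h hD (scons R fun _ => d) d (by
    rintro x - p p' ⟨y, hp, g, hg, hgy⟩ ⟨y', hp', g', hg', hgy'⟩
    have : y = y' := mos_agree h hwf hg hg' hgy hgy'
    subst this
    exact isOPair_unique h.ext hp hp')
  have hF' : ∀ p, E p F ↔ ∃ x, E x d ∧ ∃ y, IsOPair E p x y ∧ ∃ g, mosAtt E g R d ∧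
      App E g x y := hF
  have hAF : ∀ x y, App E F x y ↔ ∃ g, mosAtt E g R d ∧ App E g x y := by
    intro x y
    constructor
    · rintro ⟨p, hp, hpF⟩
      obtain ⟨x', -, y', hp', g, hg, hgy⟩ := (hF' p).1 hpF
      obtain ⟨rfl, rfl⟩ := isOPair_inj hp hp'
      exact ⟨g, hg, hgy⟩
    · rintro ⟨g, hg, hgy⟩
      obtain ⟨p, hp⟩ := exists_isOPair h.pairing x y
      exact ⟨p, hp, (hF' p).2 ⟨x, hg.1 x y hgy, y, hp, g, hg, hgy⟩⟩
  have hFatt : mosAtt E F R d := by
    refine ⟨?_, ?_, ?_, ?_⟩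
    · intro x y hxy
      obtain ⟨g, hg, hgy⟩ := (hAF x y).1 hxy
      exact hg.1 x y hgy
    · intro x y y' hxy hxy'
      obtain ⟨g, hg, hgy⟩ := (hAF x y).1 hxy
      obtain ⟨g', hg', hgy'⟩ := (hAF x y').1 hxy'
      exact mos_agree h hwf hg hg' hgy hgy'
    · intro x y x' hxy hx'd hR
      obtain ⟨g, hg, hgy⟩ := (hAF x y).1 hxy
      obtain ⟨y', hy'⟩ := hg.2.2.1 x y x' hgy hx'd hR
      exact ⟨y', (hAF x' y').2 ⟨g, hg, hy'⟩⟩
    · intro x y z hxy
      obtain ⟨g, hg, hgy⟩ := (hAF x y).1 hxy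
      rw [hg.2.2.2 x y z hgy]
      refine exists_congr fun x' => and_congr_right fun hx'd => and_congr_right fun hR => ?_
      constructor
      · intro hz
        exact (hAF x' z).2 ⟨g, hg, hz⟩
      · intro hz
        obtain ⟨g', hg', hgz⟩ := (hAF x' z).1 hz
        obtain ⟨y', hy'⟩ := hg.2.2.1 x y x' hgy hx'd hR
        rw [mos_agree h hwf hg' hg hgz hy']
        exact hy'
  -- the domain is everything
  have htot : ∀ x, E x d → ∃ y, App E F x y := by
    by_contra hcon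
    push Not at hcon
    obtain ⟨x₁, hx₁d, hx₁⟩ := hcon
    have hD2 : FDef fun (M : Type v) E w => ¬ ∃ y, App E (w 1) (w 0) y := by
      have := FDef.not (FDef.ex (def_app.{v} 2 1 0))
      exact this
    obtain ⟨s, hs⟩ := sep_def h hD2 (fun _ => F) d
    have hs' : ∀ x, E x s ↔ E x d ∧ ¬ ∃ y, App E F x y := hs
    obtain ⟨x, hxs, hmin⟩ := hwf s ⟨x₁, (hs' x₁).2 ⟨hx₁d, fun ⟨y, hy⟩ => hx₁ y hy⟩⟩
      (fun x hx => ((hs' x).1 hx).1)
    obtain ⟨hxd, hxF⟩ := (hs' x).1 hxs
    have hxx : ¬ App E R x x := hmin x hxs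
    have hpred : ∀ x', E x' d → App E R x' x → ∃ y, App E F x' y := by
      intro x' hx'd hR
      by_contra hno
      exact hmin x' ((hs' x').2 ⟨hx'd, hno⟩) hR
    have hD3 : FDef fun (M : Type v) E w => App E (w 2) (w 0) (w 3) ∧ App E (w 4) (w 0) (w 1) :=
      FDef.and (def_app.{v} 2 0 3) (def_app.{v} 4 0 1)
    obtain ⟨v, hv⟩ := repl_def h hD3 (scons R (scons x fun _ => F)) d (by
      rintro x' - y y' ⟨-, h1⟩ ⟨-, h2⟩
      exact hFatt.2.1 x' y y' h1 h2)
    have hv' : ∀ z, E z v ↔ ∃ x', E x' d ∧ App E R x' x ∧ App E F x' z := hv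
    obtain ⟨p, hp⟩ := exists_isOPair h.pairing x v
    obtain ⟨G, hG⟩ := mos_insert h F p
    have hAG : ∀ a b, App E G a b ↔ App E F a b ∨ (a = x ∧ b = v) := by
      intro a b
      constructor
      · rintro ⟨q, hq, hqG⟩
        rcases (hG q).1 hqG with hqF | rfl
        · exact Or.inl ⟨q, hq, hqF⟩
        · exact Or.inr (isOPair_inj hq hp)
      · rintro (⟨q, hq, hqF⟩ | ⟨rfl, rfl⟩)
        · exact ⟨q, hq, (hG q).2 (Or.inl hqF)⟩
        · exact ⟨p, hp, (hG p).2 (Or.inr rfl)⟩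
    have hGatt : mosAtt E G R d := by
      refine ⟨?_, ?_, ?_, ?_⟩
      · intro a b hab
        rcases (hAG a b).1 hab with h1 | ⟨rfl, rfl⟩
        · exact hFatt.1 a b h1
        · exact hxd
      · intro a b b' hab hab'
        rcases (hAG a b).1 hab with h1 | ⟨rfl, rfl⟩
        · rcases (hAG a b').1 hab' with h2 | ⟨rfl, rfl⟩
          · exact hFatt.2.1 a b b' h1 h2
          · exact absurd ⟨b, h1⟩ hxF
        · rcases (hAG a b').1 hab' with h2 | ⟨-, rfl⟩
          · exact absurd ⟨b', h2⟩ hxF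
          · rfl
      · intro a b a' hab ha'd hR
        rcases (hAG a b).1 hab with h1 | ⟨rfl, rfl⟩
        · obtain ⟨y', hy'⟩ := hFatt.2.2.1 a b a' h1 ha'd hR
          exact ⟨y', (hAG a' y').2 (Or.inl hy')⟩
        · obtain ⟨y', hy'⟩ := hpred a' ha'd hR
          exact ⟨y', (hAG a' y').2 (Or.inl hy')⟩
      · intro a b z hab
        rcases (hAG a b).1 hab with h1 | ⟨rfl, rfl⟩
        · rw [hFatt.2.2.2 a b z h1]
          refine exists_congr fun x' => and_congr_right fun hx'd => and_congr_right fun hR => ?_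
          rw [hAG]
          constructor
          · exact Or.inl
          · rintro (h2 | ⟨rfl, rfl⟩)
            · exact h2
            · exact absurd (hFatt.2.2.1 a b x' h1 hx'd hR) hxF
        · rw [hv']
          refine exists_congr fun x' => and_congr_right fun hx'd => and_congr_right fun hR => ?_
          rw [hAG]
          constructor
          · exact Or.inl
          · rintro (h2 | ⟨rfl, rfl⟩)
            · exact h2
            · exact absurd hR hxx
    exact hxF ⟨v, (hAF x v).2 ⟨G, hGatt, (hAG x v).2 (Or.inr ⟨rfl, rfl⟩)⟩⟩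
  exact ⟨F, htot, hFatt.2.1, fun x y _ hxy z => hFatt.2.2.2 x y z hxy⟩

end PK
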