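import Pool.Agent.H92.PK.Beqs
import Pool.Agent.H92.PK.Bnd

/-!
# RHA: the reals `r_i` belong to `H^V(λ⁺)[A]`
-/

set_option autoImplicit false

universe u v

open Cardinal Order

namespace PK

open BV

variable {B : Type u} [CompleteBooleanAlgebra B] {lam : Cardinal.{u}}

theorem WV_ck (U : UF B) (α : Ordinal.{u}) : WV U (ck U α) := by
  have h := (jV U α.toZFSet).2
  rw [jV_ck U α] at h
  exact h

/-- `d = w 1` belongs to `H(l⁺)` of the class, `l = w 0` -/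
def RhaH (M : Type v) (E : M → M → Prop) (W : M → Prop) (w : ℕ → M) : Prop :=
  ∃ (h : W (w 0)) (h' : W (w 1)), InH (Res E W) ⟨w 0, h⟩ ⟨w 1, h'⟩

theorem rha_defH : FDef2.{v} RhaH := FDef2.rel2 (def_inH 0 1)

/-- the property of `m = w 0`; `w 1` is `ω`, `w 2` is `A`, `w 3` is `λ` -/
def RhaP (M : Type v) (E : M → M → Prop) (W : M → Prop) (w : ℕ → M) : Prop :=
  (∀ k, E k (w 0) → E k (w 1)) ∧ ∃ d, (∃ (h : W (w 3)) (h' : W d),
      InH (Res E W) ⟨w 3, h⟩ ⟨d, h'⟩) ∧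
    ∀ k, E k (w 1) → (E k (w 0) ↔ ∃ v, App E d k v ∧ ∀ η, E η v → E η (w 2))

theorem rha_defP : FDef2.{v} RhaP :=
  FDef2.and
    (FDef2.all (P := fun M E W w => E (w 0) (w 1) → E (w 0) (w 2))
      (FDef2.imp (FDef2.mem 0 1) (FDef2.mem 0 2)))
    (FDef2.ex (P := fun M E W w => (∃ (h : W (w 4)) (h' : W (w 0)),
        InH (Res E W) ⟨w 4, h⟩ ⟨w 0, h'⟩) ∧
        ∀ k, E k (w 2) → (E k (w 1) ↔ ∃ v, App E (w 0) k v ∧ ∀ η, E η v → E η (w 3)))
      (FDef2.and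
        (FDef2.comp (P := RhaH) rha_defH (fun n => if n = 0 then 4 else 0))
        (FDef2.all (P := fun M E W w => E (w 0) (w 3) → (E (w 0) (w 2) ↔
            ∃ v, App E (w 1) (w 0) v ∧ ∀ η, E η v → E η (w 4)))
          (FDef2.imp (FDef2.mem 0 3) (FDef2.iff (FDef2.mem 0 2)
            (FDef2.ex (P := fun M E W w => App E (w 2) (w 1) (w 0) ∧
                ∀ η, E η (w 0) → E η (w 5))
              (FDef2.and (FDef2.ofDef (def_app 2 1 0))
                (FDef2.all (P := fun M E W w => E (w 0) (w 1) → E (w 0) (w 6))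
                  (FDef2.imp (FDef2.mem 0 1) (FDef2.mem 0 6))))))))))

theorem rha_inH (U : UF B) {x : ZFSet.{u}} (h : InH VE lam.ord.toZFSet x) :
    InH (Res (MU.E U) (WV U)) ⟨ck U lam.ord, WV_ck U _⟩ (jV U x) := by
  have h1 := (elem U (def_inH 0 1) (scons lam.ord.toZFSet (fun _ => x))).2 h
  have h2 : jV U lam.ord.toZFSet = ⟨ck U lam.ord, WV_ck U _⟩ := Subtype.ext (jV_ck U _)
  rw [← h2]
  exact h1

/-- Every element `m` of the set of reals is a subset of `ω` and of the form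
`{k ∈ ω : ∃ w, ⟨k, w⟩ ∈ D ∧ w ⊆ A}` for some `D ∈ H^V(λ⁺)`. By `ball_name` it is enough to prove it
for `m = r_i`, for which it holds by `real_iff`, `inH_dz` and `elem`. -/
theorem form_of_mem (hlam : ℵ₀ ≤ lam) {I : Type u} (a : lam.ord.ToType → B)
    (D : I → ℕ → Set (Set lam.ord.ToType)) (hD : ∀ i k, #(D i k) ≤ lam) (U : UF B) (m : MU U)
    (hm : MU.E U m (MU.mk U (nameRs a D))) :
    (∀ k, MU.E U k m → MU.E U k (ck U Ordinal.omega0)) ∧
    ∃ d, (∃ h : WV U d, InH (Res (MU.E U) (WV U)) ⟨ck U lam.ord, WV_ck U _⟩ ⟨d, h⟩) ∧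
      ∀ k, MU.E U k (ck U Ordinal.omega0) → (MU.E U k m ↔
        ∃ w, App (MU.E U) d k w ∧ ∀ η, MU.E U η w → MU.E U η (MU.mk U (nameA a))) := by
  have key := ball_name (P := RhaP) rha_defP
    (scons (chk B Ordinal.omega0) (scons (nameA a) (fun _ => chk B lam.ord))) (nameRs a D)
    (fun V (i : I) _ => by
      refine ⟨fun k hk => nameR_sub (fun k => bD a (D i k)) V k hk, (jV V (dz (D i))).1, ?_, ?_⟩
      · exact ⟨WV_ck V lam.ord, (jV V (dz (D i))).2, rha_inH V (inH_dz hlam (D i) (hD i))⟩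
      · intro k hk
        exact real_iff a (D i) V k hk) U m hm
  obtain ⟨h1, d, ⟨h2, h3, h4⟩, h5⟩ := key
  exact ⟨h1, d, ⟨h3, h4⟩, h5⟩

/-- `adj_sep` with `o = ω`, which belongs to `H^V(λ⁺)` by `inH_omega` and `elem` -/
theorem rha (hlam : ℵ₀ ≤ lam) (F : Frc lam B) (U : UF B) (m : MU U)
    (hm : MU.E U m (MU.mk U (nameRs F.a F.D))) :
    (∀ w, IsOmega (MU.E U) w → ∀ z, MU.E U z m → MU.E U z w) ∧
      InAdj (MU.E U) (fun y => ∃ h : WV U y,
        InH (Res (MU.E U) (WV U)) ⟨ck U lam.ord, WV_ck U _⟩ ⟨y, h⟩)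
        (MU.mk U (nameA F.a)) m := by
  obtain ⟨h1, d, hd, h2⟩ := form_of_mem hlam F.a F.D F.cardD U m hm
  constructor
  · intro w hw z hz
    rw [(isOmega_ck F.cov U w).1 hw]
    exact h1 z hz
  · intro K hK hH hA
    have ho : K (ck U Ordinal.omega0) := by
      refine hH _ ⟨WV_ck U _, ?_⟩
      have h3 := rha_inH (lam := lam) U (inH_omega hlam)
      have h4 : jV U (Ordinal.omega0.{u}).toZFSet = ⟨ck U Ordinal.omega0, WV_ck U _⟩ :=
        Subtype.ext (jV_ck U _)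
      rw [h4] at h3
      exact h3
    exact adj_sep hK ho (hH d hd) hA h1 h2

end PK
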