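import Pool.Agent.H92.PK.Los2

/-!
# SRJ: every set of the quotient is an element of a transitive set which is the image of an ordinal
-/

set_option autoImplicit false

universe u v

open Cardinal Order

namespace PK

open BV

variable {B : Type u} [CompleteBooleanAlgebra B]

/-- the names which occur hereditarily in a name form a small family -/
theorem srj_small (x : BSet B) : ∃ (I : Type u) (t : I → BSet B),
    (∀ i (j : (t i).Idx), ∃ k, (t i).nm j = t k) ∧ ∃ i, t i = x := by
  induction x with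
  | mk ι A a ih =>
    choose I t h1 r h2 using ih
    refine ⟨Option (Σ i, I i), fun o => o.elim (BSet.mk ι A a) (fun p => t p.1 p.2), ?_, none, rfl⟩
    intro o
    cases o with
    | none =>
      intro j
      exact ⟨some ⟨j, r j⟩, (h2 j).symm⟩
    | some p =>
      intro j
      obtain ⟨k, hk⟩ := h1 p.1 p.2 j
      exact ⟨some ⟨p.1, k⟩, hk⟩

/-- the same indexed by an ordinal -/
theorem srj_ord (x : BSet B) : ∃ (δ : Ordinal.{u}) (t : δ.ToType → BSet B),
    (∀ i (j : (t i).Idx), ∃ k, (t i).nm j = t k) ∧ ∃ i, t i = x := by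
  obtain ⟨I, t, h1, i0, h2⟩ := srj_small x
  have hc : #((#I).ord.ToType) = #I := by
    rw [Cardinal.mk_toType, Cardinal.card_ord]
  obtain ⟨e⟩ := Cardinal.eq.mp hc
  refine ⟨(#I).ord, fun i => t (e i), ?_, e.symm i0, ?_⟩
  · intro i j
    obtain ⟨k, hk⟩ := h1 (e i) j
    refine ⟨e.symm k, ?_⟩
    dsimp only
    rw [e.apply_symm_apply]
    exact hk
  · dsimp only
    rw [e.apply_symm_apply]
    exact h2

/-- the name of the function `i ↦ t i` -/
noncomputable def srj_p {δ : Ordinal.{u}} (t : δ.ToType → BSet B) : BSet B :=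
  BSet.mk δ.ToType (fun i => opr (chk B (i.toOrd : Ordinal)) (t i)) (fun _ => ⊤)

theorem srj_bmem {δ : Ordinal.{u}} (t : δ.ToType → BSet B) (x y : BSet B) :
    bmem (opr x y) (srj_p t) =
      ⨆ i : δ.ToType, beq x (chk B (i.toOrd : Ordinal)) ⊓ beq y (t i) := by
  rw [srj_p, bmem_mk]
  simp only [top_inf_eq, beq_opr]

theorem srj_app_top {δ : Ordinal.{u}} (t : δ.ToType → BSet B) (i : δ.ToType) :
    bmem (opr (chk B (i.toOrd : Ordinal)) (t i)) (srj_p t) = ⊤ := by
  rw [srj_bmem, eq_top_iff]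
  refine le_trans ?_ (le_iSup _ i)
  rw [beq_refl, beq_refl, inf_top_eq]

theorem srj_ext_left {δ : Ordinal.{u}} (t : δ.ToType → BSet B) (z : BSet B) :
    Ext (fun x' => bmem x' (chk B δ) ⊓ bmem (opr x' z) (srj_p t)) := by
  refine ext_of_los (P := fun U m => MU.E U m (ck U δ) ∧
    App (MU.E U) (MU.mk U (srj_p t)) m (MU.mk U z)) ?_
  intro U x
  rw [UF.inf_mem_iff, los_app]
  exact Iff.rfl

/-- Let `x` be a name for `m`. The names which occur hereditarily in `x` (and `x` itself) form a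
small family `t i`, `i ∈ δ.ToType`, such that every name occurring in some `t i` is some `t j`.
Take `p = {⟨i, t i⟩ : i ∈ δ}`. -/
theorem exists_surj (U : UF B) (m : MU U) : ∃ (δ : Ordinal.{u}) (p : MU U),
    (∀ x, MU.E U x (ck U δ) → ∃ y, App (MU.E U) p x y) ∧
    (∀ x y y', App (MU.E U) p x y → App (MU.E U) p x y' → y = y') ∧
    (∃ x, MU.E U x (ck U δ) ∧ App (MU.E U) p x m) ∧
    ∀ x y z, MU.E U x (ck U δ) → App (MU.E U) p x y → MU.E U z y →
      ∃ x', MU.E U x' (ck U δ) ∧ App (MU.E U) p x' z := by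
  obtain ⟨x0, rfl⟩ := MU.mk_surj U m
  obtain ⟨δ, t, ht, i0, hi0⟩ := srj_ord x0
  have hlt : ∀ i : δ.ToType, (i.toOrd : Ordinal.{u}) < δ := fun i => i.toOrd.2
  refine ⟨δ, MU.mk U (srj_p t), ?_, ?_, ?_, ?_⟩
  · have hlos : ∀ (U : UF B) (x : BSet B), (⨆ y, bmem (opr x y) (srj_p t)) ∈ U ↔
        ∃ y, App (MU.E U) (MU.mk U (srj_p t)) (MU.mk U x) y := by
      intro U x
      exact los_iSup (ext_of_los (P := fun U m => App (MU.E U) (MU.mk U (srj_p t)) (MU.mk U x) m)
        (fun U y => los_app U _ _ _)) U (P := fun m => App (MU.E U) (MU.mk U (srj_p t)) (MU.mk U x) m)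
        (fun y => los_app U _ _ _)
    intro x hx
    refine ball_ck (P := fun U m => ∃ y, App (MU.E U) (MU.mk U (srj_p t)) m y) hlos δ ?_ U x hx
    intro V ξ hξ
    set i : δ.ToType := Ordinal.ToType.mk ⟨ξ, hξ⟩ with hi
    have hio : (i.toOrd : Ordinal.{u}) = ξ := by
      rw [hi]
      simp
    refine ⟨MU.mk V (t i), ?_⟩
    unfold ck
    rw [← los_app, ← hio, srj_app_top]
    exact V.top_mem
  · intro x y y' hy hy'
    obtain ⟨x, rfl⟩ := MU.mk_surj U x
    obtain ⟨y, rfl⟩ := MU.mk_surj U y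
    obtain ⟨y', rfl⟩ := MU.mk_surj U y'
    rw [MU.mk_eq_iff]
    rw [← los_app] at hy hy'
    refine U.mem_of_le (U.inf_mem hy hy') ?_
    rw [srj_bmem, srj_bmem]
    simp only [iSup_inf_eq, inf_iSup_eq]
    refine iSup_le fun i => iSup_le fun j => ?_
    by_cases hij : i = j
    · subst hij
      refine le_trans ?_ (rel_beq_aux (t i) y y')
      rw [beq_symm (t i) y, beq_symm (t i) y']
      exact le_inf (inf_le_left.trans inf_le_right) (inf_le_right.trans inf_le_right)
    · refine le_trans ?_ (bot_le : (⊥ : B) ≤ _)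
      have hne : (i.toOrd : Ordinal.{u}) ≠ j.toOrd := by
        intro h
        exact hij ((Ordinal.ToType.mk (o := δ)).symm.injective (Subtype.ext h))
      refine le_trans ?_ (rel_chk_aux hne x)
      first
        | exact le_inf (inf_le_left.trans inf_le_left) (inf_le_right.trans inf_le_left)
        | exact le_inf (inf_le_right.trans inf_le_left) (inf_le_left.trans inf_le_left)
  · refine ⟨ck U (i0.toOrd : Ordinal), (E_ck U _ _).2 (hlt i0), ?_⟩
    unfold ck
    rw [← los_app, ← hi0, srj_app_top]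
    exact U.top_mem
  · intro x y z _ hxy hzy
    obtain ⟨x, rfl⟩ := MU.mk_surj U x
    obtain ⟨y, rfl⟩ := MU.mk_surj U y
    obtain ⟨z, rfl⟩ := MU.mk_surj U z
    rw [← los_app] at hxy
    rw [MU.E_mk] at hzy
    have hle : bmem (opr x y) (srj_p t) ⊓ bmem z y ≤
        ⨆ x', bmem x' (chk B δ) ⊓ bmem (opr x' z) (srj_p t) := by
      rw [srj_bmem]
      simp only [iSup_inf_eq]
      refine iSup_le fun i => ?_
      have h1 : beq x (chk B (i.toOrd : Ordinal)) ⊓ beq y (t i) ⊓ bmem z y ≤ bmem z (t i) :=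
        le_trans (inf_le_inf_right _ inf_le_right) (bmem_congr_right y (t i) z)
      refine h1.trans ?_
      rw [bmem_eq]
      refine iSup_le fun j => ?_
      obtain ⟨k, hk⟩ := ht i j
      rw [hk]
      refine le_trans inf_le_right ?_
      refine le_trans ?_ (le_iSup _ (chk B (k.toOrd : Ordinal)))
      rw [bmem_chk_of_lt (hlt k), top_inf_eq, srj_bmem]
      refine le_trans ?_ (le_iSup _ k)
      rw [beq_refl, top_inf_eq]
    have h2 := U.mem_of_le (U.inf_mem hxy hzy) hle
    have h3 := (los_iSup (srj_ext_left t z) U (P := fun m => MU.E U m (ck U δ) ∧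
      App (MU.E U) (MU.mk U (srj_p t)) m (MU.mk U z)) (fun x => by
        rw [UF.inf_mem_iff, los_app]
        exact Iff.rfl)).1 h2
    exact h3

end PK
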