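import Pool.Agent.H92.PK.Code
import Pool.Agent.H92.PK.Mos
import Pool.Agent.H92.PK.Srj
import Pool.Agent.H92.PK.Rha

/-!
# MIN: the quotient is the smallest inner model which contains the ground model and `A`
-/

set_option autoImplicit false

universe u v

open Cardinal Order

namespace PK

open BV

section General

variable {M : Type v} {E : M → M → Prop} {K : M → Prop}

theorem min_isPair (ht : ∀ x y, K x → E y x → K y) (p x y : {x // K x}) :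
    IsPair (Res E K) p x y ↔ IsPair E p.1 x.1 y.1 := by
  constructor
  · intro h z
    constructor
    · intro hz
      rcases (h ⟨z, ht _ _ p.2 hz⟩).1 hz with h1 | h1
      · exact Or.inl (congrArg Subtype.val h1)
      · exact Or.inr (congrArg Subtype.val h1)
    · rintro (rfl | rfl)
      · exact (h x).2 (Or.inl rfl)
      · exact (h y).2 (Or.inr rfl)
  · intro h z
    refine (h z.1).trans ?_
    rw [Subtype.ext_iff, Subtype.ext_iff]

theorem min_isOPair (ht : ∀ x y, K x → E y x → K y) (p x y : {x // K x}) :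
    IsOPair (Res E K) p x y ↔ IsOPair E p.1 x.1 y.1 := by
  constructor
  · rintro ⟨a, b, ha, hb, hab⟩
    exact ⟨a.1, b.1, (min_isPair ht _ _ _).1 ha, (min_isPair ht _ _ _).1 hb,
      (min_isPair ht _ _ _).1 hab⟩
  · rintro ⟨a, b, ha, hb, hab⟩
    have ka : K a := ht _ _ p.2 ((hab a).2 (Or.inl rfl))
    have kb : K b := ht _ _ p.2 ((hab b).2 (Or.inr rfl))
    exact ⟨⟨a, ka⟩, ⟨b, kb⟩, (min_isPair ht _ _ _).2 ha, (min_isPair ht _ _ _).2 hb,
      (min_isPair ht _ _ _).2 hab⟩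

theorem min_app (ht : ∀ x y, K x → E y x → K y) (f x y : {x // K x}) :
    App (Res E K) f x y ↔ App E f.1 x.1 y.1 := by
  constructor
  · rintro ⟨p, hp, hpf⟩
    exact ⟨p.1, (min_isOPair ht _ _ _).1 hp, hpf⟩
  · rintro ⟨p, hp, hpf⟩
    exact ⟨⟨p, ht _ _ f.2 hpf⟩, (min_isOPair ht _ _ _).2 hp, hpf⟩

theorem min_app_K (ht : ∀ x y, K x → E y x → K y) {f x y : M} (hf : K f) (h : App E f x y) :
    K x ∧ K y := by
  obtain ⟨p, ⟨a, b, ha, hb, hab⟩, hpf⟩ := h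
  have kp : K p := ht _ _ hf hpf
  have kb : K b := ht _ _ kp ((hab b).2 (Or.inr rfl))
  exact ⟨ht _ _ kb ((hb x).2 (Or.inl rfl)), ht _ _ kb ((hb y).2 (Or.inr rfl))⟩

/-- `∃ q, ⟨x, q⟩ ∈ Q ∧ ∀ v ∈ q, ∃ t ∈ v, t ⊆ A`, with `x = w 0`, `Q = w 1`, `A = w 2` -/
def MinP (M : Type v) (E : M → M → Prop) (w : ℕ → M) : Prop :=
  ∃ q, App E (w 1) (w 0) q ∧ ∀ v, E v q → ∃ t, E t v ∧ ∀ η, E η t → E η (w 2)

theorem min_def1 : FDef.{v} MinP :=
  FDef.ex (P := fun M E w => App E (w 2) (w 1) (w 0) ∧ ∀ v, E v (w 0) → ∃ t, E t v ∧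
      ∀ η, E η t → E η (w 3))
    (FDef.and (def_app 2 1 0)
      (FDef.all (P := fun M E w => E (w 0) (w 1) → ∃ t, E t (w 0) ∧ ∀ η, E η t → E η (w 4))
        (FDef.imp (FDef.mem 0 1)
          (FDef.ex (P := fun M E w => E (w 0) (w 1) ∧ ∀ η, E η (w 0) → E η (w 5))
            (FDef.and (FDef.mem 0 1)
              (FDef.all (P := fun M E w => E (w 0) (w 1) → E (w 0) (w 6))
                (FDef.imp (FDef.mem 0 1) (FDef.mem 0 6))))))))

theorem min_abs1 (ht : ∀ x y, K x → E y x → K y) (w : ℕ → {x // K x}) :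
    MinP _ (Res E K) w ↔ MinP _ E (fun i => (w i).1) := by
  constructor
  · rintro ⟨q, hq, h⟩
    refine ⟨q.1, (min_app ht _ _ _).1 hq, fun v hv => ?_⟩
    obtain ⟨t, htv, h'⟩ := h ⟨v, ht _ _ q.2 hv⟩ hv
    exact ⟨t.1, htv, fun η hη => h' ⟨η, ht _ _ t.2 hη⟩ hη⟩
  · rintro ⟨q, hq, h⟩
    have kq : K q := (min_app_K ht (w 1).2 hq).2
    refine ⟨⟨q, kq⟩, (min_app ht (w 1) (w 0) ⟨q, kq⟩).2 hq, fun v hv => ?_⟩
    obtain ⟨t, htv, h'⟩ := h v.1 hv
    exact ⟨⟨t, ht _ _ v.2 htv⟩, htv, fun η hη => h' η.1 hη⟩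

/-- `w 0` is a pair `⟨x, x'⟩` with `f(x) ∈ f(x')`, `f = w 1` -/
def MinR (M : Type v) (E : M → M → Prop) (w : ℕ → M) : Prop :=
  ∃ x x' y y', IsOPair E (w 0) x x' ∧ App E (w 1) x y ∧ App E (w 1) x' y' ∧ E y y'

theorem min_def2 : FDef.{v} MinR :=
  FDef.ex (P := fun M E w => ∃ x' y y', IsOPair E (w 1) (w 0) x' ∧ App E (w 2) (w 0) y ∧
      App E (w 2) x' y' ∧ E y y')
    (FDef.ex (P := fun M E w => ∃ y y', IsOPair E (w 2) (w 1) (w 0) ∧ App E (w 3) (w 1) y ∧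
        App E (w 3) (w 0) y' ∧ E y y')
      (FDef.ex (P := fun M E w => ∃ y', IsOPair E (w 3) (w 2) (w 1) ∧ App E (w 4) (w 2) (w 0) ∧
          App E (w 4) (w 1) y' ∧ E (w 0) y')
        (FDef.ex (P := fun M E w => IsOPair E (w 4) (w 3) (w 2) ∧ App E (w 5) (w 3) (w 1) ∧
            App E (w 5) (w 2) (w 0) ∧ E (w 1) (w 0))
          (FDef.and (def_isOPair 4 3 2)
            (FDef.and (def_app 5 3 1) (FDef.and (def_app 5 2 0) (FDef.mem 1 0)))))))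

/-- `f(x) ≠ g(x)` with `x = w 0`, `f = w 1`, `g = w 2` -/
def MinD (M : Type v) (E : M → M → Prop) (w : ℕ → M) : Prop :=
  ∃ y y', App E (w 1) (w 0) y ∧ App E (w 2) (w 0) y' ∧ ¬ y = y'

theorem min_def3 : FDef.{v} MinD :=
  FDef.ex (P := fun M E w => ∃ y', App E (w 2) (w 1) (w 0) ∧ App E (w 3) (w 1) y' ∧ ¬ w 0 = y')
    (FDef.ex (P := fun M E w => App E (w 3) (w 2) (w 1) ∧ App E (w 4) (w 2) (w 0) ∧ ¬ w 1 = w 0)
      (FDef.and (def_app 3 2 1) (FDef.and (def_app 4 2 0) (FDef.not (FDef.eq 1 0)))))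

/-- all pairs of elements of `w 0` are elements of `w 1` -/
def MinS (M : Type v) (E : M → M → Prop) (w : ℕ → M) : Prop :=
  ∀ x x', E x (w 0) → E x' (w 0) → ∃ q, E q (w 1) ∧ IsOPair E q x x'

theorem min_def4 : FDef.{v} MinS :=
  FDef.all (P := fun M E w => ∀ x', E (w 0) (w 1) → E x' (w 1) → ∃ q, E q (w 2) ∧
      IsOPair E q (w 0) x')
    (FDef.all (P := fun M E w => E (w 1) (w 2) → E (w 0) (w 2) → ∃ q, E q (w 3) ∧
        IsOPair E q (w 1) (w 0))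
      (FDef.imp (FDef.mem 1 2) (FDef.imp (FDef.mem 0 2)
        (FDef.ex (P := fun M E w => E (w 0) (w 4) ∧ IsOPair E (w 0) (w 2) (w 1))
          (FDef.and (FDef.mem 0 4) (def_isOPair 0 2 1))))))

/-- the relation `f(y) ∈ f(x)` is well-founded -/
theorem min_wf (h : IsZFC E) (d f R : M)
    (hfun : ∀ x y y', App E f x y → App E f x y' → y = y')
    (htot : ∀ x, E x d → ∃ y, App E f x y)
    (hR : ∀ x x', App E R x x' → ∃ y y', App E f x y ∧ App E f x' y' ∧ E y y') (s : M)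
    (hs : ∃ x, E x s) (hsd : ∀ x, E x s → E x d) : ∃ x, E x s ∧ ∀ y, E y s → ¬ App E R y x := by
  obtain ⟨t, ht⟩ := repl_def h (def_app.{v} 2 0 1) (fun _ => f) s
    (fun x _ y y' h1 h2 => hfun x y y' h1 h2)
  obtain ⟨x1, hx1⟩ := hs
  obtain ⟨y1, hy1⟩ := htot x1 (hsd x1 hx1)
  obtain ⟨y0, hy0, hmin⟩ := h.foundation t ⟨y1, (ht y1).2 ⟨x1, hx1, hy1⟩⟩
  obtain ⟨x0, hx0, hxy⟩ := (ht y0).1 hy0
  refine ⟨x0, hx0, fun y hy hRy => ?_⟩
  obtain ⟨z, z', h1, h2, h3⟩ := hR y x0 hRy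
  have h4 : z' = y0 := hfun x0 z' y0 h2 hxy
  rw [h4] at h3
  exact hmin z h3 ((ht z).2 ⟨y, hy, h1⟩)

/-- uniqueness of the collapse -/
theorem min_agree (h : IsZFC E) (d f R g : M)
    (hfun : ∀ x y y', App E f x y → App E f x y' → y = y')
    (htot : ∀ x, E x d → ∃ y, App E f x y)
    (htr : ∀ x y z, E x d → App E f x y → E z y → ∃ x', E x' d ∧ App E f x' z)
    (hR : ∀ x x', E x d → E x' d →
      (App E R x x' ↔ ∃ y y', App E f x y ∧ App E f x' y' ∧ E y y'))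
    (hR' : ∀ x x', App E R x x' → ∃ y y', App E f x y ∧ App E f x' y' ∧ E y y')
    (gtot : ∀ x, E x d → ∃ y, App E g x y)
    (gfun : ∀ x y y', App E g x y → App E g x y' → y = y')
    (grec : ∀ x y, E x d → App E g x y → ∀ z, E z y ↔ ∃ x', E x' d ∧ App E R x' x ∧ App E g x' z)
    (x y y' : M) (hx : E x d) (hy : App E f x y) (hy' : App E g x y') : y = y' := by
  obtain ⟨s, hs⟩ := sep_def h min_def3.{v} (scons f (fun _ => g)) d
  have hs' : ∀ x, E x s ↔ E x d ∧ ∃ y y', App E f x y ∧ App E g x y' ∧ ¬ y = y' := hs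
  by_contra hne
  obtain ⟨x0, hx0, hmin⟩ := min_wf h d f R hfun htot hR' s
    ⟨x, (hs' x).2 ⟨hx, y, y', hy, hy', hne⟩⟩ (fun x hx => ((hs' x).1 hx).1)
  obtain ⟨hx0d, z, z', hz, hz', hzne⟩ := (hs' x0).1 hx0
  have key : ∀ x', E x' d → App E R x' x0 → ∀ u, App E f x' u ↔ App E g x' u := by
    intro x' hx' hRx u
    have hns : ¬ E x' s := fun hc => hmin x' hc hRx
    constructor
    · intro hu
      obtain ⟨u', hu'⟩ := gtot x' hx'
      by_cases he : u = u'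
      · rw [he]
        exact hu'
      · exact absurd ((hs' x').2 ⟨hx', u, u', hu, hu', he⟩) hns
    · intro hu
      obtain ⟨u', hu'⟩ := htot x' hx'
      by_cases he : u' = u
      · rw [← he]
        exact hu'
      · exact absurd ((hs' x').2 ⟨hx', u', u, hu', hu, he⟩) hns
  refine hzne (h.ext z z' fun u => ⟨fun hu => ?_, fun hu => ?_⟩)
  · obtain ⟨x', hx', hfu⟩ := htr x0 z u hx0d hz hu
    have hRx : App E R x' x0 := (hR x' x0 hx' hx0d).2 ⟨u, z, hfu, hz, hu⟩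
    exact (grec x0 z' hx0d hz' u).2 ⟨x', hx', hRx, (key x' hx' hRx u).1 hfu⟩
  · obtain ⟨x', hx', hRx, hgu⟩ := (grec x0 z' hx0d hz' u).1 hu
    have hfu := (key x' hx' hRx u).2 hgu
    obtain ⟨v, v', h1, h2, h3⟩ := (hR x' x0 hx' hx0d).1 hRx
    have e1 : v = u := hfun x' v u h1 hfu
    have e2 : v' = z := hfun x0 v' z h2 hz
    rw [e1, e2] at h3
    exact h3

end General

/-- ordered pairs of elements of the check ordinal `δ` are elements of a set of `V` -/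
theorem min_prod {B : Type u} [CompleteBooleanAlgebra B] (U : UF B) (δ : Ordinal.{u}) (q x x' : MU U)
    (hx : MU.E U x (ck U δ)) (hx' : MU.E U x' (ck U δ)) (hq : IsOPair (MU.E U) q x x') :
    MU.E U q (jV U (ZFSet.prod δ.toZFSet δ.toZFSet)).1 := by
  have hV : MinS ZFSet.{u} VE (scons δ.toZFSet (fun _ => ZFSet.prod δ.toZFSet δ.toZFSet)) := by
    intro a b ha hb
    exact ⟨ZFSet.pair a b, ZFSet.pair_mem_prod.2 ⟨ha, hb⟩, (isOPair_V _ _ _).2 rfl⟩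
  have hW := (elem U min_def4
    (scons δ.toZFSet (fun _ => ZFSet.prod δ.toZFSet δ.toZFSet))).2 hV
  have hd : (jV U δ.toZFSet).1 = ck U δ := jV_ck U δ
  rw [← hd] at hx hx'
  have wx : WV U x := WV_trans U _ _ (jV U δ.toZFSet).2 hx
  have wx' : WV U x' := WV_trans U _ _ (jV U δ.toZFSet).2 hx'
  obtain ⟨q', hq'1, hq'2⟩ := hW ⟨x, wx⟩ ⟨x', wx'⟩ hx hx'
  have h1 : IsOPair (MU.E U) q'.1 x x' := (min_isOPair (WV_trans U) _ _ _).1 hq'2
  have h2 : q = q'.1 := isOPair_unique (MU.ext_E U) hq h1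
  rw [h2]
  exact hq'1

variable {B : Type u} [CompleteBooleanAlgebra B] {lam : Cardinal.{u}}

/-- Subsets (in the quotient) of sets `ž`, `z ∈ V`, belong to `K`: by `exists_code` and separation
in `K` (`sep_def` for `Res E K`; bounded notions are absolute between `K` and `MU U`). -/
theorem sub_mem_K (a : lam.ord.ToType → B)
    (gen : ∀ b : B, ∃ S : Set (Set (Set (Set lam.ord.ToType))),
      b = ⨆ w ∈ S, ⨅ v ∈ w, ⨆ z ∈ v, ⨅ η ∈ z, a η)
    (U : UF B) (K : MU U → Prop) (hK : IsInner (MU.E U) K) (hV : ∀ x, WV U x → K x)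
    (hA : K (MU.mk U (nameA a))) (y : MU U) (z : ZFSet.{u})
    (hy : ∀ x, MU.E U x y → MU.E U x (jV U z).1) : K y := by
  obtain ⟨y', rfl⟩ := MU.mk_surj U y
  obtain ⟨Q, hQ⟩ := exists_code a gen y' z
  have hQU := hQ U
  set Qk : {x // K x} := ⟨(jV U Q).1, hV _ (jV U Q).2⟩ with hQk
  set zk : {x // K x} := ⟨(jV U z).1, hV _ (jV U z).2⟩ with hzk
  set Ak : {x // K x} := ⟨MU.mk U (nameA a), hA⟩ with hAk
  obtain ⟨b, hb⟩ := sep_def hK.zfc min_def1 (scons Qk (fun _ => Ak)) zk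
  have hbe : b.1 = MU.mk U y' := by
    refine MU.ext_E U _ _ fun t => ?_
    constructor
    · intro htb
      have kt : K t := hK.trans _ _ b.2 htb
      obtain ⟨h1, h2⟩ := (hb ⟨t, kt⟩).1 htb
      have h3 := (min_abs1 hK.trans _).1 h2
      exact (hQU t h1).2 h3
    · intro hty
      have htz := hy t hty
      have kt : K t := hK.trans _ _ zk.2 htz
      refine (hb ⟨t, kt⟩).2 ⟨htz, ?_⟩
      refine (min_abs1 hK.trans _).2 ?_
      exact (hQU t htz).1 hty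
  rw [← hbe]
  exact b.2

/-- For `m` take `δ`, `p` from `exists_surj`, `R = {⟨x, x'⟩ : x, x' ∈ δ, p(x) ∈ p(x')}`, a subset of
the check name of `δ × δ`, so `R ∈ K`. It is well-founded in `K`, as it is in the quotient
(foundation for `{p(x) : x ∈ s}`). Let `f ∈ K` be given by `exists_collapse` in `K`. Then `f = p` on
`δ` (consider an `R`-minimal element of the set of disagreement), so `m` is a value of `f`. -/
theorem least (a : lam.ord.ToType → B)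
    (gen : ∀ b : B, ∃ S : Set (Set (Set (Set lam.ord.ToType))),
      b = ⨆ w ∈ S, ⨅ v ∈ w, ⨆ z ∈ v, ⨅ η ∈ z, a η)
    (U : UF B) (K : MU U → Prop) (hK : IsInner (MU.E U) K) (hV : ∀ x, WV U x → K x)
    (hA : K (MU.mk U (nameA a))) (m : MU U) : K m := by
  have hZ := BV.isZFC U
  obtain ⟨δ, f, ftot, ffun, ⟨x0, hx0, hfx0⟩, ftr⟩ := exists_surj U m
  -- the relation `R`
  obtain ⟨D, hD⟩ := exists_prod hZ (ck U δ) (ck U δ)
  obtain ⟨R, hR⟩ := sep_def hZ min_def2 (scons f (fun _ => f)) D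
  have hR1 : ∀ q, MU.E U q R ↔ MU.E U q D ∧ ∃ x x' y y', IsOPair (MU.E U) q x x' ∧
      App (MU.E U) f x y ∧ App (MU.E U) f x' y' ∧ MU.E U y y' := hR
  have hRapp : ∀ x x', App (MU.E U) R x x' → MU.E U x (ck U δ) ∧ MU.E U x' (ck U δ) ∧
      ∃ y y', App (MU.E U) f x y ∧ App (MU.E U) f x' y' ∧ MU.E U y y' := by
    rintro x x' ⟨q, hq, hqR⟩
    obtain ⟨hqD, z, z', y, y', h1, h2, h3, h4⟩ := (hR1 q).1 hqR
    obtain ⟨s, t, hs, ht, hst⟩ := (hD q).1 hqD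
    obtain ⟨e1, e2⟩ := isOPair_inj hq hst
    obtain ⟨e3, e4⟩ := isOPair_inj hq h1
    rw [e1, e2]
    rw [← e1, ← e2]
    rw [← e1] at hs
    rw [← e2] at ht
    rw [← e3] at h2
    rw [← e4] at h3
    exact ⟨hs, ht, y, y', h2, h3, h4⟩
  have hRapp' : ∀ x x', MU.E U x (ck U δ) → MU.E U x' (ck U δ) →
      (App (MU.E U) R x x' ↔
        ∃ y y', App (MU.E U) f x y ∧ App (MU.E U) f x' y' ∧ MU.E U y y') := by
    intro x x' hx hx'
    refine ⟨fun h => (hRapp x x' h).2.2, fun h => ?_⟩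
    obtain ⟨y, y', h1, h2, h3⟩ := h
    obtain ⟨q, hq⟩ := exists_isOPair hZ.pairing x x'
    exact ⟨q, hq, (hR1 q).2 ⟨(hD q).2 ⟨x, x', hx, hx', hq⟩, x, x', y, y', hq, h1, h2, h3⟩⟩
  have kR : K R := by
    refine sub_mem_K a gen U K hK hV hA R (ZFSet.prod δ.toZFSet δ.toZFSet) fun q hq => ?_
    obtain ⟨x, x', hx, hx', hxx⟩ := (hD q).1 ((hR1 q).1 hq).1
    exact min_prod U δ q x x' hx hx' hxx
  have kd : K (ck U δ) := hV _ (WV_ck U δ)
  -- the collapse in `K`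
  obtain ⟨g, gtot, gfun, grec⟩ := exists_collapse hK.zfc ⟨ck U δ, kd⟩ ⟨R, kR⟩ (by
    rintro s ⟨x, hx⟩ hsd
    obtain ⟨x1, hx1, hmin⟩ := min_wf hZ (ck U δ) f R ffun ftot
      (fun x x' h => (hRapp x x' h).2.2) s.1 ⟨x.1, hx⟩
      (fun x hx => hsd ⟨x, hK.trans _ _ s.2 hx⟩ hx)
    refine ⟨⟨x1, hK.trans _ _ s.2 hx1⟩, hx1, fun y hy hRy => ?_⟩
    exact hmin y.1 hy ((min_app hK.trans _ _ _).1 hRy))
  have gtot' : ∀ x, MU.E U x (ck U δ) → ∃ y, App (MU.E U) g.1 x y := by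
    intro x hx
    obtain ⟨y, hy⟩ := gtot ⟨x, hK.trans _ _ kd hx⟩ hx
    exact ⟨y.1, (min_app hK.trans _ _ _).1 hy⟩
  have gfun' : ∀ x y y', App (MU.E U) g.1 x y → App (MU.E U) g.1 x y' → y = y' := by
    intro x y y' h1 h2
    have k1 := min_app_K hK.trans g.2 h1
    have k2 := min_app_K hK.trans g.2 h2
    have := gfun ⟨x, k1.1⟩ ⟨y, k1.2⟩ ⟨y', k2.2⟩ ((min_app hK.trans _ _ _).2 h1)
      ((min_app hK.trans _ _ _).2 h2)
    exact congrArg Subtype.val this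
  have grec' : ∀ x y, MU.E U x (ck U δ) → App (MU.E U) g.1 x y →
      ∀ z, MU.E U z y ↔ ∃ x', MU.E U x' (ck U δ) ∧ App (MU.E U) R x' x ∧
        App (MU.E U) g.1 x' z := by
    intro x y hx hxy z
    have k1 := min_app_K hK.trans g.2 hxy
    have h0 := grec ⟨x, k1.1⟩ ⟨y, k1.2⟩ hx ((min_app hK.trans _ _ _).2 hxy)
    constructor
    · intro hz
      obtain ⟨x', h1, h2, h3⟩ := (h0 ⟨z, hK.trans _ _ k1.2 hz⟩).1 hz
      exact ⟨x'.1, h1, (min_app hK.trans _ _ _).1 h2, (min_app hK.trans _ _ _).1 h3⟩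
    · rintro ⟨x', h1, h2, h3⟩
      have k3 := min_app_K hK.trans g.2 h3
      exact (h0 ⟨z, k3.2⟩).2 ⟨⟨x', k3.1⟩, h1, (min_app hK.trans ⟨R, kR⟩ ⟨x', k3.1⟩ ⟨x, k1.1⟩).2 h2,
        (min_app hK.trans g ⟨x', k3.1⟩ ⟨z, k3.2⟩).2 h3⟩
  obtain ⟨y0, hy0⟩ := gtot' x0 hx0
  have hmy : m = y0 := min_agree hZ (ck U δ) f R g.1 ffun ftot ftr hRapp'
    (fun x x' h => (hRapp x x' h).2.2) gtot' gfun' grec' x0 m y0 hx0 hfx0 hy0
  rw [hmy]
  exact (min_app_K hK.trans g.2 hy0).2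

end PK
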